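import Pool.Agent.SP91.Sym

/-!
# Products of `hh` count partitions
-/

set_option autoImplicit false

open Finset

namespace Pool.SP91

variable {P : Type*} [PartialOrder P]

/-- Partitions on `Q`. -/
def Part (ω : P → ℕ) (Q : Finset P) (f : P → ℕ) : Prop :=
  (∀ s ∈ Q, ∀ t ∈ Q, s < t → f s ≤ f t) ∧ (∀ s ∈ Q, ∀ t ∈ Q, s < t → ω t < ω s → f s < f t)

open Classical in
/-- The set of partitions with given content. -/
noncomputable def SS [Fintype P] (ω : P → ℕ) (l : List ℕ) (Q : Finset P) : Finset (P → ℕ) :=
  (Fintype.piFinset (fun _ : P => range (l.length + 1))).filter (fun f =>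
    (∀ x, x ∉ Q → f x = 0) ∧ Part ω Q f ∧ ∀ i, (Q.filter (fun x => f x = i)).card = l.getD i 0)

variable {ω : P → ℕ}

open Classical in
theorem mem_SS [Fintype P] {l : List ℕ} {Q : Finset P} {f : P → ℕ} :
    f ∈ SS ω l Q ↔ (∀ x, f x < l.length + 1) ∧ (∀ x, x ∉ Q → f x = 0) ∧ Part ω Q f ∧
      ∀ i, (Q.filter (fun x => f x = i)).card = l.getD i 0 := by
  unfold SS
  rw [mem_filter, Fintype.mem_piFinset]
  simp only [mem_range]

open Classical in
theorem SS_fiber [Fintype P] (a : ℕ) (l : List ℕ) (Q I : Finset P) (hI : I ∈ lows Q)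
    (hc : I.card = a) (hw : WeakOn ω I) :
    ((SS ω (a :: l) Q).filter (fun f => Q.filter (fun x => f x = 0) = I)).card
      = (SS ω l (Q \ I)).card := by
  have hI' := mem_lows.1 hI
  refine Finset.card_nbij' (fun f x => f x - 1) (fun f x => if x ∈ Q \ I then f x + 1 else 0)
    ?_ ?_ ?_ ?_
  · intro f hf
    rw [mem_coe, mem_filter, mem_SS] at hf
    obtain ⟨⟨h1, h2, h3, h4⟩, h5⟩ := hf
    have hz : ∀ x ∈ I, f x = 0 := by
      intro x hx
      rw [← h5, mem_filter] at hx
      exact hx.2
    have hp : ∀ x ∈ Q \ I, 1 ≤ f x := by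
      intro x hx
      rw [mem_sdiff] at hx
      rw [Nat.one_le_iff_ne_zero]
      intro h
      apply hx.2
      rw [← h5, mem_filter]
      exact ⟨hx.1, h⟩
    rw [mem_coe, mem_SS]
    refine ⟨?_, ?_, ⟨?_, ?_⟩, ?_⟩
    · intro x
      have := h1 x
      rw [List.length_cons] at this
      simp only
      omega
    · intro x hx
      simp only
      by_cases hxQ : x ∈ Q
      · have hxI : x ∈ I := by
          by_contra h
          exact hx (mem_sdiff.2 ⟨hxQ, h⟩)
        rw [hz x hxI]
      · rw [h2 x hxQ]
    · intro s hs t ht hst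
      have := h3.1 s (sdiff_subset hs) t (sdiff_subset ht) hst
      simp only
      omega
    · intro s hs t ht hst hlt
      have := h3.2 s (sdiff_subset hs) t (sdiff_subset ht) hst hlt
      have := hp s hs
      simp only
      omega
    · intro i
      have h6 := h4 (i + 1)
      rw [List.getD_cons_succ] at h6
      rw [← h6]
      congr 1
      ext x
      rw [mem_filter, mem_filter]
      constructor
      · rintro ⟨hx, h⟩
        refine ⟨sdiff_subset hx, ?_⟩
        have := hp x hx
        simp only at h
        omega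
      · rintro ⟨hx, h⟩
        refine ⟨mem_sdiff.2 ⟨hx, fun hxI => ?_⟩, ?_⟩
        · rw [hz x hxI] at h
          omega
        · simp only
          omega
  · intro f hf
    rw [mem_coe, mem_SS] at hf
    obtain ⟨h1, h2, h3, h4⟩ := hf
    rw [mem_coe, mem_filter, mem_SS]
    have hset : Q.filter (fun x => (if x ∈ Q \ I then f x + 1 else 0) = 0) = I := by
      ext x
      rw [mem_filter]
      constructor
      · rintro ⟨hx, h⟩
        by_contra hxI
        rw [if_pos (mem_sdiff.2 ⟨hx, hxI⟩)] at h
        omega
      · intro hx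
        refine ⟨hI'.1 hx, ?_⟩
        rw [if_neg]
        intro h
        exact (mem_sdiff.1 h).2 hx
    refine ⟨⟨?_, ?_, ⟨?_, ?_⟩, ?_⟩, hset⟩
    · intro x
      have := h1 x
      rw [List.length_cons]
      simp only
      split_ifs <;> omega
    · intro x hx
      simp only
      rw [if_neg]
      intro h
      exact hx (sdiff_subset h)
    · intro s hs t ht hst
      simp only
      by_cases hsI : s ∈ I
      · rw [if_neg (fun h => (mem_sdiff.1 h).2 hsI)]
        exact Nat.zero_le _
      · have htI : t ∉ I := fun h => hsI (hI'.2 t h s hs hst)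
        rw [if_pos (mem_sdiff.2 ⟨hs, hsI⟩), if_pos (mem_sdiff.2 ⟨ht, htI⟩)]
        have := h3.1 s (mem_sdiff.2 ⟨hs, hsI⟩) t (mem_sdiff.2 ⟨ht, htI⟩) hst
        omega
    · intro s hs t ht hst hlt
      simp only
      by_cases hsI : s ∈ I
      · rw [if_neg (fun h => (mem_sdiff.1 h).2 hsI)]
        have htI : t ∉ I := by
          intro htI
          have := hw s hsI t htI hst
          omega
        rw [if_pos (mem_sdiff.2 ⟨ht, htI⟩)]
        omega
      · have htI : t ∉ I := fun h => hsI (hI'.2 t h s hs hst)
        rw [if_pos (mem_sdiff.2 ⟨hs, hsI⟩), if_pos (mem_sdiff.2 ⟨ht, htI⟩)]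
        have := h3.2 s (mem_sdiff.2 ⟨hs, hsI⟩) t (mem_sdiff.2 ⟨ht, htI⟩) hst hlt
        omega
    · intro i
      rcases i with _ | i
      · rw [hset, hc, List.getD_cons_zero]
      · rw [List.getD_cons_succ, ← h4 i]
        congr 1
        ext x
        rw [mem_filter, mem_filter]
        constructor
        · rintro ⟨hx, h⟩
          change (if x ∈ Q \ I then f x + 1 else 0) = i + 1 at h
          by_cases hxI : x ∈ Q \ I
          · rw [if_pos hxI] at h
            exact ⟨hxI, by omega⟩
          · rw [if_neg hxI] at h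
            omega
        · rintro ⟨hx, h⟩
          refine ⟨sdiff_subset hx, ?_⟩
          show (if x ∈ Q \ I then f x + 1 else 0) = i + 1
          rw [if_pos hx, h]
  · intro f hf
    rw [mem_coe, mem_filter, mem_SS] at hf
    obtain ⟨⟨h1, h2, h3, h4⟩, h5⟩ := hf
    funext x
    simp only
    by_cases hx : x ∈ Q \ I
    · rw [if_pos hx]
      have : f x ≠ 0 := by
        intro h
        rw [mem_sdiff] at hx
        apply hx.2
        rw [← h5, mem_filter]
        exact ⟨hx.1, h⟩
      omega
    · rw [if_neg hx]
      by_cases hxQ : x ∈ Q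
      · have hxI : x ∈ I := by
          by_contra h
          exact hx (mem_sdiff.2 ⟨hxQ, h⟩)
        rw [← h5, mem_filter] at hxI
        exact hxI.2.symm
      · exact (h2 x hxQ).symm
  · intro f hf
    rw [mem_coe, mem_SS] at hf
    obtain ⟨h1, h2, h3, h4⟩ := hf
    funext x
    simp only
    by_cases hx : x ∈ Q \ I
    · rw [if_pos hx]
      omega
    · rw [if_neg hx, h2 x hx]

open Classical in
theorem SS_card [Fintype P] (hω : Function.Injective ω) (l : List ℕ) :
    ∀ Q : Finset P, ((SS ω l Q).card : ℤ) = hprod ω l Q := by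
  induction l with
  | nil =>
    intro Q
    have h1 : hprod ω [] Q = if Q = ∅ then 1 else 0 := rfl
    rw [h1]
    by_cases hQ : Q = ∅
    · rw [if_pos hQ]
      subst hQ
      have : SS ω [] (∅ : Finset P) = {fun _ => 0} := by
        ext f
        rw [mem_SS, mem_singleton]
        constructor
        · rintro ⟨_, h2, _, _⟩
          funext x
          exact h2 x (notMem_empty x)
        · rintro rfl
          refine ⟨fun x => by simp, fun x _ => rfl, ⟨?_, ?_⟩, fun i => by simp⟩
          · intro s hs
            exact absurd hs (notMem_empty s)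
          · intro s hs
            exact absurd hs (notMem_empty s)
      rw [this]
      simp
    · rw [if_neg hQ]
      have : SS ω [] Q = ∅ := by
        rw [Finset.eq_empty_iff_forall_notMem]
        intro f hf
        rw [mem_SS] at hf
        obtain ⟨x, hx⟩ := nonempty_iff_ne_empty.2 hQ
        have h2 := hf.2.2.2 (f x)
        have h3 : x ∈ Q.filter (fun y => f y = f x) := mem_filter.2 ⟨hx, rfl⟩
        have h4 := card_pos.2 ⟨_, h3⟩
        rw [h2] at h4
        simp at h4
      rw [this]
      simp
  | cons a l ih =>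
    intro Q
    have h1 : hprod ω (a :: l) Q = ∑ I ∈ lows Q, hh ω a I * hprod ω l (Q \ I) := by
      unfold hprod
      rw [List.map_cons, List.prod_cons, mul_apply]
    rw [h1]
    have hmaps : ∀ f ∈ SS ω (a :: l) Q, Q.filter (fun x => f x = 0) ∈ lows Q := by
      intro f hf
      rw [mem_SS] at hf
      rw [mem_lows]
      refine ⟨filter_subset _ _, ?_⟩
      intro t ht s hs hst
      rw [mem_filter] at ht ⊢
      have := hf.2.2.1.1 s hs t ht.1 hst
      exact ⟨hs, by omega⟩
    rw [Finset.card_eq_sum_card_fiberwise hmaps]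
    push_cast
    refine Finset.sum_congr rfl (fun I hI => ?_)
    rw [← ih (Q \ I)]
    unfold hh
    by_cases hc : I.card = a ∧ WeakOn ω I
    · rw [if_pos hc, one_mul, SS_fiber a l Q I hI hc.1 hc.2]
    · rw [if_neg hc, zero_mul]
      rw [Nat.cast_eq_zero, card_eq_zero, Finset.filter_eq_empty_iff]
      intro f hf h5
      rw [mem_SS] at hf
      apply hc
      constructor
      · have := hf.2.2.2 0
        rw [h5, List.getD_cons_zero] at this
        exact this
      · intro s hs t ht hst
        have hsQ := (mem_lows.1 hI).1 hs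
        have htQ := (mem_lows.1 hI).1 ht
        rcases lt_trichotomy (ω s) (ω t) with h | h | h
        · exact h
        · exact absurd (hω h) hst.ne
        · exfalso
          have h6 := hf.2.2.1.2 s hsQ t htQ hst h
          rw [← h5, mem_filter] at ht
          omega

/-- The frozen form of symmetry, for one content vector. -/
noncomputable def cnt [Fintype P] (ω : P → ℕ) (α : ℕ → ℕ) : ℕ :=
  Nat.card {f : P → ℕ // (∀ s t : P, s < t → f s ≤ f t) ∧
            (∀ s t : P, s < t → ω t < ω s → f s < f t) ∧
            ∀ i : ℕ, Nat.card {x : P // f x = i} = α i}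

open Classical in
theorem cnt_eq [Fintype P] (l : List ℕ) :
    cnt ω (fun i => l.getD i 0) = (SS ω l (Finset.univ : Finset P)).card := by
  have h : ∀ f : P → ℕ, ((∀ s t : P, s < t → f s ≤ f t) ∧
            (∀ s t : P, s < t → ω t < ω s → f s < f t) ∧
            ∀ i : ℕ, Nat.card {x : P // f x = i} = l.getD i 0)
      ↔ f ∈ SS ω l (Finset.univ : Finset P) := by
    intro f
    rw [mem_SS]
    have hc : ∀ i, Nat.card {x : P // f x = i} = ((univ : Finset P).filter (fun x => f x = i)).card := by
      intro i
      rw [Nat.card_eq_fintype_card, Fintype.card_subtype]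
    constructor
    · rintro ⟨h1, h2, h3⟩
      refine ⟨?_, fun x hx => absurd (mem_univ x) hx, ⟨fun s _ t _ => h1 s t, fun s _ t _ => h2 s t⟩,
        fun i => by rw [← hc, h3]⟩
      intro x
      by_contra hcon
      have h4 := h3 (f x)
      rw [hc, List.getD_eq_default _ _ (by omega), card_eq_zero] at h4
      have h5 : x ∈ (univ : Finset P).filter (fun y => f y = f x) := mem_filter.2 ⟨mem_univ x, rfl⟩
      rw [h4] at h5
      exact absurd h5 (notMem_empty x)
    · rintro ⟨_, _, h3, h4⟩
      exact ⟨fun s t => h3.1 s (mem_univ s) t (mem_univ t),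
        fun s t => h3.2 s (mem_univ s) t (mem_univ t), fun i => by rw [hc, h4]⟩
  unfold cnt
  rw [Nat.card_congr (Equiv.subtypeEquivRight h), Nat.card_eq_fintype_card, Fintype.card_coe]

theorem getD_swap (u v : List ℕ) (a b i : ℕ) :
    (u ++ b :: a :: v).getD i 0
      = (u ++ a :: b :: v).getD (Equiv.swap u.length (u.length + 1) i) 0 := by
  rcases lt_trichotomy i u.length with h | h | h
  · rw [Equiv.swap_apply_of_ne_of_ne (by omega) (by omega), List.getD_append _ _ _ _ h,
      List.getD_append _ _ _ _ h]
  · subst h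
    rw [Equiv.swap_apply_left, List.getD_append_right _ _ _ _ (le_refl _),
      List.getD_append_right _ _ _ _ (by omega)]
    simp
  · rcases Nat.eq_or_lt_of_le (Nat.succ_le_of_lt h) with h2 | h2
    · have h3 : i = u.length + 1 := h2.symm
      subst h3
      rw [Equiv.swap_apply_right, List.getD_append_right _ _ _ _ (by omega),
        List.getD_append_right _ _ _ _ (le_refl _)]
      simp
    · have h3 : u.length + 1 < i := h2
      rw [Equiv.swap_apply_of_ne_of_ne (by omega) (by omega),
        List.getD_append_right _ _ _ _ (by omega), List.getD_append_right _ _ _ _ (by omega)]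
      obtain ⟨k, hk⟩ : ∃ k, i - u.length = k + 2 := ⟨i - u.length - 2, by omega⟩
      rw [hk]
      rfl

/-- Symmetry of the generating function gives `SymAt`. -/
theorem symAt_of_cnt [Fintype P] (hω : Function.Injective ω)
    (h : ∀ (α : ℕ → ℕ) (σ : Equiv.Perm ℕ), cnt (P := P) ω α = cnt (P := P) ω (fun i => α (σ i))) :
    SymAt ω (Finset.univ : Finset P) := by
  have key : ∀ (u v : List ℕ) (a b : ℕ), hprod ω (u ++ a :: b :: v) (Finset.univ : Finset P)
      = hprod ω (u ++ b :: a :: v) Finset.univ := by
    intro u v a b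
    rw [← SS_card hω, ← SS_card hω, ← cnt_eq, ← cnt_eq]
    have h1 := h (fun i => (u ++ a :: b :: v).getD i 0) (Equiv.swap u.length (u.length + 1))
    rw [h1]
    congr 2
    funext i
    exact (getD_swap u v a b i).symm
  have key2 : ∀ l l' : List ℕ, l.Perm l' → ∀ u : List ℕ,
      hprod ω (u ++ l) (Finset.univ : Finset P) = hprod ω (u ++ l') Finset.univ := by
    intro l l' hp
    induction hp with
    | nil => intro u; rfl
    | cons a _ ih =>
      intro u
      have := ih (u ++ [a])
      simpa using this
    | swap a b l => intro u; exact key u l b a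
    | trans _ _ ih1 ih2 => intro u; rw [ih1, ih2]
  intro l l' hp
  exact key2 l l' hp []

end Pool.SP91
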