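import Pool.Agent.SP91.Forest

/-!
# Labelled posets with in-degrees and out-degrees at most one are unions of ribbons
-/

set_option autoImplicit false

open Finset

namespace Pool.SP91

variable {P : Type*} [PartialOrder P] (ω : P → ℕ)

/-- Paths. -/
def RR : P → P → Prop := Relation.ReflTransGen (Arc ω)

variable {ω}

theorem RR.le {x y : P} (h : RR ω x y) : ω x ≤ ω y := by
  induction h with
  | refl => exact le_refl _
  | tail _ h2 ih => exact ih.trans h2.2.le

theorem RR.lt_or_eq {x y : P} (h : RR ω x y) : x = y ∨ ω x < ω y := by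
  rcases Relation.ReflTransGen.cases_tail h with h | ⟨z, h1, h2⟩
  · exact Or.inl h.symm
  · exact Or.inr (lt_of_le_of_lt (RR.le h1) h2.2)

theorem exists_root (x : P) : ∃ r, RR ω r x ∧ ∀ y, ¬ Arc ω y r := by
  induction hn : ω x using Nat.strong_induction_on generalizing x with
  | _ n ih =>
    by_cases h : ∃ y, Arc ω y x
    · obtain ⟨y, hy⟩ := h
      obtain ⟨r, hr1, hr2⟩ := ih (ω y) (hn ▸ hy.2) y rfl
      exact ⟨r, hr1.tail hy, hr2⟩
    · push Not at h
      exact ⟨x, Relation.ReflTransGen.refl, h⟩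

/-- The root of an element. -/
noncomputable def root (ω : P → ℕ) (x : P) : P := (exists_root (ω := ω) x).choose

theorem root_spec (x : P) : RR ω (root ω x) x := (exists_root (ω := ω) x).choose_spec.1

theorem root_src (x y : P) : ¬ Arc ω y (root ω x) := (exists_root (ω := ω) x).choose_spec.2 y

/-- In-degrees at most one. -/
def In1 (ω : P → ℕ) : Prop := ∀ x y y' : P, Arc ω y x → Arc ω y' x → y = y'

/-- Out-degrees at most one. -/
def Out1 (ω : P → ℕ) : Prop := ∀ x y y' : P, Arc ω x y → Arc ω x y' → y = y'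

theorem RR.of_end (hin : In1 ω) {x y z : P} (h1 : RR ω x z) (h2 : RR ω y z) :
    RR ω x y ∨ RR ω y x := by
  induction h1 generalizing y with
  | refl => exact Or.inr h2
  | @tail b c hb hbc ih =>
    rcases Relation.ReflTransGen.cases_tail h2 with h | ⟨w, hw1, hw2⟩
    · subst h
      exact Or.inl (hb.tail hbc)
    · have : b = w := hin c b w hbc hw2
      subst this
      exact ih hw1

theorem root_unique (hin : In1 ω) {x r : P} (h : RR ω r x) (hr : ∀ y, ¬ Arc ω y r) :
    root ω x = r := by
  rcases RR.of_end hin (root_spec (ω := ω) x) h with h1 | h1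
  · rcases Relation.ReflTransGen.cases_tail h1 with h2 | ⟨w, _, hw⟩
    · exact h2.symm
    · exact absurd hw (hr w)
  · rcases Relation.ReflTransGen.cases_tail h1 with h2 | ⟨w, _, hw⟩
    · exact h2
    · exact absurd hw (root_src x w)

theorem root_arc (hin : In1 ω) {x y : P} (h : Arc ω x y) : root ω y = root ω x :=
  root_unique hin ((root_spec (ω := ω) x).tail h) (root_src x)

/-- The total order. -/
def klt (ω : P → ℕ) (x y : P) : Prop :=
  ω (root ω x) < ω (root ω y) ∨ (root ω x = root ω y ∧ ω x < ω y)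

theorem klt_irrefl (x : P) : ¬ klt ω x x := by
  rintro (h | ⟨_, h⟩) <;> exact lt_irrefl _ h

theorem klt_trans {x y z : P} (h1 : klt ω x y) (h2 : klt ω y z) : klt ω x z := by
  rcases h1 with h1 | ⟨h1, h1'⟩ <;> rcases h2 with h2 | ⟨h2, h2'⟩
  · exact Or.inl (h1.trans h2)
  · exact Or.inl (h2 ▸ h1)
  · exact Or.inl (h1 ▸ h2)
  · exact Or.inr ⟨h1.trans h2, h1'.trans h2'⟩

theorem klt_total (hω : Function.Injective ω) (x y : P) : klt ω x y ∨ x = y ∨ klt ω y x := by
  rcases lt_trichotomy (ω (root ω x)) (ω (root ω y)) with h | h | h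
  · exact Or.inl (Or.inl h)
  · have hr : root ω x = root ω y := hω h
    rcases lt_trichotomy (ω x) (ω y) with h' | h' | h'
    · exact Or.inl (Or.inr ⟨hr, h'⟩)
    · exact Or.inr (Or.inl (hω h'))
    · exact Or.inr (Or.inr (Or.inr ⟨hr.symm, h'⟩))
  · exact Or.inr (Or.inr (Or.inl h))

theorem klt_arc (hin : In1 ω) {x y : P} (h : Arc ω x y) : klt ω x y :=
  Or.inr ⟨(root_arc hin h).symm, h.2⟩

/-- Arcs join consecutive elements: predecessors. -/
theorem klt_pred (hin : In1 ω) (hout : Out1 ω) {w y x : P} (h : Arc ω w y)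
    (hx : klt ω x y) : x = w ∨ klt ω x w := by
  rcases hx with hx | ⟨hx1, hx2⟩
  · exact Or.inr (Or.inl (by rw [← root_arc hin h]; exact hx))
  · have hr : root ω x = root ω w := hx1.trans (root_arc hin h)
    have h1 : RR ω (root ω x) x := root_spec x
    have h2 : RR ω (root ω x) w := hr ▸ root_spec w
    have h3 : RR ω x w ∨ RR ω w x := by
      apply Relation.ReflTransGen.total_of_right_unique _ h1 h2
      intro a b c hab hac
      exact hout a b c hab hac
    rcases h3 with h3 | h3
    · rcases h3.lt_or_eq with h4 | h4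
      · exact Or.inl h4
      · exact Or.inr (Or.inr ⟨hr, h4⟩)
    · rcases Relation.ReflTransGen.cases_head h3 with h4 | ⟨z, hz1, hz2⟩
      · exact Or.inl h4.symm
      · have : z = y := hout w z y hz1 h
        subst this
        have := RR.le hz2
        omega

/-- Successors. -/
theorem klt_succ (hω : Function.Injective ω) (hin : In1 ω) (hout : Out1 ω) {w y x : P}
    (h : Arc ω w y) (hx : klt ω w x) : x = y ∨ klt ω y x := by
  rcases klt_total hω x y with h1 | h1 | h1
  · rcases klt_pred hin hout h h1 with h2 | h2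
    · subst h2
      exact absurd hx (klt_irrefl x)
    · exact absurd (klt_trans hx h2) (klt_irrefl w)
  · exact Or.inl h1
  · exact Or.inr h1

/-- East steps. -/
def isE (ω : P → ℕ) (y : P) : Prop := ∃ x, Arc ω x y ∧ x ⋖ y

/-- North steps. -/
def isN (ω : P → ℕ) (y : P) : Prop := ∃ x, Arc ω x y ∧ y ⋖ x

theorem not_isE_isN (hin : In1 ω) {y : P} (h1 : isE ω y) (h2 : isN ω y) : False := by
  obtain ⟨x, hx1, hx2⟩ := h1
  obtain ⟨x', hx1', hx2'⟩ := h2
  have := hin y x x' hx1 hx1'
  subst this
  exact lt_irrefl _ (hx2.lt.trans hx2'.lt)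

open Classical in
/-- Column. -/
noncomputable def colx [Fintype P] (ω : P → ℕ) (y : P) : ℕ :=
  (univ.filter (fun z : P => ¬ isN ω z ∧ (klt ω z y ∨ z = y))).card

open Classical in
/-- Row. -/
noncomputable def rowx [Fintype P] (ω : P → ℕ) (y : P) : ℕ :=
  (univ.filter (fun z : P => ¬ isE ω z ∧ klt ω y z)).card

variable [Fintype P]

open Classical in
theorem col_le {x y : P} (h : klt ω x y) : colx ω x ≤ colx ω y := by
  unfold colx
  apply card_le_card
  intro z hz
  rw [mem_filter] at hz ⊢
  refine ⟨hz.1, hz.2.1, Or.inl ?_⟩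
  rcases hz.2.2 with h1 | h1
  · exact klt_trans h1 h
  · subst h1; exact h

open Classical in
theorem row_le {x y : P} (h : klt ω x y) : rowx ω y ≤ rowx ω x := by
  unfold rowx
  apply card_le_card
  intro z hz
  rw [mem_filter] at hz ⊢
  exact ⟨hz.1, hz.2.1, klt_trans h hz.2.2⟩

open Classical in
theorem col_eq_isN {x y : P} (h : klt ω x y) (hc : colx ω x = colx ω y) :
    ∀ z, klt ω x z → (klt ω z y ∨ z = y) → isN ω z := by
  intro z hxz hzy
  by_contra hcon
  have hsub : univ.filter (fun z : P => ¬ isN ω z ∧ (klt ω z x ∨ z = x))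
      ⊂ univ.filter (fun z : P => ¬ isN ω z ∧ (klt ω z y ∨ z = y)) := by
    rw [Finset.ssubset_iff_of_subset]
    · refine ⟨z, mem_filter.2 ⟨mem_univ _, hcon, hzy⟩, ?_⟩
      rw [mem_filter]
      rintro ⟨_, _, h1 | h1⟩
      · exact klt_irrefl _ (klt_trans h1 hxz)
      · subst h1; exact klt_irrefl _ hxz
    · intro w hw
      rw [mem_filter] at hw ⊢
      refine ⟨hw.1, hw.2.1, Or.inl ?_⟩
      rcases hw.2.2 with h1 | h1
      · exact klt_trans h1 h
      · subst h1; exact h
  have := card_lt_card hsub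
  unfold colx at hc
  omega

open Classical in
theorem row_eq_isE {x y : P} (h : klt ω x y) (hc : rowx ω x = rowx ω y) :
    ∀ z, klt ω x z → (klt ω z y ∨ z = y) → isE ω z := by
  intro z hxz hzy
  by_contra hcon
  have hsub : univ.filter (fun z : P => ¬ isE ω z ∧ klt ω y z)
      ⊂ univ.filter (fun z : P => ¬ isE ω z ∧ klt ω x z) := by
    rw [Finset.ssubset_iff_of_subset]
    · refine ⟨z, mem_filter.2 ⟨mem_univ _, hcon, hxz⟩, ?_⟩
      rw [mem_filter]
      rintro ⟨_, _, h1⟩
      rcases hzy with h2 | h2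
      · exact klt_irrefl _ (klt_trans h1 h2)
      · subst h2; exact klt_irrefl _ h1
    · intro w hw
      rw [mem_filter] at hw ⊢
      exact ⟨hw.1, hw.2.1, klt_trans h hw.2.2⟩
  have := card_lt_card hsub
  unfold rowx at hc
  omega

theorem strict_step (hin : In1 ω) {x y : P} (h : klt ω x y) :
    colx ω x < colx ω y ∨ rowx ω y < rowx ω x := by
  by_contra hcon
  push Not at hcon
  have h1 : colx ω x = colx ω y := le_antisymm (col_le h) hcon.1
  have h2 : rowx ω x = rowx ω y := le_antisymm hcon.2 (row_le h)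
  exact not_isE_isN hin (row_eq_isE h h2 y h (Or.inr rfl)) (col_eq_isN h h1 y h (Or.inr rfl))

open Classical in
/-- East step: same row, next column. -/
theorem east_step (hω : Function.Injective ω) (hin : In1 ω) (hout : Out1 ω) {x y : P}
    (h : Arc ω x y) (hxy : x ⋖ y) : rowx ω x = rowx ω y ∧ colx ω y = colx ω x + 1 := by
  have hE : isE ω y := ⟨x, h, hxy⟩
  have hk := klt_arc hin h
  constructor
  · unfold rowx
    congr 1
    ext z
    rw [mem_filter, mem_filter]
    constructor
    · rintro ⟨h1, h2, h3⟩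
      refine ⟨h1, h2, ?_⟩
      rcases klt_succ hω hin hout h h3 with h4 | h4
      · subst h4; exact absurd hE h2
      · exact h4
    · rintro ⟨h1, h2, h3⟩
      exact ⟨h1, h2, klt_trans hk h3⟩
  · unfold colx
    have : univ.filter (fun z : P => ¬ isN ω z ∧ (klt ω z y ∨ z = y))
        = insert y (univ.filter (fun z : P => ¬ isN ω z ∧ (klt ω z x ∨ z = x))) := by
      ext z
      rw [mem_insert, mem_filter, mem_filter]
      constructor
      · rintro ⟨h1, h2, h3 | h3⟩
        · right
          refine ⟨h1, h2, ?_⟩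
          rcases klt_pred hin hout h h3 with h4 | h4
          · exact Or.inr h4
          · exact Or.inl h4
        · exact Or.inl h3
      · rintro (h1 | ⟨h1, h2, h3⟩)
        · subst h1
          exact ⟨mem_univ _, fun hN => not_isE_isN hin hE hN, Or.inr rfl⟩
        · refine ⟨h1, h2, Or.inl ?_⟩
          rcases h3 with h3 | h3
          · exact klt_trans h3 hk
          · subst h3; exact hk
    rw [this, card_insert_of_notMem]
    rw [mem_filter]
    rintro ⟨_, _, h3 | h3⟩
    · exact klt_irrefl _ (klt_trans h3 hk)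
    · subst h3; exact klt_irrefl _ hk

open Classical in
/-- North step: same column, previous row. -/
theorem north_step (hω : Function.Injective ω) (hin : In1 ω) (hout : Out1 ω) {x y : P}
    (h : Arc ω x y) (hxy : y ⋖ x) : colx ω x = colx ω y ∧ rowx ω x = rowx ω y + 1 := by
  have hN : isN ω y := ⟨x, h, hxy⟩
  have hk := klt_arc hin h
  constructor
  · unfold colx
    congr 1
    ext z
    rw [mem_filter, mem_filter]
    constructor
    · rintro ⟨h1, h2, h3⟩
      refine ⟨h1, h2, Or.inl ?_⟩
      rcases h3 with h3 | h3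
      · exact klt_trans h3 hk
      · subst h3; exact hk
    · rintro ⟨h1, h2, h3 | h3⟩
      · refine ⟨h1, h2, ?_⟩
        rcases klt_pred hin hout h h3 with h4 | h4
        · exact Or.inr h4
        · exact Or.inl h4
      · subst h3; exact absurd hN h2
  · unfold rowx
    have : univ.filter (fun z : P => ¬ isE ω z ∧ klt ω x z)
        = insert y (univ.filter (fun z : P => ¬ isE ω z ∧ klt ω y z)) := by
      ext z
      rw [mem_insert, mem_filter, mem_filter]
      constructor
      · rintro ⟨h1, h2, h3⟩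
        rcases klt_succ hω hin hout h h3 with h4 | h4
        · exact Or.inl h4
        · exact Or.inr ⟨h1, h2, h4⟩
      · rintro (h1 | ⟨h1, h2, h3⟩)
        · subst h1
          exact ⟨mem_univ _, fun hE => not_isE_isN hin hE hN, hk⟩
        · exact ⟨h1, h2, klt_trans hk h3⟩
    rw [this, card_insert_of_notMem]
    rw [mem_filter]
    rintro ⟨_, _, h3⟩
    exact klt_irrefl _ h3

omit [Fintype P] in
/-- A run of east steps. -/
theorem run_E (hin : In1 ω) (hout : Out1 ω) {f : P → ℕ}
    (hf : ∀ s t : P, s < t → f s ≤ f t) (x : P) :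
    ∀ y, klt ω x y → (∀ z, klt ω x z → (klt ω z y ∨ z = y) → isE ω z) → f x ≤ f y := by
  intro y
  induction hn : ω y using Nat.strong_induction_on generalizing y with
  | _ n ih =>
    intro hxy hall
    obtain ⟨w, hw1, hw2⟩ := hall y hxy (Or.inr rfl)
    have h1 : f w ≤ f y := hf w y hw2.lt
    rcases klt_pred hin hout hw1 hxy with h2 | h2
    · subst h2; exact h1
    · have hwy := klt_arc hin hw1
      refine le_trans (ih (ω w) (hn ▸ hw1.2) w rfl h2 ?_) h1
      intro z hz1 hz2
      apply hall z hz1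
      rcases hz2 with hz2 | hz2
      · exact Or.inl (klt_trans hz2 hwy)
      · subst hz2; exact Or.inl hwy

omit [Fintype P] in
/-- A run of north steps. -/
theorem run_N (hin : In1 ω) (hout : Out1 ω) {f : P → ℕ}
    (hf : ∀ s t : P, s < t → ω t < ω s → f s < f t) (x : P) :
    ∀ y, klt ω x y → (∀ z, klt ω x z → (klt ω z y ∨ z = y) → isN ω z) → f y < f x := by
  intro y
  induction hn : ω y using Nat.strong_induction_on generalizing y with
  | _ n ih =>
    intro hxy hall
    obtain ⟨w, hw1, hw2⟩ := hall y hxy (Or.inr rfl)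
    have h1 : f y < f w := hf y w hw2.lt hw1.2
    rcases klt_pred hin hout hw1 hxy with h2 | h2
    · subst h2; exact h1
    · have hwy := klt_arc hin hw1
      refine lt_trans h1 (ih (ω w) (hn ▸ hw1.2) w rfl h2 ?_)
      intro z hz1 hz2
      apply hall z hz1
      rcases hz2 with hz2 | hz2
      · exact Or.inl (klt_trans hz2 hwy)
      · subst hz2; exact Or.inl hwy

/-- Intermediate columns in a run of east steps. -/
theorem run_E_col (hω : Function.Injective ω) (hin : In1 ω) (hout : Out1 ω) (x : P) :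
    ∀ y, klt ω x y → (∀ z, klt ω x z → (klt ω z y ∨ z = y) → isE ω z) →
      ∀ j, colx ω x ≤ j → j ≤ colx ω y → ∃ z, rowx ω z = rowx ω y ∧ colx ω z = j := by
  intro y
  induction hn : ω y using Nat.strong_induction_on generalizing y with
  | _ n ih =>
    intro hxy hall j hj1 hj2
    obtain ⟨w, hw1, hw2⟩ := hall y hxy (Or.inr rfl)
    obtain ⟨s1, s2⟩ := east_step hω hin hout hw1 hw2
    by_cases hj : j = colx ω y
    · exact ⟨y, rfl, hj.symm⟩
    · rcases klt_pred hin hout hw1 hxy with h2 | h2
      · subst h2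
        exact ⟨x, s1, by omega⟩
      · have hwy := klt_arc hin hw1
        obtain ⟨z, hz1, hz2⟩ := ih (ω w) (hn ▸ hw1.2) w rfl h2 (by
          intro z hz1 hz2
          apply hall z hz1
          rcases hz2 with hz2 | hz2
          · exact Or.inl (klt_trans hz2 hwy)
          · subst hz2; exact Or.inl hwy) j hj1 (by omega)
        exact ⟨z, hz1.trans s1, hz2⟩

/-- Intermediate rows in a run of north steps. -/
theorem run_N_row (hω : Function.Injective ω) (hin : In1 ω) (hout : Out1 ω) (x : P) :
    ∀ y, klt ω x y → (∀ z, klt ω x z → (klt ω z y ∨ z = y) → isN ω z) →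
      ∀ j, rowx ω y ≤ j → j ≤ rowx ω x → ∃ z, colx ω z = colx ω y ∧ rowx ω z = j := by
  intro y
  induction hn : ω y using Nat.strong_induction_on generalizing y with
  | _ n ih =>
    intro hxy hall j hj1 hj2
    obtain ⟨w, hw1, hw2⟩ := hall y hxy (Or.inr rfl)
    obtain ⟨s1, s2⟩ := north_step hω hin hout hw1 hw2
    by_cases hj : j = rowx ω y
    · exact ⟨y, rfl, hj.symm⟩
    · rcases klt_pred hin hout hw1 hxy with h2 | h2
      · subst h2
        exact ⟨x, s1, by omega⟩
      · have hwy := klt_arc hin hw1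
        obtain ⟨z, hz1, hz2⟩ := ih (ω w) (hn ▸ hw1.2) w rfl h2 (by
          intro z hz1 hz2
          apply hall z hz1
          rcases hz2 with hz2 | hz2
          · exact Or.inl (klt_trans hz2 hwy)
          · subst hz2; exact Or.inl hwy) j (by omega) hj2
        exact ⟨z, hz1.trans s1, hz2⟩

theorem coord_inj (hω : Function.Injective ω) (hin : In1 ω) {x y : P}
    (h1 : rowx ω x = rowx ω y) (h2 : colx ω x = colx ω y) : x = y := by
  rcases klt_total hω x y with h | h | h
  · rcases strict_step hin h with h3 | h3 <;> omega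
  · exact h
  · rcases strict_step hin h with h3 | h3 <;> omega

/-- The set of cells is convex. -/
theorem cells_convex (hω : Function.Injective ω) (hin : In1 ω) (hout : Out1 ω) {x y : P}
    {i j : ℕ} (h1 : rowx ω x ≤ i) (h2 : colx ω x ≤ j) (h3 : i ≤ rowx ω y) (h4 : j ≤ colx ω y) :
    ∃ z, rowx ω z = i ∧ colx ω z = j := by
  rcases klt_total hω x y with h | h | h
  · have hr : rowx ω x = rowx ω y := le_antisymm (h1.trans h3) (row_le h)
    obtain ⟨z, hz1, hz2⟩ := run_E_col hω hin hout x y h (row_eq_isE h hr) j h2 h4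
    exact ⟨z, by omega, hz2⟩
  · subst h
    exact ⟨x, by omega, by omega⟩
  · have hc : colx ω y = colx ω x := le_antisymm (col_le h) (h2.trans h4)
    obtain ⟨z, hz1, hz2⟩ := run_N_row hω hin hout y x h (col_eq_isN h hc) i h1 h3
    exact ⟨z, hz2, by omega⟩

omit [Fintype P] in
/-- Weak and strict inequalities from the covers. -/
theorem of_covers [Finite P] {f : P → ℕ} (hω : Function.Injective ω)
    (h1 : ∀ s t : P, s ⋖ t → ω s < ω t → f s ≤ f t)
    (h2 : ∀ s t : P, s ⋖ t → ω t < ω s → f s < f t) :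
    (∀ s t : P, s < t → f s ≤ f t) ∧ (∀ s t : P, s < t → ω t < ω s → f s < f t) := by
  have hc : ∀ s t : P, s ⋖ t → f s ≤ f t := by
    intro s t hst
    rcases lt_trichotomy (ω s) (ω t) with h | h | h
    · exact h1 s t hst h
    · exact absurd (hω h) hst.lt.ne
    · exact (h2 s t hst h).le
  have hw : ∀ t s : P, s < t → f s ≤ f t := by
    intro t
    intro s
    induction s using WellFoundedGT.induction with
    | _ s ih =>
      intro hst
      obtain ⟨z, hz1, hz2⟩ := exists_covBy_le_of_lt hst
      rcases eq_or_lt_of_le hz2 with h | h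
      · subst h; exact hc s z hz1
      · exact (hc s z hz1).trans (ih z hz1.lt h)
  refine ⟨fun s t => hw t s, ?_⟩
  intro s t
  induction s using WellFoundedGT.induction with
  | _ s ih =>
    intro hst hlt
    obtain ⟨z, hz1, hz2⟩ := exists_covBy_le_of_lt hst
    have hzt : f z ≤ f t := by
      rcases eq_or_lt_of_le hz2 with h | h
      · rw [h]
      · exact hw t z h
    rcases lt_trichotomy (ω s) (ω z) with h | h | h
    · have hne : z ≠ t := by
        rintro rfl
        omega
      exact lt_of_le_of_lt (hc s z hz1) (ih z hz1.lt (lt_of_le_of_ne hz2 hne) (by omega))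
    · exact absurd (hω h) hz1.lt.ne
    · exact lt_of_lt_of_le (h2 s z hz1 h) hzt

open Classical in
/-- **Ribbons**: the skew shape. -/
theorem exists_skew (hω : Function.Injective ω) (hin : In1 ω) (hout : Out1 ω) :
    ∃ (lam mu : YoungDiagram) (e : P ≃ ↥(lam.cells \ mu.cells)), mu ≤ lam ∧
        ∀ f : P → ℕ,
          ((∀ s t : P, s < t → f s ≤ f t) ∧
            (∀ s t : P, s < t → ω t < ω s → f s < f t)) ↔
          ((∀ s t : P, (e s).1.1 = (e t).1.1 → (e s).1.2 < (e t).1.2 → f s ≤ f t) ∧
            (∀ s t : P, (e s).1.2 = (e t).1.2 → (e s).1.1 < (e t).1.1 → f s < f t)) := by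
  let c : P → ℕ × ℕ := fun x => (rowx ω x, colx ω x)
  have hcinj : Function.Injective c := by
    intro x y h
    simp only [c, Prod.mk.injEq] at h
    exact coord_inj hω hin h.1 h.2
  let lamc : Finset (ℕ × ℕ) := univ.biUnion (fun x : P => Finset.Iic (c x))
  have memlam : ∀ p, p ∈ lamc ↔ ∃ x, p ≤ c x := by
    intro p
    simp only [lamc, mem_biUnion, mem_univ, true_and, Finset.mem_Iic]
  let lam : YoungDiagram := ⟨lamc, by
    intro a b hab ha
    rw [mem_coe, memlam] at ha ⊢
    obtain ⟨x, hx⟩ := ha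
    exact ⟨x, hab.trans hx⟩⟩
  let muc : Finset (ℕ × ℕ) := lamc \ univ.image c
  have memmu : ∀ p, p ∈ muc ↔ (∃ x, p ≤ c x) ∧ ∀ x, c x ≠ p := by
    intro p
    simp only [muc, mem_sdiff, memlam, mem_image, mem_univ, true_and, not_exists]
  let mu : YoungDiagram := ⟨muc, by
    intro a b hab ha
    rw [mem_coe, memmu] at ha ⊢
    obtain ⟨⟨x, hx⟩, hne⟩ := ha
    refine ⟨⟨x, hab.trans hx⟩, fun y hy => ?_⟩
    have h1 : c y ≤ a := hy ▸ hab
    obtain ⟨z, hz1, hz2⟩ := cells_convex hω hin hout (x := y) (y := x) (i := a.1) (j := a.2)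
      h1.1 h1.2 hx.1 hx.2
    exact hne z (Prod.ext hz1 hz2)⟩
  have hdiff : lam.cells \ mu.cells = univ.image c := by
    ext p
    rw [mem_sdiff]
    show (p ∈ lamc ∧ p ∉ muc) ↔ p ∈ univ.image c
    simp only [muc, mem_sdiff, not_and, not_not]
    constructor
    · rintro ⟨h1, h2⟩
      exact h2 h1
    · intro h
      obtain ⟨x, _, hx⟩ := mem_image.1 h
      exact ⟨(memlam p).2 ⟨x, hx ▸ le_refl _⟩, fun _ => h⟩
  have hmem : ∀ x, c x ∈ lam.cells \ mu.cells := by
    intro x
    rw [hdiff]
    exact mem_image.2 ⟨x, mem_univ _, rfl⟩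
  let e : P ≃ ↥(lam.cells \ mu.cells) := Equiv.ofBijective (fun x => ⟨c x, hmem x⟩) (by
    constructor
    · intro x y h
      simp only [Subtype.mk.injEq] at h
      exact hcinj h
    · rintro ⟨p, hp⟩
      have hp' := hp
      rw [hdiff] at hp'
      obtain ⟨x, _, hx⟩ := mem_image.1 hp'
      exact ⟨x, by simp only [hx]⟩)
  refine ⟨lam, mu, e, ?_, ?_⟩
  · intro p hp
    have : p ∈ muc := hp
    exact (mem_sdiff.1 this).1
  intro f
  have he1 : ∀ x, (e x).1.1 = rowx ω x := fun x => rfl
  have he2 : ∀ x, (e x).1.2 = colx ω x := fun x => rfl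
  simp only [he1, he2]
  constructor
  · rintro ⟨h1, h2⟩
    constructor
    · intro s t hr hc
      have hk : klt ω s t := by
        rcases klt_total hω s t with h | h | h
        · exact h
        · subst h; omega
        · have := col_le h; omega
      exact run_E hin hout h1 s t hk (row_eq_isE hk hr)
    · intro s t hc hr
      have hk : klt ω t s := by
        rcases klt_total hω s t with h | h | h
        · have := row_le h; omega
        · subst h; omega
        · exact h
      exact run_N hin hout h2 t s hk (col_eq_isN hk hc.symm)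
  · rintro ⟨h1, h2⟩
    apply of_covers hω
    · intro s t hst hlt
      obtain ⟨s1, s2⟩ := east_step hω hin hout (⟨Or.inl hst, hlt⟩ : Arc ω s t) hst
      exact h1 s t s1 (by omega)
    · intro s t hst hlt
      obtain ⟨s1, s2⟩ := north_step hω hin hout (⟨Or.inr hst, hlt⟩ : Arc ω t s) hst
      exact h2 s t s1.symm (by omega)

end Pool.SP91
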