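import Pool.Agent.SP91.Degrees

/-!
# Acyclic Hasse diagrams
-/

set_option autoImplicit false

open Finset

namespace Pool.SP91

variable {P : Type*} [PartialOrder P] {ω : P → ℕ}

open Classical in
theorem frst_of_acyclic (hG : (SimpleGraph.hasse P).IsAcyclic) :
    Frst (P := P) ω := by
  intro Q hQ
  have hne : Nonempty ↥Q := ⟨⟨hQ.choose, hQ.choose_spec⟩⟩
  let G : SimpleGraph ↥Q := (SimpleGraph.hasse P).comap (fun x : ↥Q => (x : P))
  have hGa : G.IsAcyclic :=
    hG.of_comap (f := (⟨fun x : ↥Q => (x : P), Subtype.val_injective⟩ : ↥Q ↪ P))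
  have htop : (⊤ : SimpleGraph ↥Q).Connected := SimpleGraph.connected_top
  obtain ⟨T, hGT, _, hT⟩ := htop.exists_isTree_le_of_le_of_isAcyclic le_top hGa
  have hcard := hT.card_edgeFinset
  rw [Fintype.card_coe] at hcard
  -- injection of arcs in edges
  have hle : (ca ω Q Q).card ≤ T.edgeFinset.card := by
    let f : ↥(ca ω Q Q) → Sym2 ↥Q := fun p =>
      s(⟨p.1.1, (mem_ca.1 p.2).1⟩, ⟨p.1.2, (mem_ca.1 p.2).2.1⟩)
    have hf : Function.Injective f := by
      rintro ⟨⟨a, b⟩, hp⟩ ⟨⟨a', b'⟩, hp'⟩ h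
      have h1 := (mem_ca.1 hp).2.2
      have h2 := (mem_ca.1 hp').2.2
      simp only [f, Sym2.eq_iff, Subtype.mk.injEq] at h
      rcases h with ⟨h3, h4⟩ | ⟨h3, h4⟩
      · simp only [Subtype.mk.injEq, Prod.mk.injEq]
        exact ⟨h3, h4⟩
      · exfalso
        simp only at h1 h2
        subst h3
        subst h4
        exact h1.asymm h2
    have h1 : (ca ω Q Q).card = ((ca ω Q Q).attach.image f).card := by
      rw [card_image_of_injective _ hf, card_attach]
    rw [h1]
    apply card_le_card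
    intro e he
    obtain ⟨⟨⟨a, b⟩, hp⟩, _, rfl⟩ := mem_image.1 he
    rw [SimpleGraph.mem_edgeFinset, SimpleGraph.mem_edgeSet]
    apply hGT
    show (SimpleGraph.hasse P).Adj a b
    rw [SimpleGraph.hasse_adj]
    exact (mem_ca.1 hp).2.2.1
  unfold kk
  omega

end Pool.SP91
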