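import Pool.Agent.SP91.PsiForest

/-!
# Brackets on forests: support
-/

set_option autoImplicit false

open Finset

namespace Pool.SP91

variable {P : Type*} [PartialOrder P] {ω : P → ℕ}

open Classical in
/-- If there is no arc between `A` and `Q \ A` then `A` is a lower subset. -/
theorem low_of_ca_empty [Finite P] (hω : Function.Injective ω) {Q A : Finset P} (hQ : Cvx Q)
    (hA : A ⊆ Q) (h : (ca ω A (Q \ A)).card + (ca ω (Q \ A) A).card = 0) : A ∈ lows Q := by
  by_contra hcon
  obtain ⟨s, hs, hsA, t, ht, hst⟩ := exists_cross hQ hA hcon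
  have hsR : s ∈ Q \ A := mem_sdiff.2 ⟨hs, hsA⟩
  rcases lt_trichotomy (ω s) (ω t) with h1 | h1 | h1
  · have : (s, t) ∈ ca ω (Q \ A) A := mem_ca.2 ⟨hsR, ht, Or.inl hst, h1⟩
    have := card_pos.2 ⟨_, this⟩
    omega
  · exact absurd (hω h1) hst.lt.ne
  · have : (t, s) ∈ ca ω A (Q \ A) := mem_ca.2 ⟨ht, hsR, Or.inr hst, h1⟩
    have := card_pos.2 ⟨_, this⟩
    omega

open Classical in
theorem low_compl_of_ca_empty [Finite P] (hω : Function.Injective ω) {Q A : Finset P} (hQ : Cvx Q)
    (hA : A ⊆ Q) (h : (ca ω A (Q \ A)).card + (ca ω (Q \ A) A).card = 0) : Q \ A ∈ lows Q := by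
  apply low_of_ca_empty hω hQ sdiff_subset
  rw [Finset.sdiff_sdiff_eq_self hA]
  omega

open Classical in
theorem kk_split {Q A : Finset P} (hA : A ⊆ Q) :
    kk ω Q = kk ω A + kk ω (Q \ A) - ((ca ω A (Q \ A)).card + (ca ω (Q \ A) A).card : ℕ) := by
  have := kk_union (ω := ω) (disjoint_sdiff (s := A) (t := Q))
  rwa [union_sdiff_of_subset hA] at this

open Classical in
theorem sg_split {Q A : Finset P} (hA : A ⊆ Q) :
    sg ω Q = sg ω A * sg ω (Q \ A)
      * (-1) ^ ((cs ω A (Q \ A)).card + (cs ω (Q \ A) A).card) := by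
  have := sg_union (ω := ω) (disjoint_sdiff (s := A) (t := Q))
  rwa [union_sdiff_of_subset hA] at this

open Classical in
theorem csrc_split_card {Q A : Finset P} (hA : A ⊆ Q) :
    (csrc ω Q).card ≤ (csrc ω A).card + (csrc ω (Q \ A)).card := by
  have := csrc_union_card (ω := ω) (A := A) (B := Q \ A)
  rwa [union_sdiff_of_subset hA] at this

open Classical in
theorem Psi_ne_zero [Finite P] (hω : Function.Injective ω) (hF : Frst (P := P) ω) {Q : Finset P}
    (hQ : Cvx Q) {n : ℕ} (hn : 1 ≤ n) (h : Psi ω n Q ≠ 0) :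
    Q.card = n ∧ (csrc ω Q).card = 1 ∧ kk ω Q = 1 ∧ Psi ω n Q = sg ω Q := by
  rw [Psi_forest hω hF hQ n hn] at h ⊢
  split_ifs at h ⊢ with h1
  · refine ⟨h1.1, h1.2, ?_, rfl⟩
    have h2 := kk_le_csrc (ω := ω) Q
    rw [h1.2] at h2
    have h3 := hF Q (by rw [← card_pos]; omega)
    push_cast at h2
    omega
  · exact absurd rfl h

open Classical in
/-- Support of brackets. -/
theorem BB_support [Finite P] (hω : Function.Injective ω) (hF : Frst (P := P) ω) (l : List ℕ) :
    (∀ i ∈ l, 1 ≤ i) → ∀ Q : Finset P, Cvx Q → BB ω l Q ≠ 0 →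
      Q.card = l.sum ∧ kk ω Q = 1 ∧ (csrc ω Q).card ≤ l.length := by
  induction l with
  | nil =>
    intro _ Q _ h
    exact absurd rfl h
  | cons n l ih =>
    intro hl Q hQ h
    cases l with
    | nil =>
      have hn : 1 ≤ n := hl n List.mem_cons_self
      obtain ⟨h1, h2, h3, _⟩ := Psi_ne_zero hω hF hQ hn h
      refine ⟨?_, h3, ?_⟩
      · simpa using h1
      · simp [h2]
    | cons m l =>
      have hn : 1 ≤ n := hl n List.mem_cons_self
      have hl' : ∀ i ∈ m :: l, 1 ≤ i := fun i hi => hl i (List.mem_cons_of_mem _ hi)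
      have ih' := ih hl'
      set Y : CA P := BB ω (m :: l) with hY
      have hB : BB ω (n :: m :: l) Q = (∑ I ∈ lows Q, Psi ω n I * Y (Q \ I))
          - ∑ I ∈ lows Q, Y I * Psi ω n (Q \ I) := by
        show (Psi ω n * Y - Y * Psi ω n) Q = _
        rw [sub_apply, mul_apply, mul_apply]
      -- a nonzero term
      have key : ∀ A ⊆ Q, Cvx A → Cvx (Q \ A) → Psi ω n A ≠ 0 → Y (Q \ A) ≠ 0 →
          Q.card = (n :: m :: l).sum ∧ (csrc ω Q).card ≤ (n :: m :: l).length
          ∧ kk ω A = 1 ∧ kk ω (Q \ A) = 1 := by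
        intro A hA hcA hcR h1 h2
        obtain ⟨a1, a2, a3, _⟩ := Psi_ne_zero hω hF hcA hn h1
        obtain ⟨b1, b2, b3⟩ := ih' (Q \ A) hcR h2
        have hc := card_sdiff_add_card_eq_card hA
        have hs := csrc_split_card (ω := ω) hA
        refine ⟨?_, ?_, a3, b2⟩
        · rw [List.sum_cons, ← b1]; omega
        · rw [List.length_cons]; omega
      by_cases hk : kk ω Q = 1
      · -- some term is nonzero
        have hex : (∃ I ∈ lows Q, Psi ω n I * Y (Q \ I) ≠ 0)
            ∨ (∃ I ∈ lows Q, Y I * Psi ω n (Q \ I) ≠ 0) := by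
          by_contra hcon
          push Not at hcon
          apply h
          rw [hB, Finset.sum_eq_zero hcon.1, Finset.sum_eq_zero hcon.2, sub_zero]
        rcases hex with ⟨I, hI, hne⟩ | ⟨I, hI, hne⟩
        · have hI' := mem_lows.1 hI
          have := key I hI'.1 (hQ.low hI) (hQ.low_compl hI) (left_ne_zero_of_mul hne)
            (right_ne_zero_of_mul hne)
          exact ⟨this.1, hk, this.2.1⟩
        · have hI' := mem_lows.1 hI
          have := key (Q \ I) sdiff_subset (hQ.low_compl hI)
            (by rw [Finset.sdiff_sdiff_eq_self hI'.1]; exact hQ.low hI) (right_ne_zero_of_mul hne)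
            (by rw [Finset.sdiff_sdiff_eq_self hI'.1]; exact left_ne_zero_of_mul hne)
          exact ⟨this.1, hk, this.2.1⟩
      · -- disconnected: the value is zero
        exfalso
        apply h
        rw [hB, sub_eq_zero]
        set T := Q.powerset.filter
          (fun A => (ca ω A (Q \ A)).card + (ca ω (Q \ A) A).card = 0) with hT
        have hne : ∀ A ⊆ Q, Cvx A → Cvx (Q \ A) → Psi ω n A ≠ 0 → Y (Q \ A) ≠ 0 → A ∈ T := by
          intro A hA hcA hcR h1 h2
          obtain ⟨_, _, h3, h4⟩ := key A hA hcA hcR h1 h2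
          have h5 := kk_split (ω := ω) hA
          rw [h3, h4] at h5
          have h6 : 1 ≤ kk ω Q := by
            apply hF
            have h7 := Psi_ne_zero hω hF hcA hn h1
            have : 0 < A.card := by omega
            obtain ⟨x, hx⟩ := card_pos.1 this
            exact ⟨x, hA hx⟩
          rw [hT, mem_filter, mem_powerset]
          refine ⟨hA, ?_⟩
          by_contra hcc
          apply hk
          have h8 : (1 : ℤ) ≤ ((ca ω A (Q \ A)).card + (ca ω (Q \ A) A).card : ℕ) := by
            exact_mod_cast Nat.one_le_iff_ne_zero.2 hcc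
          omega
        have e1 : ∑ I ∈ lows Q, Psi ω n I * Y (Q \ I) = ∑ I ∈ T, Psi ω n I * Y (Q \ I) := by
          symm
          apply Finset.sum_subset
          · intro A hA
            rw [hT, mem_filter, mem_powerset] at hA
            exact low_of_ca_empty hω hQ hA.1 hA.2
          · intro I hI hIT
            by_contra hcc
            exact hIT (hne I (mem_lows.1 hI).1 (hQ.low hI) (hQ.low_compl hI)
              (left_ne_zero_of_mul hcc) (right_ne_zero_of_mul hcc))
        have e2 : ∑ I ∈ lows Q, Y I * Psi ω n (Q \ I) = ∑ I ∈ T, Y I * Psi ω n (Q \ I) := by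
          symm
          apply Finset.sum_subset
          · intro A hA
            rw [hT, mem_filter, mem_powerset] at hA
            exact low_of_ca_empty hω hQ hA.1 hA.2
          · intro I hI hIT
            by_contra hcc
            have hI' := mem_lows.1 hI
            have := hne (Q \ I) sdiff_subset (hQ.low_compl hI)
              (by rw [Finset.sdiff_sdiff_eq_self hI'.1]; exact hQ.low hI) (right_ne_zero_of_mul hcc)
              (by rw [Finset.sdiff_sdiff_eq_self hI'.1]; exact left_ne_zero_of_mul hcc)
            rw [hT, mem_filter, Finset.sdiff_sdiff_eq_self hI'.1] at this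
            apply hIT
            rw [hT, mem_filter, mem_powerset]
            exact ⟨hI'.1, by omega⟩
        rw [e1, e2]
        refine Finset.sum_nbij' (fun A => Q \ A) (fun A => Q \ A) ?_ ?_ ?_ ?_ ?_
        · intro A hA
          rw [hT, mem_filter, mem_powerset] at hA ⊢
          refine ⟨sdiff_subset, ?_⟩
          rw [Finset.sdiff_sdiff_eq_self hA.1]
          omega
        · intro A hA
          rw [hT, mem_filter, mem_powerset] at hA ⊢
          refine ⟨sdiff_subset, ?_⟩
          rw [Finset.sdiff_sdiff_eq_self hA.1]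
          omega
        · intro A hA
          rw [hT, mem_filter, mem_powerset] at hA
          exact Finset.sdiff_sdiff_eq_self hA.1
        · intro A hA
          rw [hT, mem_filter, mem_powerset] at hA
          exact Finset.sdiff_sdiff_eq_self hA.1
        · intro A hA
          rw [hT, mem_filter, mem_powerset] at hA
          simp only [Finset.sdiff_sdiff_eq_self hA.1]
          ring

end Pool.SP91
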