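import Mathlib

/-!
# The convolution ring of functions on the subsets of a finite poset

For a finite poset `P`, a function `X` on the finite subsets of `P` and a function `Y`, the
convolution is `(X * Y) Q = ∑ X I * Y (Q \ I)`, the sum over the lower subsets `I` of `Q`.
-/

set_option autoImplicit false

open Finset

namespace Pool.SP91

variable {P : Type*} [PartialOrder P]

/-- `I` is a lower subset of `Q`. -/
def IsLow (I Q : Finset P) : Prop := I ⊆ Q ∧ ∀ t ∈ I, ∀ s ∈ Q, s < t → s ∈ I

open Classical in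
/-- The lower subsets of `Q`. -/
noncomputable def lows (Q : Finset P) : Finset (Finset P) := Q.powerset.filter (fun I => IsLow I Q)

theorem mem_lows {I Q : Finset P} : I ∈ lows Q ↔ IsLow I Q := by
  classical
  unfold lows
  simp only [mem_filter, mem_powerset]
  exact ⟨fun h => h.2, fun h => ⟨h.1, h⟩⟩

theorem empty_mem_lows (Q : Finset P) : ∅ ∈ lows Q := by
  rw [mem_lows]; exact ⟨empty_subset _, by simp⟩

theorem self_mem_lows (Q : Finset P) : Q ∈ lows Q := by
  rw [mem_lows]; exact ⟨Subset.refl _, fun _ _ s hs _ => hs⟩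

/-- Functions on finite subsets, with the convolution product. -/
def CA (P : Type*) [PartialOrder P] := Finset P → ℤ

noncomputable instance : AddCommGroup (CA P) := inferInstanceAs (AddCommGroup (Finset P → ℤ))

open Classical in
/-- The convolution. -/
noncomputable def conv (X Y : CA P) : CA P := fun Q => ∑ I ∈ lows Q, X I * Y (Q \ I)

open Classical in
/-- The unit. -/
noncomputable def unit : CA P := fun Q => if Q = ∅ then 1 else 0

theorem conv_unit (X : CA P) : conv X unit = X := by
  classical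
  funext Q
  unfold conv unit
  rw [Finset.sum_eq_single Q]
  · simp
  · intro I hI hne
    rw [mem_lows] at hI
    have : Q \ I ≠ ∅ := by
      intro h
      rw [sdiff_eq_empty_iff_subset] at h
      exact hne (Subset.antisymm hI.1 h)
    simp [this]
  · intro h; exact absurd (self_mem_lows Q) h

theorem unit_conv (X : CA P) : conv unit X = X := by
  classical
  funext Q
  unfold conv unit
  rw [Finset.sum_eq_single ∅]
  · simp
  · intro I hI hne
    simp [hne]
  · intro h; exact absurd (empty_mem_lows Q) h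

theorem conv_assoc (X Y Z : CA P) : conv (conv X Y) Z = conv X (conv Y Z) := by
  classical
  funext Q
  unfold conv
  simp only [Finset.sum_mul, Finset.mul_sum]
  rw [Finset.sum_sigma', Finset.sum_sigma']
  refine Finset.sum_nbij' (fun p => ⟨p.2, p.1 \ p.2⟩) (fun p => ⟨p.1 ∪ p.2, p.1⟩) ?_ ?_ ?_ ?_ ?_
  · rintro ⟨J, I⟩ h
    simp only [mem_sigma, mem_lows] at h ⊢
    obtain ⟨⟨hJ, hJ'⟩, ⟨hI, hI'⟩⟩ := h
    refine ⟨⟨hI.trans hJ, ?_⟩, ⟨sdiff_subset_sdiff hJ (Subset.refl _), ?_⟩⟩
    · intro t ht s hs hst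
      exact hI' t ht s (hJ' t (hI ht) s hs hst) hst
    · intro t ht s hs hst
      rw [mem_sdiff] at ht hs ⊢
      exact ⟨hJ' t ht.1 s hs.1 hst, hs.2⟩
  · rintro ⟨I, K⟩ h
    simp only [mem_sigma, mem_lows] at h ⊢
    obtain ⟨⟨hI, hI'⟩, ⟨hK, hK'⟩⟩ := h
    refine ⟨⟨union_subset hI (hK.trans sdiff_subset), ?_⟩, ⟨subset_union_left, ?_⟩⟩
    · intro t ht s hs hst
      rw [mem_union] at ht ⊢
      by_cases hsI : s ∈ I
      · exact Or.inl hsI
      · rcases ht with ht | ht
        · exact Or.inl (hI' t ht s hs hst)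
        · exact Or.inr (hK' t ht s (mem_sdiff.2 ⟨hs, hsI⟩) hst)
    · intro t ht s hs hst
      rw [mem_union] at hs
      rcases hs with hs | hs
      · exact hs
      · exact hI' t ht s (sdiff_subset (hK hs)) hst
  · rintro ⟨J, I⟩ h
    simp only [mem_sigma, mem_lows] at h
    obtain ⟨⟨hJ, hJ'⟩, ⟨hI, hI'⟩⟩ := h
    simp only [Sigma.mk.injEq, heq_eq_eq, and_true]
    exact union_sdiff_of_subset hI
  · rintro ⟨I, K⟩ h
    simp only [mem_sigma, mem_lows] at h
    obtain ⟨⟨hI, hI'⟩, ⟨hK, hK'⟩⟩ := h
    simp only [Sigma.mk.injEq, heq_eq_eq, true_and]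
    have : Disjoint I K := by
      rw [disjoint_left]
      intro a ha hb
      exact (mem_sdiff.1 (hK hb)).2 ha
    exact union_sdiff_cancel_left this
  · rintro ⟨J, I⟩ h
    simp only [mem_sigma, mem_lows] at h
    obtain ⟨⟨hJ, hJ'⟩, ⟨hI, hI'⟩⟩ := h
    have : (Q \ I) \ (J \ I) = Q \ J := by
      ext a
      simp only [mem_sdiff]
      constructor
      · rintro ⟨⟨h1, h2⟩, h3⟩
        exact ⟨h1, fun h => h3 ⟨h, h2⟩⟩
      · rintro ⟨h1, h2⟩
        exact ⟨⟨h1, fun h => h2 (hI h)⟩, fun h => h2 h.1⟩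
    simp only [this]
    ring

theorem conv_add (X Y Z : CA P) : conv X (Y + Z) = conv X Y + conv X Z := by
  classical
  funext Q
  show ∑ I ∈ lows Q, X I * (Y (Q \ I) + Z (Q \ I))
    = (∑ I ∈ lows Q, X I * Y (Q \ I)) + ∑ I ∈ lows Q, X I * Z (Q \ I)
  rw [← Finset.sum_add_distrib]
  exact Finset.sum_congr rfl (fun I _ => by ring)

theorem add_conv (X Y Z : CA P) : conv (X + Y) Z = conv X Z + conv Y Z := by
  classical
  funext Q
  show ∑ I ∈ lows Q, (X I + Y I) * Z (Q \ I)
    = (∑ I ∈ lows Q, X I * Z (Q \ I)) + ∑ I ∈ lows Q, Y I * Z (Q \ I)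
  rw [← Finset.sum_add_distrib]
  exact Finset.sum_congr rfl (fun I _ => by ring)

theorem conv_zero (X : CA P) : conv X 0 = 0 := by
  classical
  funext Q
  show ∑ I ∈ lows Q, X I * 0 = 0
  simp

theorem zero_conv (X : CA P) : conv 0 X = 0 := by
  classical
  funext Q
  show ∑ I ∈ lows Q, 0 * X (Q \ I) = 0
  simp

noncomputable instance : Ring (CA P) :=
  { (inferInstance : AddCommGroup (CA P)) with
    mul := conv
    one := unit
    mul_assoc := conv_assoc
    one_mul := unit_conv
    mul_one := conv_unit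
    left_distrib := conv_add
    right_distrib := add_conv
    mul_zero := conv_zero
    zero_mul := zero_conv }

open Classical in
theorem mul_apply (X Y : CA P) (Q : Finset P) :
    (X * Y) Q = ∑ I ∈ lows Q, X I * Y (Q \ I) := rfl

open Classical in
theorem one_apply (Q : Finset P) : (1 : CA P) Q = if Q = ∅ then 1 else 0 := rfl

theorem add_apply (X Y : CA P) (Q : Finset P) : (X + Y) Q = X Q + Y Q := rfl

theorem neg_apply (X : CA P) (Q : Finset P) : (-X) Q = -X Q := rfl

theorem sub_apply (X Y : CA P) (Q : Finset P) : (X - Y) Q = X Q - Y Q := rfl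

theorem zero_apply (Q : Finset P) : (0 : CA P) Q = 0 := rfl

theorem sum_apply {ι : Type*} (s : Finset ι) (f : ι → CA P) (Q : Finset P) :
    (∑ i ∈ s, f i) Q = ∑ i ∈ s, f i Q := by
  classical
  induction s using Finset.induction_on with
  | empty => simp [zero_apply]
  | insert a s ha ih => rw [Finset.sum_insert ha, Finset.sum_insert ha, add_apply, ih]

theorem zsmul_apply (k : ℤ) (X : CA P) (Q : Finset P) : (k • X) Q = k * X Q := by
  have : (k • X) Q = k • X Q := by
    induction k using Int.induction_on with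
    | zero => simp [zero_apply]
    | succ i ih => rw [add_smul, one_smul, add_apply, ih]; simp [add_mul]
    | pred i ih => rw [sub_smul, one_smul, sub_apply, ih]; simp [sub_mul]
  rw [this, smul_eq_mul]

end Pool.SP91
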