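import Pool.Agent.SP91.Grove

/-!
# Symmetric forests have in-degrees and out-degrees at most one
-/

set_option autoImplicit false

open Finset

namespace Pool.SP91

variable {P : Type*} [PartialOrder P] {ω : P → ℕ}

open Classical in
/-- **Symmetric forests.** -/
theorem forest_degrees [Finite P] (hω : Function.Injective ω) (hF : Frst (P := P) ω)
    {Q : Finset P} (hQ : Cvx Q) (hsym : SymAt ω Q) :
    (∀ x ∈ Q, ∀ y ∈ Q, ∀ y' ∈ Q, Arc ω y x → Arc ω y' x → y = y') ∧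
    (∀ x ∈ Q, ∀ y ∈ Q, ∀ y' ∈ Q, Arc ω x y → Arc ω x y' → y = y') := by
  have hk0 : 0 ≤ kk ω Q := by
    rcases Q.eq_empty_or_nonempty with h | h
    · subst h
      rw [kk_empty]
    · have := hF Q h
      linarith
  obtain ⟨r, hr⟩ := Int.eq_ofNat_of_zero_le hk0
  obtain ⟨W, hW1, hW2, hW3, hW4, hW5, Q', hQ', hpos⟩ := grove_claim hω hF r {Q}
    (csrc ω Q).card Q.card (singleton_nonempty Q) (by
      intro R hR
      rw [mem_singleton] at hR
      subst hR
      exact ⟨hQ, hr, rfl, rfl⟩)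
  rw [mem_singleton] at hQ'
  subst hQ'
  have hall : ∀ l ∈ W, l.length = 1 := by
    intro l hl
    by_contra hne
    have h1 := hW3 l hl
    have h2 := hsym.ZZ_zero hω W ⟨l, hl, by omega⟩
    rw [h2, mul_zero] at hpos
    exact lt_irrefl _ hpos
  have hs : (csrc ω Q').card = r := by
    rw [← hW4, ← hW1]
    clear hW1 hW2 hW3 hW4 hW5 hpos
    induction W with
    | nil => rfl
    | cons l W ih =>
      rw [List.map_cons, List.sum_cons, ih (fun l' hl' => hall l' (List.mem_cons_of_mem _ hl')),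
        hall l List.mem_cons_self, List.length_cons]
      omega
  refine ⟨indeg_le_of_kk (by rw [hs, hr]), ?_⟩
  intro x hx y hy y' hy' a1 a2
  by_contra hne
  obtain ⟨T, hT, hxT⟩ := exists_comp hF hx
  have hmemT : ∀ z ∈ Q', Arc ω x z → z ∈ T := by
    intro z hz hxz
    by_contra hzT
    have : (x, z) ∈ ca ω T (Q' \ T) := mem_ca.2 ⟨hxT, mem_sdiff.2 ⟨hz, hzT⟩, hxz⟩
    have := card_pos.2 ⟨_, this⟩
    have := hT.2.2
    omega
  have hyT := hmemT y hy a1
  have hy'T := hmemT y' hy' a2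
  have hcT : 3 ≤ T.card := by
    have hsub : ({x, y, y'} : Finset P) ⊆ T := by
      intro z hz
      simp only [mem_insert, mem_singleton] at hz
      rcases hz with rfl | rfl | rfl
      · exact hxT
      · exact hyT
      · exact hy'T
    have := card_le_card hsub
    rwa [card_eq_three.2 ⟨x, y, y', a1.ne, a2.ne, hne, rfl⟩] at this
  obtain ⟨r', hr'⟩ : ∃ r', r = r' + 1 := by
    have h1 := hF Q' ⟨x, hx⟩
    rw [hr] at h1
    exact ⟨r - 1, by omega⟩
  -- all components have one source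
  have hcomp1 : ∀ T', IsComp ω Q' T' → (csrc ω T').card = 1 ∧ (csrc ω (Q' \ T')).card = r' := by
    intro T' hT'
    have h1 := hT'.csrc_card
    have h2 := kk_le_csrc (ω := ω) T'
    have h3 := kk_le_csrc (ω := ω) (Q' \ T')
    rw [hT'.2.1] at h2
    rw [hT'.kk_compl, hr, hr'] at h3
    push_cast at h3
    rw [hs] at h1
    constructor
    · omega
    · omega
  set n₁ := T.card with hn₁
  set C : Finset (Finset P) := Q'.powerset.filter (fun T' => IsComp ω Q' T' ∧ T'.card = n₁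
    ∧ sg ω T' * BB ω [1, n₁ - 1] T' < 0) with hC
  have memC : ∀ T', T' ∈ C ↔ IsComp ω Q' T' ∧ T'.card = n₁
      ∧ sg ω T' * BB ω [1, n₁ - 1] T' < 0 := by
    intro T'
    rw [hC, mem_filter, mem_powerset]
    exact ⟨fun h => h.2, fun h => ⟨h.1.1, h⟩⟩
  have hTC : T ∈ C := by
    rw [memC]
    refine ⟨hT, rfl, ?_⟩
    have h1 := star_claim hω hF hcT (hQ.low (hT.low hω hQ)) hT.2.1 (hcomp1 T hT).1 rfl
    have h2 := two_sinks hT.2.1 hxT hyT hy'T a1 a2 hne
    have h3 : (2 : ℤ) ≤ (csnk ω T).card := by exact_mod_cast h2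
    linarith
  obtain ⟨W', hX1, hX2, hX3, hX4, hX5, R, hR, hRpos⟩ := grove_claim hω hF r'
    (C.image (fun T' => Q' \ T')) r' (Q'.card - n₁) ⟨_, mem_image.2 ⟨T, hTC, rfl⟩⟩ (by
      intro R hR
      obtain ⟨T', hT', rfl⟩ := mem_image.1 hR
      rw [memC] at hT'
      refine ⟨hQ.low_compl (hT'.1.low hω hQ), ?_, (hcomp1 T' hT'.1).2, ?_⟩
      · rw [hT'.1.kk_compl, hr, hr']
        push_cast
        ring
      · have := card_sdiff_add_card_eq_card hT'.1.1
        omega)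
  have hzero : sg ω Q' * ZZ ω ([1, n₁ - 1] :: W') Q' = 0 := by
    rw [hsym.ZZ_zero hω ([1, n₁ - 1] :: W') ⟨_, List.mem_cons_self, by simp⟩, mul_zero]
  rw [ZZ_cons, mul_apply, Finset.mul_sum] at hzero
  have hl1 : ∀ i ∈ [1, n₁ - 1], 1 ≤ i := by
    intro i hi
    simp only [List.mem_cons, List.not_mem_nil, or_false] at hi
    rcases hi with rfl | rfl
    · exact le_rfl
    · omega
  have hnp : ∀ I ∈ lows Q', sg ω Q' * (BB ω [1, n₁ - 1] I * ZZ ω W' (Q' \ I)) ≤ 0 := by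
    intro I hI
    by_cases hz : BB ω [1, n₁ - 1] I * ZZ ω W' (Q' \ I) = 0
    · rw [hz, mul_zero]
    · have z1 := left_ne_zero_of_mul hz
      have z2 := right_ne_zero_of_mul hz
      have hcomp : IsComp ω Q' I := comp_of_term hω hF hQ (by rw [hr, hr']; push_cast; ring) hI
        hl1 hX2 hX1 z1 z2
      have hcI := hQ.low hI
      obtain ⟨b1, b2, b3⟩ := BB_support hω hF _ hl1 I hcI z1
      have hcard : I.card = n₁ := by
        rw [b1]
        simp only [List.sum_cons, List.sum_nil]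
        omega
      have h1 := star_claim hω hF hcT hcI b2 (hcomp1 I hcomp).1 hcard
      have h2 := sink_nonempty (ω := ω) (Q := I) (by rw [← card_pos]; omega)
      have h3 : (1 : ℤ) ≤ (csnk ω I).card := by exact_mod_cast h2
      have h4 : sg ω I * BB ω [1, n₁ - 1] I ≠ 0 := mul_ne_zero (sg_ne_zero I) z1
      have h5 : sg ω I * BB ω [1, n₁ - 1] I < 0 := lt_of_le_of_ne (by linarith) h4
      have hIC : I ∈ C := (memC I).2 ⟨hcomp, hcard, h5⟩
      have h6 : 0 ≤ sg ω (Q' \ I) * ZZ ω W' (Q' \ I) := hX5 _ (mem_image.2 ⟨I, hIC, rfl⟩)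
      rw [hcomp.sg_eq]
      have : sg ω I * sg ω (Q' \ I) * (BB ω [1, n₁ - 1] I * ZZ ω W' (Q' \ I))
          = (sg ω I * BB ω [1, n₁ - 1] I) * (sg ω (Q' \ I) * ZZ ω W' (Q' \ I)) := by ring
      rw [this]
      exact mul_nonpos_of_nonpos_of_nonneg h5.le h6
  obtain ⟨T', hT', hRe⟩ := mem_image.1 hR
  subst hRe
  have hT'' := (memC T').1 hT'
  have hneg : sg ω Q' * (BB ω [1, n₁ - 1] T' * ZZ ω W' (Q' \ T')) < 0 := by
    rw [hT''.1.sg_eq]
    have : sg ω T' * sg ω (Q' \ T') * (BB ω [1, n₁ - 1] T' * ZZ ω W' (Q' \ T'))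
        = (sg ω T' * BB ω [1, n₁ - 1] T') * (sg ω (Q' \ T') * ZZ ω W' (Q' \ T')) := by ring
    rw [this]
    exact mul_neg_of_neg_of_pos hT''.2.2 hRpos
  have hlt : ∑ I ∈ lows Q', sg ω Q' * (BB ω [1, n₁ - 1] I * ZZ ω W' (Q' \ I)) < 0 :=
    Finset.sum_neg' hnp ⟨T', hT''.1.low hω hQ, hneg⟩
  linarith

end Pool.SP91
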