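import Pool.Agent.SP91.Sym

/-!
# Counting arcs in forests
-/

set_option autoImplicit false

open Finset

namespace Pool.SP91

variable {P : Type*} [PartialOrder P] (ω : P → ℕ)

/-- Hasse edges, oriented by the labels. -/
def Arc (x y : P) : Prop := (x ⋖ y ∨ y ⋖ x) ∧ ω x < ω y

open Classical in
/-- The arcs from `A` to `B`. -/
noncomputable def ca (A B : Finset P) : Finset (P × P) := (A ×ˢ B).filter (fun p => Arc ω p.1 p.2)

open Classical in
/-- The number of elements minus the number of arcs. -/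
noncomputable def kk (Q : Finset P) : ℤ := (Q.card : ℤ) - (ca ω Q Q).card

open Classical in
/-- Cover sources. -/
noncomputable def csrc (Q : Finset P) : Finset P := Q.filter (fun x => ∀ y ∈ Q, ¬ Arc ω y x)

open Classical in
/-- The strict arcs. -/
noncomputable def cs (A B : Finset P) : Finset (P × P) := (ca ω A B).filter (fun p => p.2 ⋖ p.1)

open Classical in
/-- The sign. -/
noncomputable def sg (Q : Finset P) : ℤ := (-1) ^ (cs ω Q Q).card

/-- Forests. -/
def Frst : Prop := ∀ Q : Finset P, Q.Nonempty → 1 ≤ kk ω Q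

/-- Convex sets. -/
def Cvx (Q : Finset P) : Prop := ∀ x ∈ Q, ∀ z ∈ Q, ∀ y, x ≤ y → y ≤ z → y ∈ Q

variable {ω}

theorem mem_ca {A B : Finset P} {p : P × P} :
    p ∈ ca ω A B ↔ p.1 ∈ A ∧ p.2 ∈ B ∧ Arc ω p.1 p.2 := by
  classical
  unfold ca
  rw [mem_filter, mem_product, and_assoc]

theorem mem_cs {A B : Finset P} {p : P × P} :
    p ∈ cs ω A B ↔ p.1 ∈ A ∧ p.2 ∈ B ∧ Arc ω p.1 p.2 ∧ p.2 ⋖ p.1 := by
  classical
  unfold cs
  rw [mem_filter, mem_ca]
  tauto

theorem mem_csrc {Q : Finset P} {x : P} : x ∈ csrc ω Q ↔ x ∈ Q ∧ ∀ y ∈ Q, ¬ Arc ω y x := by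
  classical
  unfold csrc
  rw [mem_filter]

theorem Arc.asymm {x y : P} (h : Arc ω x y) : ¬ Arc ω y x := fun h' => by
  have := h.2
  have := h'.2
  omega

theorem Arc.ne {x y : P} (h : Arc ω x y) : x ≠ y := by
  rintro rfl
  have := h.2
  omega

open Classical in
theorem ca_union_left {A B C : Finset P} (h : Disjoint A B) :
    (ca ω (A ∪ B) C).card = (ca ω A C).card + (ca ω B C).card := by
  rw [← card_union_of_disjoint]
  · congr 1
    ext p
    rw [mem_union, mem_ca, mem_ca, mem_ca, mem_union]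
    tauto
  · rw [disjoint_left]
    intro p hp hp'
    rw [mem_ca] at hp hp'
    exact (disjoint_left.1 h) hp.1 hp'.1

open Classical in
theorem ca_union_right {A B C : Finset P} (h : Disjoint A B) :
    (ca ω C (A ∪ B)).card = (ca ω C A).card + (ca ω C B).card := by
  rw [← card_union_of_disjoint]
  · congr 1
    ext p
    rw [mem_union, mem_ca, mem_ca, mem_ca, mem_union]
    tauto
  · rw [disjoint_left]
    intro p hp hp'
    rw [mem_ca] at hp hp'
    exact (disjoint_left.1 h) hp.2.1 hp'.2.1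

open Classical in
theorem cs_union_left {A B C : Finset P} (h : Disjoint A B) :
    (cs ω (A ∪ B) C).card = (cs ω A C).card + (cs ω B C).card := by
  rw [← card_union_of_disjoint]
  · congr 1
    ext p
    rw [mem_union, mem_cs, mem_cs, mem_cs, mem_union]
    tauto
  · rw [disjoint_left]
    intro p hp hp'
    rw [mem_cs] at hp hp'
    exact (disjoint_left.1 h) hp.1 hp'.1

open Classical in
theorem cs_union_right {A B C : Finset P} (h : Disjoint A B) :
    (cs ω C (A ∪ B)).card = (cs ω C A).card + (cs ω C B).card := by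
  rw [← card_union_of_disjoint]
  · congr 1
    ext p
    rw [mem_union, mem_cs, mem_cs, mem_cs, mem_union]
    tauto
  · rw [disjoint_left]
    intro p hp hp'
    rw [mem_cs] at hp hp'
    exact (disjoint_left.1 h) hp.2.1 hp'.2.1

open Classical in
theorem kk_union {A B : Finset P} (h : Disjoint A B) :
    kk ω (A ∪ B) = kk ω A + kk ω B - ((ca ω A B).card + (ca ω B A).card : ℕ) := by
  unfold kk
  rw [ca_union_left h, ca_union_right h, ca_union_right h, card_union_of_disjoint h]
  push_cast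
  ring

open Classical in
theorem sg_union {A B : Finset P} (h : Disjoint A B) :
    sg ω (A ∪ B) = sg ω A * sg ω B * (-1) ^ ((cs ω A B).card + (cs ω B A).card) := by
  unfold sg
  rw [cs_union_left h, cs_union_right h, cs_union_right h]
  rw [← pow_add, ← pow_add]
  congr 1
  ring

theorem kk_empty : kk ω (∅ : Finset P) = 0 := by
  classical
  unfold kk ca
  simp

theorem kk_singleton (x : P) : kk ω ({x} : Finset P) = 1 := by
  classical
  unfold kk
  have : ca ω ({x} : Finset P) {x} = ∅ := by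
    rw [Finset.eq_empty_iff_forall_notMem]
    rintro ⟨a, b⟩ hp
    rw [mem_ca] at hp
    simp only [mem_singleton] at hp
    obtain ⟨rfl, rfl, h⟩ := hp
    exact h.ne rfl
  rw [this]
  simp

theorem csrc_subset (Q : Finset P) : csrc ω Q ⊆ Q := by
  classical
  unfold csrc
  exact filter_subset _ _

open Classical in
theorem csrc_union_subset {A B : Finset P} : csrc ω (A ∪ B) ⊆ csrc ω A ∪ csrc ω B := by
  intro x hx
  rw [mem_csrc, mem_union] at hx
  rw [mem_union, mem_csrc, mem_csrc]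
  rcases hx.1 with h | h
  · exact Or.inl ⟨h, fun y hy => hx.2 y (mem_union_left _ hy)⟩
  · exact Or.inr ⟨h, fun y hy => hx.2 y (mem_union_right _ hy)⟩

open Classical in
theorem csrc_union_card {A B : Finset P} :
    (csrc ω (A ∪ B)).card ≤ (csrc ω A).card + (csrc ω B).card :=
  (card_le_card csrc_union_subset).trans (card_union_le _ _)

open Classical in
/-- In-degree sums. -/
theorem ca_card_eq_sum (Q : Finset P) :
    (ca ω Q Q).card = ∑ x ∈ Q, (Q.filter (fun y => Arc ω y x)).card := by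
  have : ca ω Q Q = Q.biUnion (fun x => (Q.filter (fun y => Arc ω y x)).image (fun y => (y, x))) := by
    ext ⟨a, b⟩
    rw [mem_ca, mem_biUnion]
    constructor
    · rintro ⟨h1, h2, h3⟩
      exact ⟨b, h2, mem_image.2 ⟨a, mem_filter.2 ⟨h1, h3⟩, rfl⟩⟩
    · rintro ⟨x, hx, h⟩
      obtain ⟨y, hy, hyx⟩ := mem_image.1 h
      rw [mem_filter] at hy
      simp only [Prod.mk.injEq] at hyx
      obtain ⟨rfl, rfl⟩ := hyx
      exact ⟨hy.1, hx, hy.2⟩
  rw [this, card_biUnion]
  · refine Finset.sum_congr rfl (fun x _ => ?_)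
    rw [card_image_of_injective]
    intro a b hab
    simpa using hab
  · intro x _ x' _ hne
    rw [Function.onFun, disjoint_left]
    rintro ⟨a, b⟩ h1 h2
    obtain ⟨y, _, hy⟩ := mem_image.1 h1
    obtain ⟨y', _, hy'⟩ := mem_image.1 h2
    simp only [Prod.mk.injEq] at hy hy'
    exact hne (hy.2.trans hy'.2.symm)

open Classical in
/-- Out-degree sums. -/
theorem ca_card_eq_sum_out (Q : Finset P) :
    (ca ω Q Q).card = ∑ x ∈ Q, (Q.filter (fun y => Arc ω x y)).card := by
  have : ca ω Q Q = Q.biUnion (fun x => (Q.filter (fun y => Arc ω x y)).image (fun y => (x, y))) := by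
    ext ⟨a, b⟩
    rw [mem_ca, mem_biUnion]
    constructor
    · rintro ⟨h1, h2, h3⟩
      exact ⟨a, h1, mem_image.2 ⟨b, mem_filter.2 ⟨h2, h3⟩, rfl⟩⟩
    · rintro ⟨x, hx, h⟩
      obtain ⟨y, hy, hyx⟩ := mem_image.1 h
      rw [mem_filter] at hy
      simp only [Prod.mk.injEq] at hyx
      obtain ⟨rfl, rfl⟩ := hyx
      exact ⟨hx, hy.1, hy.2⟩
  rw [this, card_biUnion]
  · refine Finset.sum_congr rfl (fun x _ => ?_)
    rw [card_image_of_injective]
    intro a b hab
    simpa using hab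
  · intro x _ x' _ hne
    rw [Function.onFun, disjoint_left]
    rintro ⟨a, b⟩ h1 h2
    obtain ⟨y, _, hy⟩ := mem_image.1 h1
    obtain ⟨y', _, hy'⟩ := mem_image.1 h2
    simp only [Prod.mk.injEq] at hy hy'
    exact hne (hy.1.trans hy'.1.symm)

open Classical in
theorem indeg_pos {Q : Finset P} {x : P} (hx : x ∈ Q) (hs : x ∉ csrc ω Q) :
    1 ≤ (Q.filter (fun y => Arc ω y x)).card := by
  rw [Nat.one_le_iff_ne_zero, Ne, card_eq_zero]
  intro h
  apply hs
  rw [mem_csrc]
  refine ⟨hx, fun y hy hyx => ?_⟩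
  have : y ∈ Q.filter (fun y => Arc ω y x) := mem_filter.2 ⟨hy, hyx⟩
  rw [h] at this
  simp at this

open Classical in
/-- The number of non-sources plus the excess of in-degrees is the number of arcs. -/
theorem ca_card_split (Q : Finset P) :
    ((ca ω Q Q).card : ℤ) = (Q.card : ℤ) - (csrc ω Q).card
      + ∑ x ∈ Q \ csrc ω Q, (((Q.filter (fun y => Arc ω y x)).card : ℤ) - 1) := by
  rw [ca_card_eq_sum]
  push_cast
  rw [← Finset.sum_sdiff (csrc_subset (ω := ω) Q)]
  have h1 : ∑ x ∈ csrc ω Q, ((Q.filter (fun y => Arc ω y x)).card : ℤ) = 0 := by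
    apply Finset.sum_eq_zero
    intro x hx
    rw [mem_csrc] at hx
    rw [Nat.cast_eq_zero, card_eq_zero, Finset.filter_eq_empty_iff]
    exact fun y hy => hx.2 y hy
  rw [h1, add_zero, Finset.sum_sub_distrib, Finset.sum_const, nsmul_eq_mul, mul_one]
  have := card_sdiff_add_card_eq_card (csrc_subset (ω := ω) Q)
  have h2 : ((Q \ csrc ω Q).card : ℤ) + (csrc ω Q).card = Q.card := by exact_mod_cast this
  linarith

open Classical in
theorem kk_le_csrc (Q : Finset P) : kk ω Q ≤ (csrc ω Q).card := by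
  unfold kk
  rw [ca_card_split]
  have : 0 ≤ ∑ x ∈ Q \ csrc ω Q, (((Q.filter (fun y => Arc ω y x)).card : ℤ) - 1) := by
    apply Finset.sum_nonneg
    intro x hx
    rw [mem_sdiff] at hx
    have := indeg_pos hx.1 hx.2
    have h2 : (1 : ℤ) ≤ ((Q.filter (fun y => Arc ω y x)).card : ℤ) := by exact_mod_cast this
    linarith
  linarith

open Classical in
/-- If the number of sources equals `kk`, then all in-degrees are at most one. -/
theorem indeg_le_of_kk {Q : Finset P} (h : ((csrc ω Q).card : ℤ) ≤ kk ω Q) :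
    ∀ x ∈ Q, ∀ y ∈ Q, ∀ y' ∈ Q, Arc ω y x → Arc ω y' x → y = y' := by
  intro x hx y hy y' hy' h1 h2
  by_contra hne
  have hxs : x ∉ csrc ω Q := fun hs => (mem_csrc.1 hs).2 y hy h1
  have h3 : (2 : ℤ) ≤ (Q.filter (fun y => Arc ω y x)).card := by
    have : ({y, y'} : Finset P) ⊆ Q.filter (fun y => Arc ω y x) := by
      intro z hz
      simp only [mem_insert, mem_singleton] at hz
      rcases hz with rfl | rfl
      · exact mem_filter.2 ⟨hy, h1⟩
      · exact mem_filter.2 ⟨hy', h2⟩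
    have h4 := card_le_card this
    rw [card_pair hne] at h4
    exact_mod_cast h4
  unfold kk at h
  rw [ca_card_split] at h
  have h5 : 1 ≤ ∑ x ∈ Q \ csrc ω Q, (((Q.filter (fun y => Arc ω y x)).card : ℤ) - 1) := by
    have hmem : x ∈ Q \ csrc ω Q := mem_sdiff.2 ⟨hx, hxs⟩
    refine le_trans ?_ (Finset.single_le_sum (f := fun x =>
      (((Q.filter (fun y => Arc ω y x)).card : ℤ) - 1)) ?_ hmem)
    · linarith
    · intro z hz
      rw [mem_sdiff] at hz
      have := indeg_pos hz.1 hz.2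
      have h2 : (1 : ℤ) ≤ ((Q.filter (fun y => Arc ω y z)).card : ℤ) := by exact_mod_cast this
      linarith
  linarith

open Classical in
/-- If there are at least two more sources than `kk`... the converse: if all in-degrees are at
most one then the number of sources is at most `kk`. -/
theorem exists_indeg_two {Q : Finset P} (h : kk ω Q < (csrc ω Q).card) :
    ∃ x ∈ Q, ∃ y ∈ Q, ∃ y' ∈ Q, Arc ω y x ∧ Arc ω y' x ∧ y ≠ y' := by
  by_contra hcon
  push Not at hcon
  have : ∑ x ∈ Q \ csrc ω Q, (((Q.filter (fun y => Arc ω y x)).card : ℤ) - 1) ≤ 0 := by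
    apply Finset.sum_nonpos
    intro x hx
    rw [mem_sdiff] at hx
    have h1 : (Q.filter (fun y => Arc ω y x)).card ≤ 1 := by
      rw [card_le_one]
      intro a ha b hb
      rw [mem_filter] at ha hb
      exact hcon x hx.1 a ha.1 b hb.1 ha.2 hb.2
    have h2 : ((Q.filter (fun y => Arc ω y x)).card : ℤ) ≤ 1 := by exact_mod_cast h1
    linarith
  unfold kk at h
  rw [ca_card_split] at h
  linarith

/-- A non-lower subset of a convex set has a cover crossing. -/
theorem exists_cross [Finite P] {Q A : Finset P} (hQ : Cvx Q) (hA : A ⊆ Q) (h : A ∉ lows Q) :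
    ∃ s ∈ Q, s ∉ A ∧ ∃ t ∈ A, s ⋖ t := by
  classical
  rw [mem_lows] at h
  unfold IsLow at h
  push Not at h
  obtain ⟨t, ht, s, hs, hst, hsA⟩ := h hA
  have hne : (A.filter (fun x => s < x)).Nonempty := ⟨t, mem_filter.2 ⟨ht, hst⟩⟩
  obtain ⟨t', ht'⟩ := Finset.exists_minimal hne
  have ht'A := mem_filter.1 ht'.1
  obtain ⟨z, hz1, hz2⟩ := exists_le_covBy_of_lt ht'A.2
  refine ⟨z, hQ s hs t' (hA ht'A.1) z hz1 hz2.le, ?_, t', ht'A.1, hz2⟩
  intro hzA
  have hsz : s < z := lt_of_le_of_ne hz1 (fun h => hsA (h ▸ hzA))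
  have := ht'.2 (mem_filter.2 ⟨hzA, hsz⟩) hz2.le
  exact absurd hz2.lt (not_lt_of_ge this)

/-- Lower subsets of convex sets are convex. -/
theorem Cvx.low {Q A : Finset P} (hQ : Cvx Q) (hA : A ∈ lows Q) : Cvx A := by
  rw [mem_lows] at hA
  intro x hx z hz y hxy hyz
  have hy : y ∈ Q := hQ x (hA.1 hx) z (hA.1 hz) y hxy hyz
  rcases eq_or_lt_of_le hyz with h | h
  · rw [h]; exact hz
  · exact hA.2 z hz y hy h

open Classical in
theorem Cvx.low_compl {Q A : Finset P} (hQ : Cvx Q) (hA : A ∈ lows Q) : Cvx (Q \ A) := by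
  rw [mem_lows] at hA
  intro x hx z hz y hxy hyz
  rw [mem_sdiff] at hx hz ⊢
  have hy : y ∈ Q := hQ x hx.1 z hz.1 y hxy hyz
  refine ⟨hy, fun hyA => ?_⟩
  rcases eq_or_lt_of_le hxy with h | h
  · rw [← h] at hyA; exact hx.2 hyA
  · exact hx.2 (hA.2 y hyA x hx.1 h)

open Classical in
/-- The edge lemma: an arc of a connected set in a forest splits it in two connected sets. -/
theorem edge_split (hF : Frst (P := P) ω) {Q : Finset P} (hQ : kk ω Q = 1) {u v : P} (hu : u ∈ Q)
    (hv : v ∈ Q) (h : Arc ω u v ∨ Arc ω v u) :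
    ∃ A ⊆ Q, u ∈ A ∧ v ∉ A ∧ kk ω A = 1 ∧ kk ω (Q \ A) = 1
      ∧ (ca ω A (Q \ A)).card + (ca ω (Q \ A) A).card = 1 := by
  have huv : u ≠ v := by
    rcases h with h | h
    · exact h.ne
    · exact h.ne.symm
  have hne : (Q.powerset.filter (fun A => u ∈ A ∧ v ∉ A ∧ kk ω A = 1)).Nonempty := by
    refine ⟨{u}, ?_⟩
    rw [mem_filter, mem_powerset]
    refine ⟨singleton_subset_iff.2 hu, mem_singleton_self _, ?_, kk_singleton u⟩
    rw [mem_singleton]
    exact huv.symm
  obtain ⟨A, hA, hmax⟩ := Finset.exists_max_image _ Finset.card hne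
  rw [mem_filter, mem_powerset] at hA
  obtain ⟨hAQ, huA, hvA, hkA⟩ := hA
  have hno : ∀ x ∈ Q \ A, x ≠ v → (ca ω A {x}).card + (ca ω {x} A).card = 0 := by
    intro x hx hxv
    rw [mem_sdiff] at hx
    by_contra hpos
    have hd : Disjoint A {x} := disjoint_singleton_right.2 hx.2
    have h1 := kk_union (ω := ω) hd
    rw [hkA, kk_singleton] at h1
    have h2 := hF (A ∪ {x}) ⟨u, mem_union_left _ huA⟩
    have h3 : kk ω (A ∪ {x}) = 1 := by
      have : (1 : ℤ) ≤ ((ca ω A {x}).card + (ca ω {x} A).card : ℕ) := by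
        exact_mod_cast Nat.one_le_iff_ne_zero.2 hpos
      linarith
    have h4 : A ∪ {x} ∈ Q.powerset.filter (fun A => u ∈ A ∧ v ∉ A ∧ kk ω A = 1) := by
      rw [mem_filter, mem_powerset]
      refine ⟨union_subset hAQ (singleton_subset_iff.2 hx.1), mem_union_left _ huA, ?_, h3⟩
      rw [mem_union, mem_singleton]
      rintro (h | h)
      · exact hvA h
      · exact hxv h.symm
    have h5 := hmax _ h4
    rw [card_union_of_disjoint hd, card_singleton] at h5
    omega
  have hvR : v ∈ Q \ A := mem_sdiff.2 ⟨hv, hvA⟩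
  have e1 : ca ω A (Q \ A) = ca ω A {v} := by
    ext p
    rw [mem_ca, mem_ca, mem_singleton]
    constructor
    · rintro ⟨h1, h2, h3⟩
      refine ⟨h1, ?_, h3⟩
      by_contra hpv
      have := hno p.2 h2 hpv
      have h6 : p ∈ ca ω A {p.2} := mem_ca.2 ⟨h1, mem_singleton_self _, h3⟩
      have h7 : 0 < (ca ω A {p.2}).card := card_pos.2 ⟨p, h6⟩
      omega
    · rintro ⟨h1, h2, h3⟩
      exact ⟨h1, h2 ▸ hvR, h3⟩
  have e2 : ca ω (Q \ A) A = ca ω {v} A := by
    ext p
    rw [mem_ca, mem_ca, mem_singleton]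
    constructor
    · rintro ⟨h1, h2, h3⟩
      refine ⟨?_, h2, h3⟩
      by_contra hpv
      have := hno p.1 h1 hpv
      have h6 : p ∈ ca ω {p.1} A := mem_ca.2 ⟨mem_singleton_self _, h2, h3⟩
      have h7 : 0 < (ca ω {p.1} A).card := card_pos.2 ⟨p, h6⟩
      omega
    · rintro ⟨h1, h2, h3⟩
      exact ⟨h1 ▸ hvR, h2, h3⟩
  have hd : Disjoint A {v} := disjoint_singleton_right.2 hvA
  have h1 := kk_union (ω := ω) hd
  rw [hkA, kk_singleton] at h1
  have h2 := hF (A ∪ {v}) ⟨u, mem_union_left _ huA⟩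
  have hle : ((ca ω A {v}).card + (ca ω {v} A).card : ℕ) ≤ 1 := by
    have : (((ca ω A {v}).card + (ca ω {v} A).card : ℕ) : ℤ) ≤ 1 := by linarith
    exact_mod_cast this
  have hge : 1 ≤ ((ca ω A {v}).card + (ca ω {v} A).card : ℕ) := by
    rcases h with h | h
    · have : (u, v) ∈ ca ω A {v} := mem_ca.2 ⟨huA, mem_singleton_self _, h⟩
      have := card_pos.2 ⟨_, this⟩
      omega
    · have : (v, u) ∈ ca ω {v} A := mem_ca.2 ⟨mem_singleton_self _, huA, h⟩
      have := card_pos.2 ⟨_, this⟩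
      omega
  have hcx : (ca ω A (Q \ A)).card + (ca ω (Q \ A) A).card = 1 := by
    rw [e1, e2]
    omega
  refine ⟨A, hAQ, huA, hvA, hkA, ?_, hcx⟩
  have h3 := kk_union (ω := ω) (disjoint_sdiff (s := A) (t := Q))
  rw [union_sdiff_of_subset hAQ, hQ, hkA, hcx] at h3
  push_cast at h3
  linarith

end Pool.SP91
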