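import Pool.Agent.SP91.Star

/-!
# Forests: products of brackets
-/

set_option autoImplicit false

open Finset

namespace Pool.SP91

variable {P : Type*} [PartialOrder P] {ω : P → ℕ}

open Classical in
/-- Components. -/
def IsComp (ω : P → ℕ) (Q T : Finset P) : Prop :=
  T ⊆ Q ∧ kk ω T = 1 ∧ (ca ω T (Q \ T)).card + (ca ω (Q \ T) T).card = 0

open Classical in
theorem exists_comp (hF : Frst (P := P) ω) {Q : Finset P} {x : P} (hx : x ∈ Q) :
    ∃ T, IsComp ω Q T ∧ x ∈ T := by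
  have hne : (Q.powerset.filter (fun A => x ∈ A ∧ kk ω A = 1)).Nonempty := by
    refine ⟨{x}, ?_⟩
    rw [mem_filter, mem_powerset]
    exact ⟨singleton_subset_iff.2 hx, mem_singleton_self _, kk_singleton x⟩
  obtain ⟨A, hA, hmax⟩ := Finset.exists_max_image _ Finset.card hne
  rw [mem_filter, mem_powerset] at hA
  obtain ⟨hAQ, hxA, hkA⟩ := hA
  have hno : ∀ y ∈ Q \ A, (ca ω A {y}).card + (ca ω {y} A).card = 0 := by
    intro y hy
    rw [mem_sdiff] at hy
    by_contra hpos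
    have hd : Disjoint A {y} := disjoint_singleton_right.2 hy.2
    have h1 := kk_union (ω := ω) hd
    rw [hkA, kk_singleton] at h1
    have h2 := hF (A ∪ {y}) ⟨x, mem_union_left _ hxA⟩
    have h3 : kk ω (A ∪ {y}) = 1 := by
      have : (1 : ℤ) ≤ ((ca ω A {y}).card + (ca ω {y} A).card : ℕ) := by
        exact_mod_cast Nat.one_le_iff_ne_zero.2 hpos
      linarith
    have h4 : A ∪ {y} ∈ Q.powerset.filter (fun A => x ∈ A ∧ kk ω A = 1) := by
      rw [mem_filter, mem_powerset]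
      exact ⟨union_subset hAQ (singleton_subset_iff.2 hy.1), mem_union_left _ hxA, h3⟩
    have h5 := hmax _ h4
    rw [card_union_of_disjoint hd, card_singleton] at h5
    omega
  refine ⟨A, ⟨hAQ, hkA, ?_⟩, hxA⟩
  have e1 : ca ω A (Q \ A) = ∅ := by
    rw [Finset.eq_empty_iff_forall_notMem]
    intro p hp
    rw [mem_ca] at hp
    have h6 : p ∈ ca ω A {p.2} := mem_ca.2 ⟨hp.1, mem_singleton_self _, hp.2.2⟩
    have := card_pos.2 ⟨_, h6⟩
    have := hno p.2 hp.2.1
    omega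
  have e2 : ca ω (Q \ A) A = ∅ := by
    rw [Finset.eq_empty_iff_forall_notMem]
    intro p hp
    rw [mem_ca] at hp
    have h6 : p ∈ ca ω {p.1} A := mem_ca.2 ⟨mem_singleton_self _, hp.2.1, hp.2.2⟩
    have := card_pos.2 ⟨_, h6⟩
    have := hno p.1 hp.1
    omega
  rw [e1, e2]
  rfl

open Classical in
theorem IsComp.kk_compl {Q T : Finset P} (h : IsComp ω Q T) : kk ω (Q \ T) = kk ω Q - 1 := by
  have := kk_split (ω := ω) h.1
  rw [h.2.1, h.2.2] at this
  push_cast at this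
  linarith

open Classical in
theorem IsComp.csrc_card {Q T : Finset P} (h : IsComp ω Q T) :
    (csrc ω Q).card = (csrc ω T).card + (csrc ω (Q \ T)).card := by
  apply le_antisymm (csrc_split_card h.1)
  have hd : Disjoint (csrc ω T) (csrc ω (Q \ T)) := by
    rw [disjoint_left]
    intro x hx hx'
    exact (mem_sdiff.1 (csrc_subset _ hx')).2 (csrc_subset _ hx)
  rw [← card_union_of_disjoint hd]
  apply card_le_card
  have hcx := h.2.2
  have e1 : ca ω T (Q \ T) = ∅ := card_eq_zero.1 (by omega)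
  have e2 : ca ω (Q \ T) T = ∅ := card_eq_zero.1 (by omega)
  have n1 : ∀ x ∈ T, ∀ y ∈ Q \ T, ¬ Arc ω x y := by
    intro x hx y hy hxy
    have : (x, y) ∈ ca ω T (Q \ T) := mem_ca.2 ⟨hx, hy, hxy⟩
    rw [e1] at this
    simp at this
  have n2 : ∀ x ∈ Q \ T, ∀ y ∈ T, ¬ Arc ω x y := by
    intro x hx y hy hxy
    have : (x, y) ∈ ca ω (Q \ T) T := mem_ca.2 ⟨hx, hy, hxy⟩
    rw [e2] at this
    simp at this
  intro x hx
  rw [mem_union, mem_csrc, mem_csrc] at hx
  rw [mem_csrc]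
  rcases hx with ⟨hx, hh⟩ | ⟨hx, hh⟩
  · refine ⟨h.1 hx, fun y hy hyx => ?_⟩
    by_cases hyT : y ∈ T
    · exact hh y hyT hyx
    · exact n2 y (mem_sdiff.2 ⟨hy, hyT⟩) x hx hyx
  · refine ⟨sdiff_subset hx, fun y hy hyx => ?_⟩
    by_cases hyT : y ∈ T
    · exact n1 y hyT x hx hyx
    · exact hh y (mem_sdiff.2 ⟨hy, hyT⟩) hyx

open Classical in
theorem IsComp.sg_eq {Q T : Finset P} (h : IsComp ω Q T) : sg ω Q = sg ω T * sg ω (Q \ T) := by
  have h1 := sg_split (ω := ω) h.1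
  have hcx := h.2.2
  have e1 : cs ω T (Q \ T) = ∅ := by
    rw [Finset.eq_empty_iff_forall_notMem]
    intro p hp
    rw [mem_cs] at hp
    have : p ∈ ca ω T (Q \ T) := mem_ca.2 ⟨hp.1, hp.2.1, hp.2.2.1⟩
    have := card_pos.2 ⟨_, this⟩
    omega
  have e2 : cs ω (Q \ T) T = ∅ := by
    rw [Finset.eq_empty_iff_forall_notMem]
    intro p hp
    rw [mem_cs] at hp
    have : p ∈ ca ω (Q \ T) T := mem_ca.2 ⟨hp.1, hp.2.1, hp.2.2.1⟩
    have := card_pos.2 ⟨_, this⟩
    omega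
  rw [h1, e1, e2]
  simp

open Classical in
theorem IsComp.low [Finite P] (hω : Function.Injective ω) {Q T : Finset P} (hQ : Cvx Q)
    (h : IsComp ω Q T) : T ∈ lows Q := low_of_ca_empty hω hQ h.1 h.2.2

theorem ZZ_cons (l : List ℕ) (W : List (List ℕ)) :
    (ZZ ω (l :: W) : CA P) = BB ω l * ZZ ω W := by
  unfold ZZ
  rw [List.map_cons, List.prod_cons]

open Classical in
/-- Support of products of brackets. -/
theorem ZZ_support [Finite P] (hω : Function.Injective ω) (hF : Frst (P := P) ω)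
    (W : List (List ℕ)) : (∀ l ∈ W, ∀ i ∈ l, 1 ≤ i) → ∀ Q : Finset P, Cvx Q → ZZ ω W Q ≠ 0 →
      kk ω Q ≤ W.length ∧ (csrc ω Q).card ≤ (W.map List.length).sum := by
  induction W with
  | nil =>
    intro _ Q _ h
    have h1 : ZZ ω [] Q = if Q = ∅ then 1 else 0 := rfl
    rw [h1] at h
    split_ifs at h with h2
    · subst h2
      rw [kk_empty]
      have : csrc ω (∅ : Finset P) = ∅ := subset_empty.1 (csrc_subset _)
      rw [this]
      simp
    · exact absurd rfl h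
  | cons l W ih =>
    intro hW Q hQ h
    rw [ZZ_cons, mul_apply] at h
    obtain ⟨I, hI, hne⟩ := Finset.exists_ne_zero_of_sum_ne_zero h
    have hI' := mem_lows.1 hI
    obtain ⟨_, b2, b3⟩ := BB_support hω hF l (hW l List.mem_cons_self) I (hQ.low hI)
      (left_ne_zero_of_mul hne)
    obtain ⟨c2, c3⟩ := ih (fun l' hl' => hW l' (List.mem_cons_of_mem _ hl')) (Q \ I)
      (hQ.low_compl hI) (right_ne_zero_of_mul hne)
    have h1 := kk_split (ω := ω) hI'.1
    have h2 := csrc_split_card (ω := ω) hI'.1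
    constructor
    · rw [List.length_cons, h1, b2]
      push_cast
      have : (0 : ℤ) ≤ ((ca ω I (Q \ I)).card : ℤ) + ((ca ω (Q \ I) I).card : ℤ) := by positivity
      linarith
    · rw [List.map_cons, List.sum_cons]
      omega

open Classical in
/-- In a product the first factor lives on components. -/
theorem comp_of_term [Finite P] (hω : Function.Injective ω) (hF : Frst (P := P) ω)
    {Q I : Finset P} {r : ℕ} (hQ : Cvx Q) (hk : kk ω Q = r + 1) (hI : I ∈ lows Q)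
    {l : List ℕ} (hl : ∀ i ∈ l, 1 ≤ i) {W : List (List ℕ)} (hW : ∀ l ∈ W, ∀ i ∈ l, 1 ≤ i)
    (hWr : W.length = r) (h1 : BB ω l I ≠ 0) (h2 : ZZ ω W (Q \ I) ≠ 0) : IsComp ω Q I := by
  have hI' := mem_lows.1 hI
  obtain ⟨_, b2, _⟩ := BB_support hω hF l hl I (hQ.low hI) h1
  obtain ⟨c2, _⟩ := ZZ_support hω hF W hW (Q \ I) (hQ.low_compl hI) h2
  have h3 := kk_split (ω := ω) hI'.1
  refine ⟨hI'.1, b2, ?_⟩
  rw [hk, b2] at h3
  rw [hWr] at c2
  omega

open Classical in
/-- **Main claim for forests.** -/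
theorem grove_claim [Finite P] (hω : Function.Injective ω) (hF : Frst (P := P) ω) (r : ℕ) :
    ∀ (F : Finset (Finset P)) (s n : ℕ), F.Nonempty →
      (∀ Q ∈ F, Cvx Q ∧ kk ω Q = r ∧ (csrc ω Q).card = s ∧ Q.card = n) →
      ∃ W : List (List ℕ), W.length = r ∧ (∀ l ∈ W, ∀ i ∈ l, 1 ≤ i) ∧
        (∀ l ∈ W, 1 ≤ l.length) ∧ (W.map List.length).sum = s ∧
        (∀ Q ∈ F, 0 ≤ sg ω Q * ZZ ω W Q) ∧ ∃ Q ∈ F, 0 < sg ω Q * ZZ ω W Q := by
  induction r with
  | zero =>
    intro F s n hne hall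
    have hempty : ∀ Q ∈ F, Q = ∅ := by
      intro Q hQ
      obtain ⟨_, h2, _⟩ := hall Q hQ
      by_contra hcon
      have := hF Q (nonempty_iff_ne_empty.2 hcon)
      rw [h2] at this
      norm_num at this
    have hval : ∀ Q ∈ F, sg ω Q * ZZ ω [] Q = 1 := by
      intro Q hQ
      rw [hempty Q hQ]
      have h1 : ZZ ω [] (∅ : Finset P) = 1 := by
        show (if (∅ : Finset P) = ∅ then (1 : ℤ) else 0) = 1
        simp
      rw [h1, mul_one]
      unfold sg
      have : cs ω (∅ : Finset P) ∅ = ∅ := by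
        rw [Finset.eq_empty_iff_forall_notMem]
        intro p hp
        rw [mem_cs] at hp
        exact absurd hp.1 (notMem_empty _)
      rw [this]
      simp
    obtain ⟨Q, hQ⟩ := hne
    refine ⟨[], rfl, by simp, by simp, ?_, fun Q hQ => by rw [hval Q hQ]; norm_num, Q, hQ,
      by rw [hval Q hQ]; norm_num⟩
    obtain ⟨_, _, h3, _⟩ := hall Q hQ
    rw [hempty Q hQ] at h3
    have : csrc ω (∅ : Finset P) = ∅ := subset_empty.1 (csrc_subset _)
    rw [this] at h3
    simpa using h3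
  | succ r ih =>
    intro F s n hne hall
    obtain ⟨Q₀, hQ₀⟩ := hne
    obtain ⟨c₀, k₀, s₀, n₀⟩ := hall Q₀ hQ₀
    have hQ₀ne : Q₀.Nonempty := by
      rw [nonempty_iff_ne_empty]
      rintro rfl
      rw [kk_empty] at k₀
      push_cast at k₀
      omega
    obtain ⟨x₀, hx₀⟩ := hQ₀ne
    obtain ⟨T₀, hT₀, hxT₀⟩ := exists_comp hF hx₀
    have hsT₀ : 1 ≤ (csrc ω T₀).card := by
      have := kk_le_csrc (ω := ω) T₀
      rw [hT₀.2.1] at this
      exact_mod_cast this
    obtain ⟨m, hm⟩ : ∃ m, (csrc ω T₀).card = m + 1 := ⟨(csrc ω T₀).card - 1, by omega⟩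
    set n₁ := T₀.card with hn₁
    -- pairs
    set C : Finset (Finset P × Finset P) :=
      F.biUnion (fun Q => (Q.powerset.filter (fun T => IsComp ω Q T ∧ (csrc ω T).card = m + 1
        ∧ T.card = n₁)).image (fun T => (Q, T))) with hC
    have memC : ∀ Q T, (Q, T) ∈ C ↔ Q ∈ F ∧ IsComp ω Q T ∧ (csrc ω T).card = m + 1
        ∧ T.card = n₁ := by
      intro Q T
      rw [hC, mem_biUnion]
      constructor
      · rintro ⟨Q', hQ', h⟩
        obtain ⟨A', hA', h2⟩ := mem_image.1 h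
        simp only [Prod.mk.injEq] at h2
        obtain ⟨rfl, rfl⟩ := h2
        exact ⟨hQ', (mem_filter.1 hA').2⟩
      · rintro ⟨hQ, hS⟩
        exact ⟨Q, hQ, mem_image.2 ⟨T, mem_filter.2 ⟨mem_powerset.2 hS.1.1, hS⟩, rfl⟩⟩
    have h₀ : (Q₀, T₀) ∈ C := (memC _ _).2 ⟨hQ₀, hT₀, hm, rfl⟩
    set F₁ : Finset (Finset P) := C.image (fun p => p.2) with hF₁
    obtain ⟨l, hl1, hl2, hl3, T₁, hT₁, hT₁pos⟩ := tree_claim hω hF m F₁ n₁
      ⟨T₀, mem_image.2 ⟨_, h₀, rfl⟩⟩ (by
        intro T hT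
        obtain ⟨⟨Q, T'⟩, hp, rfl⟩ := mem_image.1 hT
        rw [memC] at hp
        obtain ⟨hQ, hT1, hT2, hT3⟩ := hp
        exact ⟨(hall Q hQ).1.low (hT1.low hω (hall Q hQ).1), hT1.2.1, hT2, hT3⟩)
    obtain ⟨⟨Q₁, T₁'⟩, hp₁, hT₁e⟩ := mem_image.1 hT₁
    simp only at hT₁e
    subst hT₁e
    set F' : Finset (Finset P) := (C.filter (fun p => 0 < sg ω p.2 * BB ω l p.2)).image
      (fun p => p.1 \ p.2) with hF'
    have hR₁ : Q₁ \ T₁' ∈ F' := mem_image.2 ⟨_, mem_filter.2 ⟨hp₁, hT₁pos⟩, rfl⟩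
    obtain ⟨W, hW1, hW2, hW3, hW4, hW5, R₂, hR₂, hR₂pos⟩ := ih F' (s - (m + 1)) (n - n₁)
      ⟨_, hR₁⟩ (by
        intro R hR
        obtain ⟨⟨Q, T⟩, hp, rfl⟩ := mem_image.1 hR
        rw [mem_filter, memC] at hp
        obtain ⟨⟨hQ, hT1, hT2, hT3⟩, _⟩ := hp
        obtain ⟨a1, a2, a3, a4⟩ := hall Q hQ
        refine ⟨a1.low_compl (hT1.low hω a1), ?_, ?_, ?_⟩
        · show kk ω (Q \ T) = r
          rw [hT1.kk_compl, a2]
          push_cast
          ring
        · have := hT1.csrc_card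
          show (csrc ω (Q \ T)).card = s - (m + 1)
          omega
        · have := card_sdiff_add_card_eq_card hT1.1
          show (Q \ T).card = n - n₁
          omega)
    have hlW : ∀ l' ∈ l :: W, ∀ i ∈ l', 1 ≤ i := by
      intro l' hl'
      rw [List.mem_cons] at hl'
      rcases hl' with rfl | hl'
      · exact hl2
      · exact hW2 l' hl'
    -- total number of sources
    have hms : m + 1 ≤ s := by
      have := hT₀.csrc_card
      omega
    refine ⟨l :: W, by rw [List.length_cons, hW1], hlW, ?_, ?_, ?_⟩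
    · intro l' hl'
      rw [List.mem_cons] at hl'
      rcases hl' with rfl | hl'
      · omega
      · exact hW3 l' hl'
    · rw [List.map_cons, List.sum_cons, hW4, hl1]
      omega
    have hexp : ∀ Q, sg ω Q * ZZ ω (l :: W) Q
        = ∑ I ∈ lows Q, sg ω Q * (BB ω l I * ZZ ω W (Q \ I)) := by
      intro Q
      rw [ZZ_cons, mul_apply, Finset.mul_sum]
    have hnn : ∀ Q ∈ F, ∀ I ∈ lows Q, 0 ≤ sg ω Q * (BB ω l I * ZZ ω W (Q \ I)) := by
      intro Q hQ I hI
      by_cases hz : BB ω l I * ZZ ω W (Q \ I) = 0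
      · rw [hz, mul_zero]
      · obtain ⟨a1, a2, a3, a4⟩ := hall Q hQ
        have z1 := left_ne_zero_of_mul hz
        have z2 := right_ne_zero_of_mul hz
        have hcomp : IsComp ω Q I := comp_of_term hω hF a1 (by rw [a2]; push_cast; ring) hI hl2
          hW2 hW1 z1 z2
        obtain ⟨b1, b2, b3⟩ := BB_support hω hF l hl2 I (a1.low hI) z1
        obtain ⟨c1, c2⟩ := ZZ_support hω hF W hW2 (Q \ I) (a1.low_compl hI) z2
        have d1 := hcomp.csrc_card
        rw [hW4] at c2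
        rw [hl1] at b3
        have e1 : (csrc ω I).card = m + 1 := by omega
        -- the size
        have hTsz : T₁'.card = l.sum := by
          rw [memC] at hp₁
          obtain ⟨hQ₁, hT1, _, _⟩ := hp₁
          have hcT : Cvx T₁' := (hall Q₁ hQ₁).1.low (hT1.low hω (hall Q₁ hQ₁).1)
          refine (BB_support hω hF l hl2 T₁' hcT ?_).1
          intro h0
          rw [h0, mul_zero] at hT₁pos
          exact lt_irrefl _ hT₁pos
        have e2 : I.card = n₁ := by
          rw [memC] at hp₁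
          rw [b1, ← hTsz]
          exact hp₁.2.2.2
        have hIF₁ : (Q, I) ∈ C := (memC _ _).2 ⟨hQ, hcomp, e1, e2⟩
        have f1 : 0 ≤ sg ω I * BB ω l I := hl3 I (mem_image.2 ⟨_, hIF₁, rfl⟩)
        have f2 : 0 < sg ω I * BB ω l I :=
          lt_of_le_of_ne f1 (Ne.symm (mul_ne_zero (sg_ne_zero I) z1))
        have f3 : 0 ≤ sg ω (Q \ I) * ZZ ω W (Q \ I) :=
          hW5 _ (mem_image.2 ⟨_, mem_filter.2 ⟨hIF₁, f2⟩, rfl⟩)
        rw [hcomp.sg_eq]
        have : sg ω I * sg ω (Q \ I) * (BB ω l I * ZZ ω W (Q \ I))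
            = (sg ω I * BB ω l I) * (sg ω (Q \ I) * ZZ ω W (Q \ I)) := by ring
        rw [this]
        exact mul_nonneg f1 f3
    constructor
    · intro Q hQ
      rw [hexp]
      exact Finset.sum_nonneg (hnn Q hQ)
    · obtain ⟨⟨Q, T⟩, hp, hR⟩ := mem_image.1 hR₂
      rw [mem_filter, memC] at hp
      obtain ⟨⟨hQ, hT1, hT2, hT3⟩, hpos⟩ := hp
      simp only at hpos hR
      subst hR
      refine ⟨Q, hQ, ?_⟩
      rw [hexp]
      have hTl := hT1.low hω (hall Q hQ).1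
      have hpos2 : 0 < sg ω Q * (BB ω l T * ZZ ω W (Q \ T)) := by
        rw [hT1.sg_eq]
        have : sg ω T * sg ω (Q \ T) * (BB ω l T * ZZ ω W (Q \ T))
            = (sg ω T * BB ω l T) * (sg ω (Q \ T) * ZZ ω W (Q \ T)) := by ring
        rw [this]
        exact mul_pos hpos hR₂pos
      exact lt_of_lt_of_le hpos2 (Finset.single_le_sum (hnn Q hQ) hTl)

end Pool.SP91
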