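import Pool.Agent.SP91.Conv

/-!
# The power sum functional on labelled posets

`hh n`, `ee n` are the indicator functions of the weak and of the strict subsets with `n`
elements; `Psi n = ∑ (-1)^k (n-k) ee k * hh (n-k)`. The value of `Psi n` at a set `Q` with `n`
elements is `± 1` if `Q` has a unique source and no weak-strict chain, and `0` otherwise.
-/

set_option autoImplicit false

open Finset

namespace Pool.SP91

variable {P : Type*} [PartialOrder P] (ω : P → ℕ)

/-- `Q` has only weak relations. -/
def WeakOn (Q : Finset P) : Prop := ∀ s ∈ Q, ∀ t ∈ Q, s < t → ω s < ω t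

/-- `Q` has only strict relations. -/
def StrictOn (Q : Finset P) : Prop := ∀ s ∈ Q, ∀ t ∈ Q, s < t → ω t < ω s

open Classical in
/-- Indicator of the weak subsets with `n` elements. -/
noncomputable def hh (n : ℕ) : CA P := fun Q => if Q.card = n ∧ WeakOn ω Q then 1 else 0

open Classical in
/-- Indicator of the strict subsets with `n` elements. -/
noncomputable def ee (n : ℕ) : CA P := fun Q => if Q.card = n ∧ StrictOn ω Q then 1 else 0

/-- Elements below which there is a weak relation. -/
def InW (Q : Finset P) (y : P) : Prop := ∃ s ∈ Q, s < y ∧ ω s < ω y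

/-- Elements above which there is a strict relation. -/
def InS (Q : Finset P) (y : P) : Prop := ∃ t ∈ Q, y < t ∧ ω t < ω y

open Classical in
/-- The set of elements of `Q` with a strict relation above. -/
noncomputable def lset (Q : Finset P) : Finset P := Q.filter (fun y => InS ω Q y)

open Classical in
/-- The set of sources of `Q` (no weak relation below, no strict relation above). -/
noncomputable def rsrc (Q : Finset P) : Finset P := Q.filter (fun y => ¬ InS ω Q y ∧ ¬ InW ω Q y)

/-- No weak-strict chain in `Q`. -/
def NoWS (Q : Finset P) : Prop := ∀ y ∈ Q, ¬ (InW ω Q y ∧ InS ω Q y)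

open Classical in
/-- The lower subsets `I` which are strict and whose complement is weak. -/
noncomputable def valid (Q : Finset P) : Finset (Finset P) :=
  (lows Q).filter (fun I => StrictOn ω I ∧ WeakOn ω (Q \ I))

variable {ω}

open Classical in
theorem mem_valid (hω : Function.Injective ω) {Q I : Finset P} :
    I ∈ valid ω Q ↔ I ⊆ Q ∧ lset ω Q ⊆ I ∧ ∀ y ∈ I, ¬ InW ω Q y := by
  unfold valid lset
  simp only [mem_filter, mem_lows]
  constructor
  · rintro ⟨⟨h1, h2⟩, h3, h4⟩
    refine ⟨h1, ?_, ?_⟩
    · intro y hy
      rw [mem_filter] at hy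
      obtain ⟨hyQ, t, ht, hyt, hlt⟩ := hy
      by_contra hyI
      by_cases htI : t ∈ I
      · exact hyI (h2 t htI y hyQ hyt)
      · have := h4 y (mem_sdiff.2 ⟨hyQ, hyI⟩) t (mem_sdiff.2 ⟨ht, htI⟩) hyt
        omega
    · rintro y hy ⟨s, hs, hsy, hlt⟩
      have := h3 s (h2 y hy s hs hsy) y hy hsy
      omega
  · rintro ⟨h1, h2, h3⟩
    have key : ∀ t ∈ I, ∀ s ∈ Q, s < t → ω t < ω s := by
      intro t ht s hs hst
      rcases lt_trichotomy (ω s) (ω t) with h | h | h
      · exact absurd ⟨s, hs, hst, h⟩ (h3 t ht)
      · exact absurd (hω h) (ne_of_lt hst)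
      · exact h
    refine ⟨⟨h1, ?_⟩, ?_, ?_⟩
    · intro t ht s hs hst
      apply h2
      rw [mem_filter]
      exact ⟨hs, t, h1 ht, hst, key t ht s hs hst⟩
    · intro s hs t ht hst
      exact key t ht s (h1 hs) hst
    · intro s hs t ht hst
      rw [mem_sdiff] at hs ht
      rcases lt_trichotomy (ω s) (ω t) with h | h | h
      · exact h
      · exact absurd (hω h) (ne_of_lt hst)
      · exfalso
        apply hs.2
        apply h2
        rw [mem_filter]
        exact ⟨hs.1, t, ht.1, hst, h⟩

open Classical in
/-- Coefficients: the sum `∑ c k • (ee k * hh (n-k))` at `Q`. -/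
theorem sum_ee_hh (c : ℕ → ℤ) (n : ℕ) (Q : Finset P) :
    (∑ k ∈ range (n + 1), c k • (ee ω k * hh ω (n - k))) Q
      = if Q.card = n then ∑ I ∈ valid ω Q, c I.card else 0 := by
  rw [sum_apply]
  simp only [zsmul_apply, mul_apply]
  have h1 : ∀ k ∈ range (n + 1), c k * (∑ I ∈ lows Q, ee ω k I * hh ω (n - k) (Q \ I))
      = ∑ I ∈ lows Q, if (I.card = k ∧ StrictOn ω I ∧ WeakOn ω (Q \ I) ∧ Q.card = n)
        then c I.card else 0 := by
    intro k hk
    rw [Finset.mul_sum]
    refine Finset.sum_congr rfl (fun I hI => ?_)
    rw [mem_lows] at hI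
    have hcard : (Q \ I).card + I.card = Q.card := card_sdiff_add_card_eq_card hI.1
    rw [mem_range] at hk
    unfold ee hh
    by_cases hk1 : I.card = k
    · by_cases hk2 : StrictOn ω I
      · by_cases hk3 : WeakOn ω (Q \ I)
        · by_cases hk4 : Q.card = n
          · have : (Q \ I).card = n - k := by omega
            simp [hk1, hk2, hk3, hk4, this]
          · have : (Q \ I).card ≠ n - k := by omega
            simp [hk1, hk2, hk3, hk4, this]
        · simp [hk1, hk2, hk3]
      · simp [hk1, hk2]
    · simp [hk1]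
  rw [Finset.sum_congr rfl h1, Finset.sum_comm]
  have h2 : ∀ I ∈ lows Q, (∑ k ∈ range (n + 1),
      if (I.card = k ∧ StrictOn ω I ∧ WeakOn ω (Q \ I) ∧ Q.card = n) then c I.card else 0)
      = if (StrictOn ω I ∧ WeakOn ω (Q \ I)) then (if Q.card = n then c I.card else 0) else 0 := by
    intro I hI
    rw [mem_lows] at hI
    by_cases hQ : Q.card = n
    · by_cases hS : StrictOn ω I ∧ WeakOn ω (Q \ I)
      · have hIn : I.card ∈ range (n + 1) := by
          rw [mem_range]
          have := card_le_card hI.1
          omega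
        rw [Finset.sum_eq_single I.card]
        · simp [hS.1, hS.2, hQ]
        · intro k _ hk
          rw [if_neg]
          rintro ⟨h, _⟩
          exact hk h.symm
        · intro h; exact absurd hIn h
      · rw [if_neg hS]
        apply Finset.sum_eq_zero
        intro k _
        rw [if_neg]
        rintro ⟨_, h1, h2, _⟩
        exact hS ⟨h1, h2⟩
    · simp [hQ]
  rw [Finset.sum_congr rfl h2, ← Finset.sum_filter]
  by_cases hQ : Q.card = n
  · simp only [hQ, if_true]
    rfl
  · simp only [hQ, if_false, sum_const_zero]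

open Classical in
theorem valid_eq_empty {Q : Finset P} (hω : Function.Injective ω) (h : ¬ NoWS ω Q) :
    valid ω Q = ∅ := by
  rw [Finset.eq_empty_iff_forall_notMem]
  intro I hI
  rw [mem_valid hω] at hI
  obtain ⟨h1, h2, h3⟩ := hI
  apply h
  rintro y hy ⟨hW, hS⟩
  have : y ∈ lset ω Q := by
    unfold lset
    rw [mem_filter]
    exact ⟨hy, hS⟩
  exact h3 y (h2 this) hW

open Classical in
theorem sum_valid {Q : Finset P} (hω : Function.Injective ω) (h : NoWS ω Q) (c : ℕ → ℤ) :
    ∑ I ∈ valid ω Q, c I.card
      = ∑ F ∈ (rsrc ω Q).powerset, c ((lset ω Q).card + F.card) := by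
  refine Finset.sum_nbij' (fun I => I \ lset ω Q) (fun F => lset ω Q ∪ F) ?_ ?_ ?_ ?_ ?_
  · intro I hI
    rw [mem_valid hω] at hI
    obtain ⟨h1, h2, h3⟩ := hI
    rw [mem_powerset]
    intro y hy
    rw [mem_sdiff] at hy
    unfold rsrc
    rw [mem_filter]
    refine ⟨h1 hy.1, ?_, h3 y hy.1⟩
    intro hS
    apply hy.2
    unfold lset
    rw [mem_filter]
    exact ⟨h1 hy.1, hS⟩
  · intro F hF
    rw [mem_powerset] at hF
    rw [mem_valid hω]
    refine ⟨?_, subset_union_left, ?_⟩
    · apply union_subset
      · unfold lset; exact filter_subset _ _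
      · exact hF.trans (by unfold rsrc; exact filter_subset _ _)
    · intro y hy
      rw [mem_union] at hy
      rcases hy with hy | hy
      · unfold lset at hy
        rw [mem_filter] at hy
        intro hW
        exact h y hy.1 ⟨hW, hy.2⟩
      · have := hF hy
        unfold rsrc at this
        rw [mem_filter] at this
        exact this.2.2
  · intro I hI
    rw [mem_valid hω] at hI
    exact union_sdiff_of_subset hI.2.1
  · intro F hF
    rw [mem_powerset] at hF
    apply union_sdiff_cancel_left
    rw [disjoint_left]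
    intro y hy hy'
    have h1 := hF hy'
    unfold rsrc at h1
    unfold lset at hy
    rw [mem_filter] at h1 hy
    exact h1.2.1 hy.2
  · intro I hI
    rw [mem_valid hω] at hI
    have := card_sdiff_add_card_eq_card hI.2.1
    show c I.card = c ((lset ω Q).card + (I \ lset ω Q).card)
    congr 1
    omega

omit [PartialOrder P] in
theorem sum_powerset_card (S : Finset P) :
    ∑ F ∈ S.powerset, (-1 : ℤ) ^ F.card * (F.card : ℤ) = if S.card = 1 then -1 else 0 := by
  classical
  have h1 : ∀ F ∈ S.powerset, (-1 : ℤ) ^ F.card * (F.card : ℤ)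
      = ∑ x ∈ S, if x ∈ F then (-1 : ℤ) ^ F.card else 0 := by
    intro F hF
    rw [mem_powerset] at hF
    rw [← Finset.sum_filter, Finset.filter_mem_eq_inter, inter_eq_right.2 hF, sum_const,
      nsmul_eq_mul, mul_comm]
  rw [Finset.sum_congr rfl h1, Finset.sum_comm]
  have h2 : ∀ x ∈ S, (∑ F ∈ S.powerset, if x ∈ F then (-1 : ℤ) ^ F.card else 0)
      = if S.erase x = ∅ then -1 else 0 := by
    intro x hx
    have h3 : (∑ F ∈ S.powerset, if x ∈ F then (-1 : ℤ) ^ F.card else 0)
        = ∑ F ∈ (S.erase x).powerset, -(-1 : ℤ) ^ F.card := by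
      rw [← Finset.sum_filter]
      refine Finset.sum_nbij' (fun F => F.erase x) (fun F => insert x F) ?_ ?_ ?_ ?_ ?_
      · intro F hF
        rw [mem_filter, mem_powerset] at hF
        rw [mem_powerset]
        exact erase_subset_erase _ hF.1
      · intro F hF
        rw [mem_powerset] at hF
        rw [mem_filter, mem_powerset]
        refine ⟨?_, mem_insert_self _ _⟩
        exact insert_subset hx (hF.trans (erase_subset _ _))
      · intro F hF
        rw [mem_filter] at hF
        exact insert_erase hF.2
      · intro F hF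
        rw [mem_powerset] at hF
        apply erase_insert
        intro h
        exact (mem_erase.1 (hF h)).1 rfl
      · intro F hF
        rw [mem_filter] at hF
        have : F.card = (F.erase x).card + 1 := (card_erase_add_one hF.2).symm
        rw [this, pow_succ]
        ring
    rw [h3, Finset.sum_neg_distrib, Finset.sum_powerset_neg_one_pow_card]
    split_ifs <;> simp
  rw [Finset.sum_congr rfl h2]
  by_cases hc : S.card = 1
  · obtain ⟨a, ha⟩ := card_eq_one.1 hc
    subst ha
    simp
  · rw [if_neg hc]
    apply Finset.sum_eq_zero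
    intro x hx
    rw [if_neg]
    intro h
    apply hc
    have := card_erase_add_one hx
    rw [h] at this
    simpa using this.symm

/-- The signed power sum element. -/
noncomputable def Psi (ω : P → ℕ) (n : ℕ) : CA P :=
  ∑ k ∈ range (n + 1), ((-1 : ℤ) ^ k * ((n : ℤ) - k)) • (ee ω k * hh ω (n - k))

open Classical in
theorem Psi_apply (hω : Function.Injective ω) (n : ℕ) (hn : 1 ≤ n) (Q : Finset P) :
    Psi ω n Q = if (Q.card = n ∧ NoWS ω Q ∧ (rsrc ω Q).card = 1)
      then (-1) ^ (lset ω Q).card else 0 := by
  unfold Psi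
  rw [sum_ee_hh (fun k => (-1 : ℤ) ^ k * ((n : ℤ) - k)) n Q]
  by_cases hQ : Q.card = n
  · rw [if_pos hQ]
    by_cases hws : NoWS ω Q
    · rw [sum_valid hω hws (fun k => (-1 : ℤ) ^ k * ((n : ℤ) - k))]
      have h1 : ∀ F ∈ (rsrc ω Q).powerset,
          (-1 : ℤ) ^ ((lset ω Q).card + F.card) * ((n : ℤ) - ((lset ω Q).card + F.card : ℕ))
          = (-1) ^ (lset ω Q).card * (((n : ℤ) - (lset ω Q).card) * (-1) ^ F.card)
            - (-1) ^ (lset ω Q).card * ((-1) ^ F.card * (F.card : ℤ)) := by
        intro F _
        rw [pow_add]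
        push_cast
        ring
      rw [Finset.sum_congr rfl h1, Finset.sum_sub_distrib, ← Finset.mul_sum, ← Finset.mul_sum,
        ← Finset.mul_sum, Finset.sum_powerset_neg_one_pow_card, sum_powerset_card]
      by_cases hs : (rsrc ω Q).card = 1
      · have hne : rsrc ω Q ≠ ∅ := by
          intro h; rw [h] at hs; simp at hs
        simp [hs, hne, hQ, hws]
      · rw [if_neg hs]
        have hne : rsrc ω Q ≠ ∅ := by
          intro h
          have hQne : Q.Nonempty := by
            rw [← card_pos]; omega
          obtain ⟨x, hx, hmin⟩ := Finset.exists_min_image Q ω hQne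
          have : x ∈ rsrc ω Q := by
            unfold rsrc
            rw [mem_filter]
            refine ⟨hx, ?_, ?_⟩
            · rintro ⟨t, ht, _, hlt⟩
              have := hmin t ht
              omega
            · rintro ⟨s, hs, _, hlt⟩
              have := hmin s hs
              omega
          rw [h] at this
          simp at this
        simp [hs, hne]
    · rw [valid_eq_empty hω hws]
      simp [hws]
  · simp [hQ]

open Classical in
theorem sum_ee_hh_zero (hω : Function.Injective ω) (n : ℕ) (hn : 1 ≤ n) :
    ∑ k ∈ range (n + 1), ((-1 : ℤ) ^ k) • (ee ω k * hh ω (n - k)) = (0 : CA P) := by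
  funext Q
  rw [sum_ee_hh (fun k => (-1 : ℤ) ^ k) n Q]
  by_cases hQ : Q.card = n
  · rw [if_pos hQ]
    by_cases hws : NoWS ω Q
    · rw [sum_valid hω hws (fun k => (-1 : ℤ) ^ k)]
      have hne : rsrc ω Q ≠ ∅ := by
        intro h
        have hQne : Q.Nonempty := by
          rw [← card_pos]; omega
        obtain ⟨x, hx, hmin⟩ := Finset.exists_min_image Q ω hQne
        have : x ∈ rsrc ω Q := by
          unfold rsrc
          rw [mem_filter]
          refine ⟨hx, ?_, ?_⟩
          · rintro ⟨t, ht, _, hlt⟩
            have := hmin t ht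
            omega
          · rintro ⟨s, hs, _, hlt⟩
            have := hmin s hs
            omega
        rw [h] at this
        simp at this
      have h1 : ∀ F ∈ (rsrc ω Q).powerset, (-1 : ℤ) ^ ((lset ω Q).card + F.card)
          = (-1) ^ (lset ω Q).card * (-1) ^ F.card := by
        intro F _
        rw [pow_add]
      rw [Finset.sum_congr rfl h1, ← Finset.mul_sum, Finset.sum_powerset_neg_one_pow_card,
        if_neg hne, mul_zero]
      rfl
    · rw [valid_eq_empty hω hws]
      simp [zero_apply]
  · simp [hQ, zero_apply]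

theorem hh_zero : hh ω 0 = (1 : CA P) := by
  classical
  funext Q
  rw [one_apply]
  unfold hh
  by_cases h : Q = ∅
  · subst h
    simp [WeakOn]
  · simp [h]

theorem ee_zero : ee ω 0 = (1 : CA P) := by
  classical
  funext Q
  rw [one_apply]
  unfold ee
  by_cases h : Q = ∅
  · subst h
    simp [StrictOn]
  · simp [h]

end Pool.SP91
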