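import Pool.Agent.SP91.Forest

/-!
# The power sum functional on convex subsets of forests
-/

set_option autoImplicit false

open Finset

namespace Pool.SP91

variable {P : Type*} [PartialOrder P] {ω : P → ℕ}

open Classical in
theorem rsrc_subset_csrc (Q : Finset P) : rsrc ω Q ⊆ csrc ω Q := by
  intro x hx
  unfold rsrc at hx
  rw [mem_filter] at hx
  rw [mem_csrc]
  refine ⟨hx.1, fun y hy h => ?_⟩
  rcases h.1 with h1 | h1
  · exact hx.2.2 ⟨y, hy, h1.lt, h.2⟩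
  · exact hx.2.1 ⟨y, hy, h1.lt, h.2⟩

/-- In a convex set without weak-strict chain, a weak relation below gives a weak cover. -/
theorem exists_weak_cover [Finite P] (hω : Function.Injective ω) {Q : Finset P} (hQ : Cvx Q)
    (hws : NoWS ω Q) {x : P} (hx : x ∈ Q) (h : InW ω Q x) : ∃ z ∈ Q, z ⋖ x ∧ ω z < ω x := by
  obtain ⟨s, hs, hsx, hlt⟩ := h
  obtain ⟨z, hz1, hz2⟩ := exists_le_covBy_of_lt hsx
  have hzQ : z ∈ Q := hQ s hs x hx z hz1 hz2.le
  refine ⟨z, hzQ, hz2, ?_⟩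
  by_contra hcon
  have h1 : ω x < ω z := by
    rcases lt_trichotomy (ω z) (ω x) with h | h | h
    · exact absurd h hcon
    · exact absurd (hω h) hz2.lt.ne
    · exact h
  have hsz : s < z := lt_of_le_of_ne hz1 (by rintro rfl; omega)
  exact hws z hzQ ⟨⟨s, hs, hsz, by omega⟩, ⟨x, hx, hz2.lt, h1⟩⟩

theorem exists_strict_cover [Finite P] (hω : Function.Injective ω) {Q : Finset P} (hQ : Cvx Q)
    (hws : NoWS ω Q) {x : P} (hx : x ∈ Q) (h : InS ω Q x) : ∃ z ∈ Q, x ⋖ z ∧ ω z < ω x := by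
  obtain ⟨t, ht, hxt, hlt⟩ := h
  obtain ⟨z, hz1, hz2⟩ := exists_covBy_le_of_lt hxt
  have hzQ : z ∈ Q := hQ x hx t ht z hz1.le hz2
  refine ⟨z, hzQ, hz1, ?_⟩
  by_contra hcon
  have h1 : ω x < ω z := by
    rcases lt_trichotomy (ω z) (ω x) with h | h | h
    · exact absurd h hcon
    · exact absurd (hω h).symm hz1.lt.ne
    · exact h
  have hzt : z < t := lt_of_le_of_ne hz2 (by rintro rfl; omega)
  exact hws z hzQ ⟨⟨x, hx, hz1.lt, h1⟩, ⟨t, ht, hzt, by omega⟩⟩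

open Classical in
theorem csrc_eq_rsrc [Finite P] (hω : Function.Injective ω) {Q : Finset P} (hQ : Cvx Q)
    (hws : NoWS ω Q) : csrc ω Q = rsrc ω Q := by
  apply Subset.antisymm _ (rsrc_subset_csrc Q)
  intro x hx
  rw [mem_csrc] at hx
  unfold rsrc
  rw [mem_filter]
  refine ⟨hx.1, ?_, ?_⟩
  · intro h
    obtain ⟨z, hz, h1, h2⟩ := exists_strict_cover hω hQ hws hx.1 h
    exact hx.2 z hz ⟨Or.inr h1, h2⟩
  · intro h
    obtain ⟨z, hz, h1, h2⟩ := exists_weak_cover hω hQ hws hx.1 h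
    exact hx.2 z hz ⟨Or.inl h1, h2⟩

open Classical in
/-- With in-degrees at most one there is no weak-strict chain. -/
theorem noWS_of_indeg [Finite P] (hω : Function.Injective ω) {Q : Finset P} (hQ : Cvx Q)
    (h : ∀ x ∈ Q, ∀ y ∈ Q, ∀ y' ∈ Q, Arc ω y x → Arc ω y' x → y = y') : NoWS ω Q := by
  by_contra hcon
  have hne : (Q.filter (fun y => InW ω Q y ∧ InS ω Q y)).Nonempty := by
    unfold NoWS at hcon
    push Not at hcon
    obtain ⟨y, hy, h1, h2⟩ := hcon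
    exact ⟨y, mem_filter.2 ⟨hy, h1, h2⟩⟩
  obtain ⟨z, hz, hmax⟩ := Finset.exists_max_image _ ω hne
  rw [mem_filter] at hz
  obtain ⟨hzQ, ⟨s, hs, hsz, hsω⟩, ⟨t, ht, hzt, htω⟩⟩ := hz
  obtain ⟨w, hw1, hw2⟩ := exists_le_covBy_of_lt hsz
  have hwQ : w ∈ Q := hQ s hs z hzQ w hw1 hw2.le
  have hwω : ω w < ω z := by
    by_contra hc
    have h1 : ω z < ω w := by
      rcases lt_trichotomy (ω w) (ω z) with h | h | h
      · exact absurd h hc
      · exact absurd (hω h) hw2.lt.ne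
      · exact h
    have hsw : s < w := lt_of_le_of_ne hw1 (by rintro rfl; omega)
    have := hmax w (mem_filter.2 ⟨hwQ, ⟨s, hs, hsw, by omega⟩, ⟨z, hzQ, hw2.lt, h1⟩⟩)
    omega
  obtain ⟨v, hv1, hv2⟩ := exists_covBy_le_of_lt hzt
  have hvQ : v ∈ Q := hQ z hzQ t ht v hv1.le hv2
  have hvω : ω v < ω z := by
    by_contra hc
    have h1 : ω z < ω v := by
      rcases lt_trichotomy (ω v) (ω z) with h | h | h
      · exact absurd h hc
      · exact absurd (hω h).symm hv1.lt.ne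
      · exact h
    have hvt : v < t := lt_of_le_of_ne hv2 (by rintro rfl; omega)
    have := hmax v (mem_filter.2 ⟨hvQ, ⟨z, hzQ, hv1.lt, h1⟩, ⟨t, ht, hvt, by omega⟩⟩)
    omega
  have := h z hzQ w hwQ v hvQ ⟨Or.inl hw2, hwω⟩ ⟨Or.inr hv1, hvω⟩
  exact absurd (this ▸ hw2.lt.trans hv1.lt) (lt_irrefl _)

open Classical in
theorem lset_card [Finite P] (hω : Function.Injective ω) {Q : Finset P} (hQ : Cvx Q)
    (h : ∀ x ∈ Q, ∀ y ∈ Q, ∀ y' ∈ Q, Arc ω y x → Arc ω y' x → y = y') :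
    (lset ω Q).card = (cs ω Q Q).card := by
  have hws := noWS_of_indeg hω hQ h
  symm
  have himg : lset ω Q = (cs ω Q Q).image (fun p => p.2) := by
    ext x
    rw [mem_image]
    unfold lset
    rw [mem_filter]
    constructor
    · rintro ⟨hx, hS⟩
      obtain ⟨z, hz, h1, h2⟩ := exists_strict_cover hω hQ hws hx hS
      exact ⟨(z, x), mem_cs.2 ⟨hz, hx, ⟨Or.inr h1, h2⟩, h1⟩, rfl⟩
    · rintro ⟨⟨z, x'⟩, hp, rfl⟩
      rw [mem_cs] at hp
      exact ⟨hp.2.1, z, hp.1, hp.2.2.2.lt, hp.2.2.1.2⟩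
  rw [himg, card_image_of_injOn]
  rintro ⟨a, b⟩ h1 ⟨a', b'⟩ h2 h3
  simp only at h3
  subst h3
  rw [mem_coe, mem_cs] at h1 h2
  have := h b h1.2.1 a h1.1 a' h2.1 h1.2.2.1 h2.2.2.1
  rw [this]

open Classical in
/-- The value of `Psi n` at convex subsets of forests. -/
theorem Psi_forest [Finite P] (hω : Function.Injective ω) (hF : Frst (P := P) ω) {Q : Finset P}
    (hQ : Cvx Q) (n : ℕ) (hn : 1 ≤ n) :
    Psi ω n Q = if (Q.card = n ∧ (csrc ω Q).card = 1) then sg ω Q else 0 := by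
  rw [Psi_apply hω n hn]
  by_cases hc : Q.card = n
  · by_cases hs : (csrc ω Q).card = 1
    · have hne : Q.Nonempty := by rw [← card_pos]; omega
      have hk := hF Q hne
      have hdeg : ∀ x ∈ Q, ∀ y ∈ Q, ∀ y' ∈ Q, Arc ω y x → Arc ω y' x → y = y' := by
        apply indeg_le_of_kk
        rw [hs]
        exact_mod_cast hk
      have hws := noWS_of_indeg hω hQ hdeg
      rw [if_pos ⟨hc, hws, by rw [← csrc_eq_rsrc hω hQ hws]; exact hs⟩, if_pos ⟨hc, hs⟩,
        lset_card hω hQ hdeg]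
      rfl
    · rw [if_neg, if_neg]
      · rintro ⟨_, h⟩; exact hs h
      · rintro ⟨_, h1, h2⟩
        rw [← csrc_eq_rsrc hω hQ h1] at h2
        exact hs h2
  · rw [if_neg, if_neg]
    · rintro ⟨h, _⟩; exact hc h
    · rintro ⟨h, _⟩; exact hc h

end Pool.SP91
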