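import Pool.Agent.SP91.Tree

/-!
# One source and branching
-/

set_option autoImplicit false

open Finset

namespace Pool.SP91

variable {P : Type*} [PartialOrder P] {ω : P → ℕ}

open Classical in
/-- Sinks. -/
noncomputable def csnk (ω : P → ℕ) (Q : Finset P) : Finset P :=
  Q.filter (fun x => ∀ y ∈ Q, ¬ Arc ω x y)

theorem mem_csnk {Q : Finset P} {x : P} : x ∈ csnk ω Q ↔ x ∈ Q ∧ ∀ y ∈ Q, ¬ Arc ω x y := by
  classical
  unfold csnk
  rw [mem_filter]

open Classical in
theorem outdeg_pos {Q : Finset P} {x : P} (hx : x ∈ Q) (hs : x ∉ csnk ω Q) :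
    1 ≤ (Q.filter (fun y => Arc ω x y)).card := by
  rw [Nat.one_le_iff_ne_zero, Ne, card_eq_zero]
  intro h
  apply hs
  rw [mem_csnk]
  refine ⟨hx, fun y hy hyx => ?_⟩
  have : y ∈ Q.filter (fun y => Arc ω x y) := mem_filter.2 ⟨hy, hyx⟩
  rw [h] at this
  simp at this

open Classical in
theorem ca_card_split_out (Q : Finset P) :
    ((ca ω Q Q).card : ℤ) = (Q.card : ℤ) - (csnk ω Q).card
      + ∑ x ∈ Q \ csnk ω Q, (((Q.filter (fun y => Arc ω x y)).card : ℤ) - 1) := by
  have hsub : csnk ω Q ⊆ Q := by unfold csnk; exact filter_subset _ _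
  rw [ca_card_eq_sum_out]
  push_cast
  rw [← Finset.sum_sdiff hsub]
  have h1 : ∑ x ∈ csnk ω Q, ((Q.filter (fun y => Arc ω x y)).card : ℤ) = 0 := by
    apply Finset.sum_eq_zero
    intro x hx
    rw [mem_csnk] at hx
    rw [Nat.cast_eq_zero, card_eq_zero, Finset.filter_eq_empty_iff]
    exact fun y hy => hx.2 y hy
  rw [h1, add_zero, Finset.sum_sub_distrib, Finset.sum_const, nsmul_eq_mul, mul_one]
  have := card_sdiff_add_card_eq_card hsub
  have h2 : ((Q \ csnk ω Q).card : ℤ) + (csnk ω Q).card = Q.card := by exact_mod_cast this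
  linarith

open Classical in
/-- A branching connected set has at least two sinks. -/
theorem two_sinks {Q : Finset P} (hQ : kk ω Q = 1) {x y y' : P} (hx : x ∈ Q) (hy : y ∈ Q)
    (hy' : y' ∈ Q) (h1 : Arc ω x y) (h2 : Arc ω x y') (hne : y ≠ y') :
    2 ≤ (csnk ω Q).card := by
  have hxs : x ∉ csnk ω Q := fun hs => (mem_csnk.1 hs).2 y hy h1
  have h3 : (2 : ℤ) ≤ (Q.filter (fun y => Arc ω x y)).card := by
    have : ({y, y'} : Finset P) ⊆ Q.filter (fun y => Arc ω x y) := by
      intro z hz
      simp only [mem_insert, mem_singleton] at hz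
      rcases hz with rfl | rfl
      · exact mem_filter.2 ⟨hy, h1⟩
      · exact mem_filter.2 ⟨hy', h2⟩
    have h4 := card_le_card this
    rw [card_pair hne] at h4
    exact_mod_cast h4
  have h5 : 1 ≤ ∑ x ∈ Q \ csnk ω Q, (((Q.filter (fun y => Arc ω x y)).card : ℤ) - 1) := by
    have hmem : x ∈ Q \ csnk ω Q := mem_sdiff.2 ⟨hx, hxs⟩
    refine le_trans ?_ (Finset.single_le_sum (f := fun x =>
      (((Q.filter (fun y => Arc ω x y)).card : ℤ) - 1)) ?_ hmem)
    · linarith
    · intro z hz
      rw [mem_sdiff] at hz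
      have := outdeg_pos hz.1 hz.2
      have h2 : (1 : ℤ) ≤ ((Q.filter (fun y => Arc ω z y)).card : ℤ) := by exact_mod_cast this
      linarith
  have h6 := ca_card_split_out (ω := ω) Q
  unfold kk at hQ
  have : (2 : ℤ) ≤ (csnk ω Q).card := by linarith
  exact_mod_cast this

open Classical in
theorem sink_nonempty {Q : Finset P} (hQ : Q.Nonempty) : 1 ≤ (csnk ω Q).card := by
  obtain ⟨x, hx, hmax⟩ := Finset.exists_max_image Q ω hQ
  have : x ∈ csnk ω Q := by
    rw [mem_csnk]
    refine ⟨hx, fun y hy h => ?_⟩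
    have := hmax y hy
    have := h.2
    omega
  exact card_pos.2 ⟨x, this⟩

open Classical in
theorem sum_lows_card_one {Q : Finset P} (f : Finset P → ℤ) (hf : ∀ I, I.card ≠ 1 → f I = 0) :
    ∑ I ∈ lows Q, f I = ∑ z ∈ Q, if {z} ∈ lows Q then f {z} else 0 := by
  rw [← Finset.sum_filter]
  symm
  rw [← Finset.sum_filter_add_sum_filter_not (lows Q) (fun I => I.card = 1)]
  rw [Finset.sum_eq_zero (s := (lows Q).filter (fun I => ¬ I.card = 1))
    (fun I hI => hf I (mem_filter.1 hI).2), add_zero]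
  refine Finset.sum_bij (fun z _ => {z}) ?_ ?_ ?_ ?_
  · intro z hz
    rw [mem_filter] at hz ⊢
    exact ⟨hz.2, card_singleton z⟩
  · intro a _ b _ h
    exact singleton_injective h
  · intro I hI
    rw [mem_filter] at hI
    obtain ⟨z, rfl⟩ := card_eq_one.1 hI.2
    refine ⟨z, ?_, rfl⟩
    rw [mem_filter]
    exact ⟨(mem_lows.1 hI.1).1 (mem_singleton_self z), hI.1⟩
  · intro z hz
    rfl

open Classical in
theorem sum_lows_cocard_one {Q : Finset P} (f : Finset P → ℤ)
    (hf : ∀ I, (Q \ I).card ≠ 1 → f I = 0) :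
    ∑ I ∈ lows Q, f I = ∑ z ∈ Q, if Q \ {z} ∈ lows Q then f (Q \ {z}) else 0 := by
  rw [← Finset.sum_filter]
  symm
  rw [← Finset.sum_filter_add_sum_filter_not (lows Q) (fun I => (Q \ I).card = 1)]
  rw [Finset.sum_eq_zero (s := (lows Q).filter (fun I => ¬ (Q \ I).card = 1))
    (fun I hI => hf I (mem_filter.1 hI).2), add_zero]
  refine Finset.sum_bij (fun z _ => Q \ {z}) ?_ ?_ ?_ ?_
  · intro z hz
    rw [mem_filter] at hz ⊢
    refine ⟨hz.2, ?_⟩
    rw [Finset.sdiff_sdiff_eq_self (singleton_subset_iff.2 hz.1), card_singleton]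
  · intro a ha b hb h
    rw [mem_filter] at ha hb
    have h1 : Q \ (Q \ {a}) = Q \ (Q \ {b}) := by rw [h]
    rw [Finset.sdiff_sdiff_eq_self (singleton_subset_iff.2 ha.1),
      Finset.sdiff_sdiff_eq_self (singleton_subset_iff.2 hb.1)] at h1
    exact singleton_injective h1
  · intro I hI
    rw [mem_filter] at hI
    obtain ⟨z, hz⟩ := card_eq_one.1 hI.2
    have hIQ := (mem_lows.1 hI.1).1
    have e : Q \ {z} = I := by rw [← hz, Finset.sdiff_sdiff_eq_self hIQ]
    have hzQ : z ∈ Q := by
      have : z ∈ Q \ I := by rw [hz]; exact mem_singleton_self z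
      exact (mem_sdiff.1 this).1
    refine ⟨z, ?_, e⟩
    rw [mem_filter, e]
    exact ⟨hzQ, hI.1⟩
  · intro z hz
    rfl

open Classical in
/-- A nonzero term of the bracket `[Psi 1, Psi (n-1)]` at a connected one-source set. -/
theorem star_term [Finite P] (hω : Function.Injective ω) (hF : Frst (P := P) ω) {Q : Finset P}
    {n : ℕ} (hn : 3 ≤ n) (hQ : Cvx Q) (hk : kk ω Q = 1) (hc : Q.card = n)
    {z : P} (hz : z ∈ Q) :
    (if {z} ∈ lows Q then sg ω Q * (Psi ω 1 {z} * Psi ω (n - 1) (Q \ {z})) else 0)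
      + (if Q \ {z} ∈ lows Q then
          - (sg ω Q * (Psi ω (n - 1) (Q \ {z}) * Psi ω 1 (Q \ (Q \ {z})))) else 0)
    = if ((csrc ω (Q \ {z})).card = 1) then
        (if z ∈ csrc ω Q then 1 else -1) else 0 := by
  have hzs : ({z} : Finset P) ⊆ Q := singleton_subset_iff.2 hz
  have e : Q \ (Q \ {z}) = {z} := Finset.sdiff_sdiff_eq_self hzs
  rw [e]
  have hcv : Cvx ({z} : Finset P) := by
    intro x hx y hy w hxw hwy
    rw [mem_singleton] at hx hy ⊢
    subst hx
    subst hy
    exact le_antisymm hwy hxw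
  have hcs1 : (csrc ω ({z} : Finset P)).card = 1 := by
    have : csrc ω ({z} : Finset P) = {z} := by
      ext x
      rw [mem_csrc, mem_singleton]
      constructor
      · exact fun h => h.1
      · rintro rfl
        refine ⟨rfl, fun y hy h => ?_⟩
        rw [mem_singleton] at hy
        exact h.ne hy
    rw [this, card_singleton]
  have hP1 : Psi ω 1 ({z} : Finset P) = 1 := by
    rw [Psi_forest hω hF hcv 1 le_rfl, if_pos ⟨card_singleton z, hcs1⟩]
    unfold sg
    have : cs ω ({z} : Finset P) {z} = ∅ := by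
      rw [Finset.eq_empty_iff_forall_notMem]
      intro p hp
      rw [mem_cs, mem_singleton, mem_singleton] at hp
      exact hp.2.2.1.ne (hp.1.trans hp.2.1.symm)
    rw [this]
    simp
  rw [hP1]
  have hcR : (Q \ {z}).card = n - 1 := by
    have := card_sdiff_add_card_eq_card hzs
    rw [card_singleton] at this
    omega
  have hcvR : ({z} ∈ lows Q ∨ Q \ {z} ∈ lows Q) → Cvx (Q \ {z}) := by
    rintro (h | h)
    · exact hQ.low_compl h
    · exact hQ.low h
  by_cases hs : (csrc ω (Q \ {z})).card = 1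
  · rw [if_pos hs]
    -- connected complement
    have hkR : kk ω (Q \ {z}) = 1 := by
      have h1 := kk_le_csrc (ω := ω) (Q \ {z})
      rw [hs] at h1
      have h2 := hF (Q \ {z}) (by rw [← card_pos]; omega)
      push_cast at h1
      omega
    have hcx := cross_one hk hzs (kk_singleton z) hkR
    have hex : (∃ r ∈ Q \ {z}, Arc ω z r) ∨ (∃ r ∈ Q \ {z}, Arc ω r z) := by
      by_contra hcon
      push Not at hcon
      have e1 : ca ω {z} (Q \ {z}) = ∅ := by
        rw [Finset.eq_empty_iff_forall_notMem]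
        intro p hp
        rw [mem_ca, mem_singleton] at hp
        exact hcon.1 _ hp.2.1 (hp.1 ▸ hp.2.2)
      have e2 : ca ω (Q \ {z}) {z} = ∅ := by
        rw [Finset.eq_empty_iff_forall_notMem]
        intro p hp
        rw [mem_ca, mem_singleton] at hp
        exact hcon.2 _ hp.1 (hp.2.1 ▸ hp.2.2)
      rw [e1, e2] at hcx
      simp at hcx
    have hmz : z ∈ ({z} : Finset P) := mem_singleton_self z
    rcases hex with ⟨r, hr, ha⟩ | ⟨r, hr, ha⟩
    · obtain ⟨o1, o2⟩ := only_cross hcx hmz hr ha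
      have hzsrc : z ∈ csrc ω Q := by
        rw [mem_csrc]
        refine ⟨hz, fun y hy hyz => ?_⟩
        exact o2 y (mem_sdiff.2 ⟨hy, by rw [mem_singleton]; exact hyz.ne⟩) z hmz hyz
      rw [if_pos hzsrc]
      have e2 : cs ω (Q \ {z}) {z} = ∅ := by
        rw [Finset.eq_empty_iff_forall_notMem]
        intro p hp
        rw [mem_cs] at hp
        exact o2 _ hp.1 _ hp.2.1 hp.2.2.1
      have hsg := sg_split (ω := ω) hzs
      rw [e2, card_empty, add_zero] at hsg
      have hsgz : sg ω ({z} : Finset P) = 1 := by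
        rw [← hP1, Psi_forest hω hF hcv 1 le_rfl, if_pos ⟨card_singleton z, hcs1⟩]
      rw [hsgz, one_mul] at hsg
      rcases ha.1 with h | h
      · -- weak: z is lower
        have hl : {z} ∈ lows Q := by
          by_contra hcon
          obtain ⟨s, hs', hsz, t, ht, hst⟩ := exists_cross hQ hzs hcon
          rw [mem_singleton] at ht
          subst ht
          have hsR : s ∈ Q \ {t} := mem_sdiff.2 ⟨hs', hsz⟩
          rcases lt_trichotomy (ω s) (ω t) with h1 | h1 | h1
          · exact o2 s hsR t hmz ⟨Or.inl hst, h1⟩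
          · exact absurd (hω h1) hst.lt.ne
          · obtain ⟨_, rfl⟩ := o1 t hmz s hsR ⟨Or.inr hst, h1⟩
            exact absurd (h.lt.trans hst.lt) (lt_irrefl _)
        have hnl : Q \ {z} ∉ lows Q := by
          intro hcon
          have := (mem_lows.1 hcon).2 r hr z hz h.lt
          exact (mem_sdiff.1 this).2 hmz
        rw [if_pos hl, if_neg hnl, add_zero, Psi_forest hω hF (hcvR (Or.inl hl)) (n - 1) (by omega),
          if_pos ⟨hcR, hs⟩]
        have e1 : cs ω {z} (Q \ {z}) = ∅ := by
          rw [Finset.eq_empty_iff_forall_notMem]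
          intro p hp
          rw [mem_cs] at hp
          obtain ⟨h1, h2⟩ := o1 _ hp.1 _ hp.2.1 hp.2.2.1
          rw [h1, h2] at hp
          exact absurd (h.lt.trans hp.2.2.2.lt) (lt_irrefl _)
        rw [e1] at hsg
        simp only [card_empty, pow_zero, mul_one] at hsg
        rw [hsg, one_mul, sg_mul_self]
      · -- strict: z is upper
        have hnl : {z} ∉ lows Q := by
          intro hcon
          have := (mem_lows.1 hcon).2 z hmz r (sdiff_subset hr) h.lt
          exact (mem_sdiff.1 hr).2 this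
        have hl : Q \ {z} ∈ lows Q := by
          by_contra hcon
          obtain ⟨s, hs', hsz, t, ht, hst⟩ := exists_cross hQ sdiff_subset hcon
          have hsz' : s = z := by
            by_contra hh
            exact hsz (mem_sdiff.2 ⟨hs', by rw [mem_singleton]; exact hh⟩)
          subst hsz'
          rcases lt_trichotomy (ω s) (ω t) with h1 | h1 | h1
          · obtain ⟨_, rfl⟩ := o1 s hmz t ht ⟨Or.inl hst, h1⟩
            exact absurd (h.lt.trans hst.lt) (lt_irrefl _)
          · exact absurd (hω h1) hst.lt.ne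
          · exact o2 t ht s hmz ⟨Or.inr hst, h1⟩
        rw [if_neg hnl, if_pos hl, zero_add, Psi_forest hω hF (hcvR (Or.inr hl)) (n - 1) (by omega),
          if_pos ⟨hcR, hs⟩]
        have e1 : cs ω {z} (Q \ {z}) = {(z, r)} := by
          ext p
          rw [mem_cs, mem_singleton (a := (z, r))]
          constructor
          · intro hp
            obtain ⟨h1, h2⟩ := o1 _ hp.1 _ hp.2.1 hp.2.2.1
            exact Prod.ext h1 h2
          · rintro rfl
            exact ⟨hmz, hr, ha, h⟩
        rw [e1] at hsg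
        simp only [card_singleton, pow_one, mul_neg, mul_one] at hsg
        rw [hsg, mul_one, neg_mul, neg_neg, sg_mul_self]
    · have hcx' : (ca ω (Q \ {z}) {z}).card + (ca ω {z} (Q \ {z})).card = 1 := by omega
      obtain ⟨o1, o2⟩ := only_cross hcx' hr hmz ha
      have hzsrc : z ∉ csrc ω Q := by
        rw [mem_csrc]
        rintro ⟨_, h⟩
        exact h r (sdiff_subset hr) ha
      rw [if_neg hzsrc]
      have e2 : cs ω {z} (Q \ {z}) = ∅ := by
        rw [Finset.eq_empty_iff_forall_notMem]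
        intro p hp
        rw [mem_cs] at hp
        exact o2 _ hp.1 _ hp.2.1 hp.2.2.1
      have hsg := sg_split (ω := ω) hzs
      rw [e2, card_empty, zero_add] at hsg
      have hsgz : sg ω ({z} : Finset P) = 1 := by
        rw [← hP1, Psi_forest hω hF hcv 1 le_rfl, if_pos ⟨card_singleton z, hcs1⟩]
      rw [hsgz, one_mul] at hsg
      rcases ha.1 with h | h
      · -- r ⋖ z weak: z is upper
        have hnl : {z} ∉ lows Q := by
          intro hcon
          have := (mem_lows.1 hcon).2 z hmz r (sdiff_subset hr) h.lt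
          exact (mem_sdiff.1 hr).2 this
        have hl : Q \ {z} ∈ lows Q := by
          by_contra hcon
          obtain ⟨s, hs', hsz, t, ht, hst⟩ := exists_cross hQ sdiff_subset hcon
          have hsz' : s = z := by
            by_contra hh
            exact hsz (mem_sdiff.2 ⟨hs', by rw [mem_singleton]; exact hh⟩)
          subst hsz'
          rcases lt_trichotomy (ω s) (ω t) with h1 | h1 | h1
          · exact o2 s hmz t ht ⟨Or.inl hst, h1⟩
          · exact absurd (hω h1) hst.lt.ne
          · obtain ⟨rfl, _⟩ := o1 t ht s hmz ⟨Or.inr hst, h1⟩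
            exact absurd (h.lt.trans hst.lt) (lt_irrefl _)
        rw [if_neg hnl, if_pos hl, zero_add, Psi_forest hω hF (hcvR (Or.inr hl)) (n - 1) (by omega),
          if_pos ⟨hcR, hs⟩]
        have e1 : cs ω (Q \ {z}) {z} = ∅ := by
          rw [Finset.eq_empty_iff_forall_notMem]
          intro p hp
          rw [mem_cs] at hp
          obtain ⟨h1, h2⟩ := o1 _ hp.1 _ hp.2.1 hp.2.2.1
          rw [h1, h2] at hp
          exact absurd (h.lt.trans hp.2.2.2.lt) (lt_irrefl _)
        rw [e1] at hsg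
        simp only [card_empty, pow_zero, mul_one] at hsg
        rw [hsg, mul_one, sg_mul_self]
      · -- z ⋖ r strict: z is lower
        have hl : {z} ∈ lows Q := by
          by_contra hcon
          obtain ⟨s, hs', hsz, t, ht, hst⟩ := exists_cross hQ hzs hcon
          rw [mem_singleton] at ht
          subst ht
          have hsR : s ∈ Q \ {t} := mem_sdiff.2 ⟨hs', hsz⟩
          rcases lt_trichotomy (ω s) (ω t) with h1 | h1 | h1
          · obtain ⟨rfl, _⟩ := o1 s hsR t hmz ⟨Or.inl hst, h1⟩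
            exact absurd (h.lt.trans hst.lt) (lt_irrefl _)
          · exact absurd (hω h1) hst.lt.ne
          · exact o2 t hmz s hsR ⟨Or.inr hst, h1⟩
        have hnl : Q \ {z} ∉ lows Q := by
          intro hcon
          have := (mem_lows.1 hcon).2 r hr z hz h.lt
          exact (mem_sdiff.1 this).2 hmz
        rw [if_pos hl, if_neg hnl, add_zero, Psi_forest hω hF (hcvR (Or.inl hl)) (n - 1) (by omega),
          if_pos ⟨hcR, hs⟩]
        have e1 : cs ω (Q \ {z}) {z} = {(r, z)} := by
          ext p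
          rw [mem_cs, mem_singleton (a := (r, z))]
          constructor
          · intro hp
            obtain ⟨h1, h2⟩ := o1 _ hp.1 _ hp.2.1 hp.2.2.1
            exact Prod.ext h1 h2
          · rintro rfl
            exact ⟨hr, hmz, ha, h⟩
        rw [e1] at hsg
        simp only [card_singleton, pow_one, mul_neg, mul_one] at hsg
        rw [hsg, one_mul, neg_mul, sg_mul_self]
  · rw [if_neg hs]
    have hzero : ∀ (h : {z} ∈ lows Q ∨ Q \ {z} ∈ lows Q), Psi ω (n - 1) (Q \ {z}) = 0 := by
      intro h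
      rw [Psi_forest hω hF (hcvR h) (n - 1) (by omega), if_neg]
      rintro ⟨_, h2⟩
      exact hs h2
    by_cases h1 : {z} ∈ lows Q
    · rw [if_pos h1, hzero (Or.inl h1)]
      simp
    · rw [if_neg h1]
      by_cases h2 : Q \ {z} ∈ lows Q
      · rw [if_pos h2, hzero (Or.inr h2)]
        simp
      · rw [if_neg h2]
        simp

open Classical in
/-- **One source.** -/
theorem star_claim [Finite P] (hω : Function.Injective ω) (hF : Frst (P := P) ω) {Q : Finset P}
    {n : ℕ} (hn : 3 ≤ n) (hQ : Cvx Q) (hk : kk ω Q = 1) (hs : (csrc ω Q).card = 1)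
    (hc : Q.card = n) :
    sg ω Q * BB ω [1, n - 1] Q ≤ 1 - (csnk ω Q).card := by
  have hexp : sg ω Q * BB ω [1, n - 1] Q
        = (∑ I ∈ lows Q, sg ω Q * (Psi ω 1 I * Psi ω (n - 1) (Q \ I)))
          + ∑ I ∈ lows Q, - (sg ω Q * (Psi ω (n - 1) I * Psi ω 1 (Q \ I))) := by
    have : BB ω [1, n - 1] Q = (∑ I ∈ lows Q, Psi ω 1 I * Psi ω (n - 1) (Q \ I))
          - ∑ I ∈ lows Q, Psi ω (n - 1) I * Psi ω 1 (Q \ I) := by
      show (Psi ω 1 * Psi ω (n - 1) - Psi ω (n - 1) * Psi ω 1) Q = _
      rw [sub_apply, mul_apply, mul_apply]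
    rw [this, mul_sub, Finset.mul_sum, Finset.mul_sum, Finset.sum_neg_distrib]
    ring
  have hP1 : ∀ I : Finset P, I.card ≠ 1 → Psi ω 1 I = 0 := by
    intro I hI
    rw [Psi_apply hω 1 le_rfl, if_neg]
    rintro ⟨h, _⟩
    exact hI h
  rw [hexp, sum_lows_card_one (fun I => sg ω Q * (Psi ω 1 I * Psi ω (n - 1) (Q \ I)))
    (fun I hI => by simp only [hP1 I hI]; ring),
    sum_lows_cocard_one (fun I => - (sg ω Q * (Psi ω (n - 1) I * Psi ω 1 (Q \ I))))
    (fun I hI => by simp only [hP1 (Q \ I) hI]; ring), ← Finset.sum_add_distrib]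
  rw [Finset.sum_congr rfl (fun z hz => star_term hω hF hn hQ hk hc hz)]
  have hne2 : ∀ z ∈ Q, ¬ (z ∈ csrc ω Q ∧ z ∈ csnk ω Q) := by
    rintro z hz ⟨h1, h2⟩
    rw [mem_csrc] at h1
    rw [mem_csnk] at h2
    have hzs : ({z} : Finset P) ⊆ Q := singleton_subset_iff.2 hz
    have h3 := kk_split (ω := ω) hzs
    have e1 : ca ω {z} (Q \ {z}) = ∅ := by
      rw [Finset.eq_empty_iff_forall_notMem]
      intro p hp
      rw [mem_ca, mem_singleton] at hp
      exact h2.2 _ (sdiff_subset hp.2.1) (hp.1 ▸ hp.2.2)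
    have e2 : ca ω (Q \ {z}) {z} = ∅ := by
      rw [Finset.eq_empty_iff_forall_notMem]
      intro p hp
      rw [mem_ca, mem_singleton] at hp
      exact h1.2 _ (sdiff_subset hp.1) (hp.2.1 ▸ hp.2.2)
    rw [e1, e2, hk, kk_singleton] at h3
    have hcR : (Q \ {z}).card = n - 1 := by
      have := card_sdiff_add_card_eq_card hzs
      rw [card_singleton] at this
      omega
    have h4 := hF (Q \ {z}) (by rw [← card_pos]; omega)
    simp only [card_empty, add_zero, Nat.cast_zero, sub_zero] at h3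
    omega
  have hsink : ∀ z ∈ csnk ω Q, (csrc ω (Q \ {z})).card = 1 := by
    intro z hz
    have hz' := mem_csnk.1 hz
    have : csrc ω (Q \ {z}) = csrc ω Q := by
      ext x
      rw [mem_csrc, mem_csrc, mem_sdiff, mem_singleton]
      constructor
      · rintro ⟨⟨h1, h2⟩, h3⟩
        refine ⟨h1, fun y hy hyx => ?_⟩
        by_cases hyz : y = z
        · subst hyz
          exact hz'.2 x h1 hyx
        · exact h3 y (mem_sdiff.2 ⟨hy, by rw [mem_singleton]; exact hyz⟩) hyx
      · rintro ⟨h1, h2⟩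
        refine ⟨⟨h1, ?_⟩, fun y hy => h2 y (sdiff_subset hy)⟩
        rintro rfl
        exact hne2 x h1 ⟨mem_csrc.2 ⟨h1, h2⟩, hz⟩
    rw [this, hs]
  have hle : ∀ z ∈ Q, (if ((csrc ω (Q \ {z})).card = 1) then
        (if z ∈ csrc ω Q then (1 : ℤ) else -1) else 0)
      ≤ (if z ∈ csrc ω Q then 1 else 0) - (if z ∈ csnk ω Q then 1 else 0) := by
    intro z hz
    by_cases h1 : z ∈ csnk ω Q
    · have h2 : z ∉ csrc ω Q := fun h => hne2 z hz ⟨h, h1⟩
      rw [if_pos (hsink z h1), if_neg h2, if_neg h2, if_pos h1]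
      norm_num
    · rw [if_neg h1]
      by_cases h2 : z ∈ csrc ω Q
      · rw [if_pos h2, if_pos h2]
        split_ifs <;> norm_num
      · rw [if_neg h2, if_neg h2]
        split_ifs <;> norm_num
  refine le_trans (Finset.sum_le_sum hle) ?_
  rw [Finset.sum_sub_distrib, Finset.sum_ite_mem, Finset.sum_ite_mem,
    inter_eq_right.2 (csrc_subset Q),
    inter_eq_right.2 (show csnk ω Q ⊆ Q by unfold csnk; exact filter_subset _ _)]
  simp [hs]

end Pool.SP91
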