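import Pool.Agent.SP91.Psi

/-!
# Symmetric functionals kill commutators

If the products of the `hh n` have at `Q` a value which does not depend on the order of the
factors, then the value at `Q` of `x * (y * z - z * y) * w` is zero for all `x y z w` in the
subring generated by the `hh n`. The elements `ee n` and `Psi n` belong to this subring.
-/

set_option autoImplicit false

open Finset

namespace Pool.SP91

variable {P : Type*} [PartialOrder P] (ω : P → ℕ)

/-- Product of a list of `hh`'s. -/
noncomputable def hprod (l : List ℕ) : CA P := (l.map (hh ω)).prod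

/-- The values at `Q` of products of `hh`'s do not depend on the order of the factors. -/
def SymAt (Q : Finset P) : Prop := ∀ l l' : List ℕ, l.Perm l' → hprod ω l Q = hprod ω l' Q

/-- The subring generated by the `hh n`. -/
noncomputable def NN : Subring (CA P) := Subring.closure (Set.range (hh ω))

variable {ω}

theorem hprod_append (l l' : List ℕ) : hprod ω (l ++ l') = hprod ω l * (hprod ω l' : CA P) := by
  unfold hprod
  rw [List.map_append, List.prod_append]

theorem hh_mem (n : ℕ) : (hh ω n : CA P) ∈ NN ω := Subring.subset_closure ⟨n, rfl⟩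

theorem NN_induction {p : CA P → Prop} (h0 : p 0) (hadd : ∀ x y, p x → p y → p (x + y))
    (hneg : ∀ x, p x → p (-x)) (hl : ∀ l : List ℕ, p (hprod ω l)) :
    ∀ x ∈ NN ω, p x := by
  intro x hx
  unfold NN at hx
  rw [Subring.mem_closure_iff] at hx
  induction hx using AddSubgroup.closure_induction with
  | mem x hx =>
    obtain ⟨l, hl1, hl2⟩ := Submonoid.exists_list_of_mem_closure hx
    have : ∃ l' : List ℕ, l = l'.map (hh ω) := by
      clear hl2 hx
      induction l with
      | nil => exact ⟨[], rfl⟩
      | cons a l ih =>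
        obtain ⟨l', hl'⟩ := ih (fun y hy => hl1 y (List.mem_cons_of_mem _ hy))
        obtain ⟨n, hn⟩ := hl1 a List.mem_cons_self
        exact ⟨n :: l', by rw [List.map_cons, hn, hl']⟩
    obtain ⟨l', hl'⟩ := this
    have h3 : x = hprod ω l' := by
      unfold hprod
      rw [← hl', hl2]
    rw [h3]
    exact hl l'
  | zero => exact h0
  | add x y _ _ hx hy => exact hadd x y hx hy
  | neg x _ hx => exact hneg x hx

theorem SymAt.comm {Q : Finset P} (h : SymAt ω Q) :
    ∀ x ∈ NN ω, ∀ y ∈ NN ω, ∀ z ∈ NN ω, ∀ w ∈ NN ω,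
      (x * (y * z) * w : CA P) Q = (x * (z * y) * w) Q := by
  refine NN_induction ?_ ?_ ?_ ?_
  · intro y _ z _ w _
    simp [zero_apply]
  · intro x x' hx hx' y hy z hz w hw
    simp only [add_mul, add_apply]
    rw [hx y hy z hz w hw, hx' y hy z hz w hw]
  · intro x hx y hy z hz w hw
    simp only [neg_mul, neg_apply]
    rw [hx y hy z hz w hw]
  intro l1
  refine NN_induction ?_ ?_ ?_ ?_
  · intro z _ w _
    simp [zero_apply]
  · intro x x' hx hx' z hz w hw
    simp only [add_mul, mul_add, add_apply]
    rw [hx z hz w hw, hx' z hz w hw]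
  · intro x hx z hz w hw
    simp only [neg_mul, mul_neg, neg_apply]
    rw [hx z hz w hw]
  intro l2
  refine NN_induction ?_ ?_ ?_ ?_
  · intro w _
    simp [zero_apply]
  · intro x x' hx hx' w hw
    simp only [add_mul, mul_add, add_apply]
    rw [hx w hw, hx' w hw]
  · intro x hx w hw
    simp only [neg_mul, mul_neg, neg_apply]
    rw [hx w hw]
  intro l3
  refine NN_induction ?_ ?_ ?_ ?_
  · simp [zero_apply]
  · intro x x' hx hx'
    simp only [mul_add, add_apply]
    rw [hx, hx']
  · intro x hx
    simp only [mul_neg, neg_apply]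
    rw [hx]
  intro l4
  rw [← hprod_append, ← hprod_append, ← hprod_append, ← hprod_append, ← hprod_append,
    ← hprod_append]
  apply h
  apply List.Perm.append_right
  apply List.Perm.append_left
  exact List.perm_append_comm

theorem ee_mem (hω : Function.Injective ω) (n : ℕ) : (ee ω n : CA P) ∈ NN ω := by
  induction n using Nat.strong_induction_on with
  | _ n ih =>
    rcases Nat.eq_zero_or_pos n with hn | hn
    · subst hn
      rw [ee_zero]
      exact Subring.one_mem _
    · have h := sum_ee_hh_zero (P := P) hω n hn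
      rw [Finset.sum_range_succ] at h
      have h2 : ((-1 : ℤ) ^ n) • (ee ω n * hh ω (n - n) : CA P) ∈ NN ω := by
        have h3 := eq_neg_of_add_eq_zero_right h
        rw [h3]
        apply Subring.neg_mem
        apply Subring.sum_mem
        intro k hk
        apply Subring.zsmul_mem
        exact Subring.mul_mem _ (ih k (mem_range.1 hk)) (hh_mem _)
      rw [Nat.sub_self, hh_zero, mul_one] at h2
      have h4 : (ee ω n : CA P) = ((-1 : ℤ) ^ n) • (((-1 : ℤ) ^ n) • (ee ω n : CA P)) := by
        rw [smul_smul, ← pow_add, ← two_mul, pow_mul]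
        simp
      rw [h4]
      exact Subring.zsmul_mem _ h2 _

theorem Psi_mem (hω : Function.Injective ω) (n : ℕ) : (Psi ω n : CA P) ∈ NN ω := by
  unfold Psi
  apply Subring.sum_mem
  intro k _
  apply Subring.zsmul_mem
  exact Subring.mul_mem _ (ee_mem hω k) (hh_mem _)

/-- Nested brackets. -/
noncomputable def BB (ω : P → ℕ) : List ℕ → CA P
  | [] => 0
  | [n] => Psi ω n
  | n :: m :: l => Psi ω n * BB ω (m :: l) - BB ω (m :: l) * Psi ω n

theorem BB_mem (hω : Function.Injective ω) (l : List ℕ) : (BB ω l : CA P) ∈ NN ω := by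
  induction l with
  | nil => exact Subring.zero_mem _
  | cons n l ih =>
    cases l with
    | nil => exact Psi_mem hω n
    | cons m l =>
      unfold BB
      exact Subring.sub_mem _ (Subring.mul_mem _ (Psi_mem hω n) ih)
        (Subring.mul_mem _ ih (Psi_mem hω n))

theorem SymAt.BB_zero {Q : Finset P} (h : SymAt ω Q) (hω : Function.Injective ω)
    (x y : CA P) (hx : x ∈ NN ω) (hy : y ∈ NN ω) (l : List ℕ) (hl : 2 ≤ l.length) :
    (x * BB ω l * y) Q = 0 := by
  match l, hl with
  | n :: m :: l, _ =>
    unfold BB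
    rw [mul_sub, sub_mul, sub_apply]
    rw [h.comm x hx (Psi ω n) (Psi_mem hω n) (BB ω (m :: l)) (BB_mem hω _) y hy]
    ring

/-- Products of brackets. -/
noncomputable def ZZ (ω : P → ℕ) (W : List (List ℕ)) : CA P := (W.map (BB ω)).prod

theorem ZZ_mem (hω : Function.Injective ω) (W : List (List ℕ)) : (ZZ ω W : CA P) ∈ NN ω := by
  unfold ZZ
  apply Subring.list_prod_mem
  intro x hx
  rw [List.mem_map] at hx
  obtain ⟨l, _, rfl⟩ := hx
  exact BB_mem hω l

theorem SymAt.ZZ_zero {Q : Finset P} (h : SymAt ω Q) (hω : Function.Injective ω)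
    (W : List (List ℕ)) (hW : ∃ l ∈ W, 2 ≤ l.length) : ZZ ω W Q = 0 := by
  obtain ⟨l, hl, hl2⟩ := hW
  obtain ⟨W1, W2, rfl⟩ := List.append_of_mem hl
  have : ZZ ω (W1 ++ l :: W2) = (ZZ ω W1 * BB ω l * ZZ ω W2 : CA P) := by
    unfold ZZ
    rw [List.map_append, List.map_cons, List.prod_append, List.prod_cons, mul_assoc]
  rw [this]
  exact h.BB_zero hω _ _ (ZZ_mem hω _) (ZZ_mem hω _) l hl2

end Pool.SP91
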