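import Pool.Agent.SP91.Bracket

/-!
# Trees: a bracket with nonzero value
-/

set_option autoImplicit false

open Finset

namespace Pool.SP91

variable {P : Type*} [PartialOrder P] (ω : P → ℕ)

open Classical in
/-- A good side of a cut of `Q`. -/
def SideP (Q A : Finset P) : Prop :=
  A ⊆ Q ∧ kk ω A = 1 ∧ kk ω (Q \ A) = 1 ∧
    ∃ u ∈ A, ∃ v ∈ Q \ A, Arc ω u v ∧ ∃ y ∈ Q \ A, Arc ω y v

variable {ω}

open Classical in
theorem cross_one {Q A : Finset P} (hQ : kk ω Q = 1) (hA : A ⊆ Q) (h1 : kk ω A = 1)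
    (h2 : kk ω (Q \ A) = 1) : (ca ω A (Q \ A)).card + (ca ω (Q \ A) A).card = 1 := by
  have := kk_split (ω := ω) hA
  rw [hQ, h1, h2] at this
  omega

open Classical in
/-- If an arc crosses from `A` to `R` and there is exactly one crossing, then it is the only one. -/
theorem only_cross {A R : Finset P} (h : (ca ω A R).card + (ca ω R A).card = 1) {u v : P}
    (hu : u ∈ A) (hv : v ∈ R) (ha : Arc ω u v) :
    (∀ x ∈ A, ∀ y ∈ R, Arc ω x y → x = u ∧ y = v) ∧ (∀ x ∈ R, ∀ y ∈ A, ¬ Arc ω x y) := by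
  have hmem : (u, v) ∈ ca ω A R := mem_ca.2 ⟨hu, hv, ha⟩
  have hpos := card_pos.2 ⟨_, hmem⟩
  have h1 : (ca ω A R).card = 1 := by omega
  have h2 : (ca ω R A).card = 0 := by omega
  constructor
  · intro x hx y hy hxy
    have h3 : (x, y) ∈ ca ω A R := mem_ca.2 ⟨hx, hy, hxy⟩
    have := card_le_one.1 h1.le _ hmem _ h3
    simp only [Prod.mk.injEq] at this
    exact ⟨this.1.symm, this.2.symm⟩
  · intro x hx y hy hxy
    have h3 : (x, y) ∈ ca ω R A := mem_ca.2 ⟨hx, hy, hxy⟩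
    rw [card_eq_zero] at h2
    rw [h2] at h3
    simp at h3

open Classical in
/-- Existence of good sides. -/
theorem exists_side (hF : Frst (P := P) ω) {Q : Finset P} (hQ : kk ω Q = 1)
    (hs : 2 ≤ (csrc ω Q).card) : ∃ A, SideP ω Q A := by
  have h1 : kk ω Q < (csrc ω Q).card := by rw [hQ]; exact_mod_cast hs
  obtain ⟨x, hx, y, hy, y', hy', a1, a2, hne⟩ := exists_indeg_two h1
  obtain ⟨A, hA, hyA, hxA, k1, k2, hcx⟩ := edge_split hF hQ hy hx (Or.inl a1)
  have hxR : x ∈ Q \ A := mem_sdiff.2 ⟨hx, hxA⟩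
  obtain ⟨o1, o2⟩ := only_cross hcx hyA hxR a1
  have hy'A : y' ∉ A := fun h => hne (o1 y' h x hxR a2).1.symm
  exact ⟨A, hA, k1, k2, y, hyA, x, hxR, a1, y', mem_sdiff.2 ⟨hy', hy'A⟩, a2⟩

open Classical in
/-- Splitting off a part of `A` away from the attaching vertex. -/
theorem kk_sub_side {Q A A₁ : Finset P} (hA : A ⊆ Q) (hA₁ : A₁ ⊆ A)
    (hcx : (ca ω A (Q \ A)).card + (ca ω (Q \ A) A).card = 1)
    (hk : kk ω (Q \ A) = 1) (hk1 : kk ω (A \ A₁) = 1)
    (hno1 : ∀ x ∈ A₁, ∀ y ∈ Q \ A, ¬ Arc ω x y) (hno2 : ∀ x ∈ Q \ A, ∀ y ∈ A₁, ¬ Arc ω x y) :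
    kk ω (Q \ A₁) = 1 := by
  have e : Q \ A₁ = (A \ A₁) ∪ (Q \ A) := by
    ext x
    simp only [mem_sdiff, mem_union]
    constructor
    · rintro ⟨h1, h2⟩
      by_cases hx : x ∈ A
      · exact Or.inl ⟨hx, h2⟩
      · exact Or.inr ⟨h1, hx⟩
    · rintro (⟨h1, h2⟩ | ⟨h1, h2⟩)
      · exact ⟨hA h1, h2⟩
      · exact ⟨h1, fun h => h2 (hA₁ h)⟩
  have hd : Disjoint (A \ A₁) (Q \ A) := by
    rw [disjoint_left]
    intro x hx hx'
    exact (mem_sdiff.1 hx').2 (mem_sdiff.1 hx).1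
  have c1 : ca ω (A \ A₁) (Q \ A) = ca ω A (Q \ A) := by
    ext p
    rw [mem_ca, mem_ca, mem_sdiff]
    constructor
    · rintro ⟨h1, h2, h3⟩
      exact ⟨h1.1, h2, h3⟩
    · rintro ⟨h1, h2, h3⟩
      exact ⟨⟨h1, fun h => hno1 _ h _ h2 h3⟩, h2, h3⟩
  have c2 : ca ω (Q \ A) (A \ A₁) = ca ω (Q \ A) A := by
    ext p
    rw [mem_ca, mem_ca, mem_sdiff (s := A) (t := A₁)]
    constructor
    · rintro ⟨h1, h2, h3⟩
      exact ⟨h1, h2.1, h3⟩
    · rintro ⟨h1, h2, h3⟩
      exact ⟨h1, ⟨h2, fun h => hno2 _ h1 _ h h3⟩, h3⟩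
  rw [e, kk_union hd, c1, c2, hcx, hk, hk1]
  norm_num

open Classical in
theorem kk_supermod {A B : Finset P} :
    kk ω (A ∪ B) + kk ω (A ∩ B) ≤ kk ω A + kk ω B := by
  unfold kk
  have h1 : (ca ω A A ∪ ca ω B B).card ≤ (ca ω (A ∪ B) (A ∪ B)).card := by
    apply card_le_card
    intro p hp
    rw [mem_union, mem_ca, mem_ca] at hp
    rw [mem_ca, mem_union, mem_union]
    tauto
  have h2 : (ca ω A A ∩ ca ω B B) = ca ω (A ∩ B) (A ∩ B) := by
    ext p
    rw [mem_inter, mem_ca, mem_ca, mem_ca, mem_inter, mem_inter]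
    tauto
  have h3 := card_union_add_card_inter (ca ω A A) (ca ω B B)
  rw [h2] at h3
  have h4 := card_union_add_card_inter A B
  have h5 : ((ca ω A A ∪ ca ω B B).card : ℤ) + (ca ω (A ∩ B) (A ∩ B)).card
      = (ca ω A A).card + (ca ω B B).card := by exact_mod_cast h3
  have h6 : ((A ∪ B).card : ℤ) + (A ∩ B).card = A.card + B.card := by exact_mod_cast h4
  have h7 : ((ca ω A A ∪ ca ω B B).card : ℤ) ≤ (ca ω (A ∪ B) (A ∪ B)).card := by exact_mod_cast h1
  linarith

open Classical in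
/-- A good side of minimal size has one source. -/
theorem side_min_src (hF : Frst (P := P) ω) {Q A : Finset P} (hQ : kk ω Q = 1)
    (hS : SideP ω Q A) (hmin : ∀ A', SideP ω Q A' → A.card ≤ A'.card) :
    (csrc ω A).card = 1 := by
  obtain ⟨hA, k1, k2, u, hu, v, hv, huv, y0, hy0, hy0v⟩ := hS
  have hcx := cross_one hQ hA k1 k2
  obtain ⟨o1, o2⟩ := only_cross hcx hu hv huv
  by_contra hne
  have hge : 1 ≤ (csrc ω A).card := by
    have := kk_le_csrc (ω := ω) A
    rw [k1] at this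
    exact_mod_cast this
  have hlt : kk ω A < (csrc ω A).card := by
    rw [k1]
    have : 1 < (csrc ω A).card := by omega
    exact_mod_cast this
  obtain ⟨w, hw, y, hy, y', hy', a1, a2, hyy⟩ := exists_indeg_two hlt
  -- splitting lemma
  have key : ∀ y ∈ A, ∀ y' ∈ A, Arc ω y w → Arc ω y' w → y ≠ y' →
      ∃ A₁ ⊆ A, y ∈ A₁ ∧ w ∉ A₁ ∧ kk ω A₁ = 1 ∧ u ∈ A₁ := by
    intro y hy y' hy' a1 a2 hyy
    obtain ⟨A₁, hA₁, hyA₁, hwA₁, l1, l2, lcx⟩ := edge_split hF k1 hy hw (Or.inl a1)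
    refine ⟨A₁, hA₁, hyA₁, hwA₁, l1, ?_⟩
    by_contra huA₁
    have hwR : w ∈ A \ A₁ := mem_sdiff.2 ⟨hw, hwA₁⟩
    obtain ⟨p1, p2⟩ := only_cross lcx hyA₁ hwR a1
    have hy'A₁ : y' ∉ A₁ := fun h => hyy (p1 y' h w hwR a2).1.symm
    have hk3 : kk ω (Q \ A₁) = 1 := by
      apply kk_sub_side hA hA₁ hcx k2 l2
      · intro x hx z hz hxz
        have := (o1 x (hA₁ hx) z hz hxz).1
        rw [this] at hx
        exact huA₁ hx
      · intro x hx z hz hxz
        exact o2 x hx z (hA₁ hz) hxz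
    have hside : SideP ω Q A₁ := by
      refine ⟨hA₁.trans hA, l1, hk3, y, hyA₁, w, mem_sdiff.2 ⟨hA hw, hwA₁⟩, a1, y',
        mem_sdiff.2 ⟨hA hy', hy'A₁⟩, a2⟩
    have h1 := hmin A₁ hside
    have h2 : A₁ ⊂ A := ⟨hA₁, fun h => hwA₁ (h hw)⟩
    have h3 := card_lt_card h2
    omega
  obtain ⟨A₁, hA₁, hyA₁, hwA₁, l1, huA₁⟩ := key y hy y' hy' a1 a2 hyy
  obtain ⟨A₂, hA₂, hyA₂, hwA₂, l2, huA₂⟩ := key y' hy' y hy a2 a1 (Ne.symm hyy)
  have h1 := kk_supermod (ω := ω) (A := A₁) (B := A₂)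
  have h2 := hF (A₁ ∩ A₂) ⟨u, mem_inter.2 ⟨huA₁, huA₂⟩⟩
  have h3 := hF (A₁ ∪ A₂) ⟨u, mem_union_left _ huA₁⟩
  have hk : kk ω (A₁ ∪ A₂) = 1 := by omega
  have hwX : w ∉ A₁ ∪ A₂ := by
    rw [mem_union]
    rintro (h | h)
    · exact hwA₁ h
    · exact hwA₂ h
  have hd : Disjoint (A₁ ∪ A₂) {w} := disjoint_singleton_right.2 hwX
  have h4 := kk_union (ω := ω) hd
  rw [hk, kk_singleton] at h4
  have h5 := hF ((A₁ ∪ A₂) ∪ {w}) ⟨u, mem_union_left _ (mem_union_left _ huA₁)⟩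
  have h6 : 2 ≤ (ca ω (A₁ ∪ A₂) {w}).card := by
    have hsub : ({(y, w), (y', w)} : Finset (P × P)) ⊆ ca ω (A₁ ∪ A₂) {w} := by
      intro p hp
      simp only [mem_insert, mem_singleton] at hp
      rcases hp with rfl | rfl
      · exact mem_ca.2 ⟨mem_union_left _ hyA₁, mem_singleton_self _, a1⟩
      · exact mem_ca.2 ⟨mem_union_right _ hyA₂, mem_singleton_self _, a2⟩
    have h7 := card_le_card hsub
    rw [card_pair] at h7
    · exact h7
    · intro h
      simp only [Prod.mk.injEq] at h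
      exact hyy h.1
  have h8 : (2 : ℤ) ≤ ((ca ω (A₁ ∪ A₂) {w}).card + (ca ω {w} (A₁ ∪ A₂)).card : ℕ) := by
    have : 2 ≤ ((ca ω (A₁ ∪ A₂) {w}).card + (ca ω {w} (A₁ ∪ A₂)).card : ℕ) := by omega
    exact_mod_cast this
  omega

open Classical in
/-- In the situation of a nonzero term, the arc goes out of the one-source side. -/
theorem side_of_term (hF : Frst (P := P) ω) {Q A : Finset P} {m : ℕ} (hQ : kk ω Q = 1)
    (hsQ : (csrc ω Q).card = m + 1) (hA : A ⊆ Q) (k1 : kk ω A = 1) (k2 : kk ω (Q \ A) = 1)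
    (hsA : (csrc ω A).card = 1) (hsR : (csrc ω (Q \ A)).card ≤ m)
    (hmin : ∀ A', SideP ω Q A' → A.card ≤ A'.card) : SideP ω Q A := by
  have hcx := cross_one hQ hA k1 k2
  have hQe : Q = A ∪ (Q \ A) := (union_sdiff_of_subset hA).symm
  have hex : (∃ u ∈ A, ∃ v ∈ Q \ A, Arc ω u v) ∨ (∃ v ∈ Q \ A, ∃ u ∈ A, Arc ω v u) := by
    by_contra hcon
    push Not at hcon
    have e1 : ca ω A (Q \ A) = ∅ := by
      rw [Finset.eq_empty_iff_forall_notMem]
      intro p hp
      rw [mem_ca] at hp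
      exact hcon.1 _ hp.1 _ hp.2.1 hp.2.2
    have e2 : ca ω (Q \ A) A = ∅ := by
      rw [Finset.eq_empty_iff_forall_notMem]
      intro p hp
      rw [mem_ca] at hp
      exact hcon.2 _ hp.1 _ hp.2.1 hp.2.2
    rw [e1, e2] at hcx
    simp at hcx
  rcases hex with ⟨u, hu, v, hv, huv⟩ | ⟨v, hv, u, hu, hvu⟩
  · obtain ⟨o1, o2⟩ := only_cross hcx hu hv huv
    by_cases hvs : v ∈ csrc ω (Q \ A)
    · exfalso
      have hsub : csrc ω Q ⊆ csrc ω A ∪ (csrc ω (Q \ A)).erase v := by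
        intro x hx
        rw [mem_csrc] at hx
        rw [mem_union, mem_erase, mem_csrc, mem_csrc]
        by_cases hxA : x ∈ A
        · exact Or.inl ⟨hxA, fun y hy => hx.2 y (hA hy)⟩
        · right
          refine ⟨?_, mem_sdiff.2 ⟨hx.1, hxA⟩, fun y hy => hx.2 y (sdiff_subset hy)⟩
          rintro rfl
          exact hx.2 u (hA hu) huv
      have h1 := card_le_card hsub
      have h2 := card_union_le (csrc ω A) ((csrc ω (Q \ A)).erase v)
      have h3 := card_erase_add_one hvs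
      omega
    · rw [mem_csrc] at hvs
      push Not at hvs
      obtain ⟨y, hy, hyv⟩ := hvs hv
      exact ⟨hA, k1, k2, u, hu, v, hv, huv, y, hy, hyv⟩
  · exfalso
    have hcx' : (ca ω (Q \ A) A).card + (ca ω A (Q \ A)).card = 1 := by omega
    obtain ⟨o1, o2⟩ := only_cross hcx' hv hu hvu
    by_cases hus : u ∈ csrc ω A
    · have hsub : csrc ω Q ⊆ (csrc ω A).erase u ∪ csrc ω (Q \ A) := by
        intro x hx
        rw [mem_csrc] at hx
        rw [mem_union, mem_erase, mem_csrc, mem_csrc]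
        by_cases hxA : x ∈ A
        · left
          refine ⟨?_, hxA, fun y hy => hx.2 y (hA hy)⟩
          rintro rfl
          exact hx.2 v (sdiff_subset hv) hvu
        · exact Or.inr ⟨mem_sdiff.2 ⟨hx.1, hxA⟩, fun y hy => hx.2 y (sdiff_subset hy)⟩
      have h1 := card_le_card hsub
      have h2 := card_union_le ((csrc ω A).erase u) (csrc ω (Q \ A))
      have h3 := card_erase_add_one hus
      omega
    · rw [mem_csrc] at hus
      push Not at hus
      obtain ⟨u', hu', hu'u⟩ := hus hu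
      obtain ⟨A₁, hA₁, hu'A₁, huA₁, l1, l2, lcx⟩ := edge_split hF k1 hu' hu (Or.inl hu'u)
      have hk3 : kk ω (Q \ A₁) = 1 := by
        apply kk_sub_side hA hA₁ hcx k2 l2
        · intro x hx z hz hxz
          exact o2 x (hA₁ hx) z hz hxz
        · intro x hx z hz hxz
          have := (o1 x hx z (hA₁ hz) hxz).2
          rw [this] at hz
          exact huA₁ hz
      have hside : SideP ω Q A₁ := by
        refine ⟨hA₁.trans hA, l1, hk3, u', hu'A₁, u, mem_sdiff.2 ⟨hA hu, huA₁⟩, hu'u, v, ?_, hvu⟩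
        rw [mem_sdiff] at hv ⊢
        exact ⟨hv.1, fun h => hv.2 (hA₁ h)⟩
      have h1 := hmin A₁ hside
      have h2 : A₁ ⊂ A := ⟨hA₁, fun h => huA₁ (h hu)⟩
      have h3 := card_lt_card h2
      omega

open Classical in
theorem side_src {Q A : Finset P} {m : ℕ} (hQ : kk ω Q = 1)
    (hsQ : (csrc ω Q).card = m + 1) (hS : SideP ω Q A) (hsA : (csrc ω A).card = 1) :
    (csrc ω (Q \ A)).card = m := by
  obtain ⟨hA, k1, k2, u, hu, v, hv, huv, y0, hy0, hy0v⟩ := hS
  have hcx := cross_one hQ hA k1 k2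
  obtain ⟨o1, o2⟩ := only_cross hcx hu hv huv
  have h1 := csrc_split_card (ω := ω) hA
  have hsub : csrc ω A ∪ csrc ω (Q \ A) ⊆ csrc ω Q := by
    intro x hx
    rw [mem_union, mem_csrc, mem_csrc] at hx
    rw [mem_csrc]
    rcases hx with ⟨hx, h⟩ | ⟨hx, h⟩
    · refine ⟨hA hx, fun y hy hyx => ?_⟩
      by_cases hyA : y ∈ A
      · exact h y hyA hyx
      · exact o2 y (mem_sdiff.2 ⟨hy, hyA⟩) x hx hyx
    · refine ⟨sdiff_subset hx, fun y hy hyx => ?_⟩
      by_cases hyA : y ∈ A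
      · have := (o1 y hyA x hx hyx).2
        subst this
        exact h y0 hy0 hy0v
      · exact h y (mem_sdiff.2 ⟨hy, hyA⟩) hyx
  have h2 := card_le_card hsub
  have hd : Disjoint (csrc ω A) (csrc ω (Q \ A)) := by
    rw [disjoint_left]
    intro x hx hx'
    exact (mem_sdiff.1 (csrc_subset _ hx')).2 (csrc_subset _ hx)
  rw [card_union_of_disjoint hd] at h2
  omega

open Classical in
/-- A good side is a lower or an upper subset; the sign of the complement. -/
theorem side_low [Finite P] (hω : Function.Injective ω) {Q A : Finset P} (hc : Cvx Q)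
    (hQ : kk ω Q = 1) (hS : SideP ω Q A) :
    (A ∈ lows Q ∧ sg ω Q = sg ω A * sg ω (Q \ A)) ∨
    (Q \ A ∈ lows Q ∧ sg ω Q = - (sg ω A * sg ω (Q \ A))) := by
  obtain ⟨hA, k1, k2, u, hu, v, hv, huv, y0, hy0, hy0v⟩ := hS
  have hcx := cross_one hQ hA k1 k2
  obtain ⟨o1, o2⟩ := only_cross hcx hu hv huv
  have e2 : cs ω (Q \ A) A = ∅ := by
    rw [Finset.eq_empty_iff_forall_notMem]
    intro p hp
    rw [mem_cs] at hp
    exact o2 _ hp.1 _ hp.2.1 hp.2.2.1
  rcases huv.1 with h | h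
  · left
    constructor
    · by_contra hcon
      obtain ⟨s, hs, hsA, t, ht, hst⟩ := exists_cross hc hA hcon
      have hsR : s ∈ Q \ A := mem_sdiff.2 ⟨hs, hsA⟩
      rcases lt_trichotomy (ω s) (ω t) with h1 | h1 | h1
      · exact o2 s hsR t ht ⟨Or.inl hst, h1⟩
      · exact absurd (hω h1) hst.lt.ne
      · obtain ⟨rfl, rfl⟩ := o1 t ht s hsR ⟨Or.inr hst, h1⟩
        exact absurd (h.lt.trans hst.lt) (lt_irrefl _)
    · rw [sg_split hA, e2]
      have e1 : cs ω A (Q \ A) = ∅ := by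
        rw [Finset.eq_empty_iff_forall_notMem]
        intro p hp
        rw [mem_cs] at hp
        obtain ⟨h1, h2⟩ := o1 _ hp.1 _ hp.2.1 hp.2.2.1
        rw [h1, h2] at hp
        exact absurd (h.lt.trans hp.2.2.2.lt) (lt_irrefl _)
      rw [e1]
      simp
  · right
    constructor
    · by_contra hcon
      obtain ⟨s, hs, hsA, t, ht, hst⟩ := exists_cross hc sdiff_subset hcon
      have hsA' : s ∈ A := by
        by_contra hh
        exact hsA (mem_sdiff.2 ⟨hs, hh⟩)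
      rcases lt_trichotomy (ω s) (ω t) with h1 | h1 | h1
      · obtain ⟨rfl, rfl⟩ := o1 s hsA' t ht ⟨Or.inl hst, h1⟩
        exact absurd (h.lt.trans hst.lt) (lt_irrefl _)
      · exact absurd (hω h1) hst.lt.ne
      · exact o2 t ht s hsA' ⟨Or.inr hst, h1⟩
    · rw [sg_split hA, e2]
      have e1 : cs ω A (Q \ A) = {(u, v)} := by
        ext p
        rw [mem_cs, mem_singleton]
        constructor
        · intro hp
          obtain ⟨h1, h2⟩ := o1 _ hp.1 _ hp.2.1 hp.2.2.1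
          exact Prod.ext h1 h2
        · rintro rfl
          exact ⟨hu, hv, huv, h⟩
      rw [e1]
      simp

theorem sg_mul_self (Q : Finset P) : sg ω Q * sg ω Q = 1 := by
  classical
  unfold sg
  rw [← pow_add, ← two_mul, pow_mul]
  simp

theorem sg_ne_zero (Q : Finset P) : sg ω Q ≠ 0 := by
  intro h
  have := sg_mul_self (ω := ω) Q
  rw [h] at this
  simp at this

open Classical in
/-- **Main claim for trees.** -/
theorem tree_claim [Finite P] (hω : Function.Injective ω) (hF : Frst (P := P) ω) (m : ℕ) :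
    ∀ (F : Finset (Finset P)) (n : ℕ), F.Nonempty →
      (∀ Q ∈ F, Cvx Q ∧ kk ω Q = 1 ∧ (csrc ω Q).card = m + 1 ∧ Q.card = n) →
      ∃ l : List ℕ, l.length = m + 1 ∧ (∀ i ∈ l, 1 ≤ i) ∧ (∀ Q ∈ F, 0 ≤ sg ω Q * BB ω l Q) ∧
        ∃ Q ∈ F, 0 < sg ω Q * BB ω l Q := by
  induction m with
  | zero =>
    intro F n hne hall
    have hval : ∀ Q ∈ F, sg ω Q * BB ω [n] Q = 1 := by
      intro Q hQ
      obtain ⟨h1, h2, h3, h4⟩ := hall Q hQ
      have hn : 1 ≤ n := by
        rw [← h4, Nat.one_le_iff_ne_zero, Ne, card_eq_zero]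
        rintro rfl
        rw [kk_empty] at h2
        exact absurd h2 (by norm_num)
      show sg ω Q * Psi ω n Q = 1
      rw [Psi_forest hω hF h1 n hn, if_pos ⟨h4, h3⟩, sg_mul_self]
    obtain ⟨Q, hQ⟩ := hne
    refine ⟨[n], rfl, ?_, fun Q hQ => by rw [hval Q hQ]; norm_num, Q, hQ, by rw [hval Q hQ]; norm_num⟩
    intro i hi
    rw [List.mem_singleton] at hi
    subst hi
    obtain ⟨h1, h2, h3, h4⟩ := hall Q hQ
    rw [← h4, Nat.one_le_iff_ne_zero, Ne, card_eq_zero]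
    rintro rfl
    rw [kk_empty] at h2
    exact absurd h2 (by norm_num)
  | succ m ih =>
    intro F n hne hall
    -- candidates
    set C : Finset (Finset P × Finset P) :=
      F.biUnion (fun Q => (Q.powerset.filter (fun A => SideP ω Q A)).image (fun A => (Q, A)))
      with hC
    have memC : ∀ Q A, (Q, A) ∈ C ↔ Q ∈ F ∧ SideP ω Q A := by
      intro Q A
      rw [hC, mem_biUnion]
      constructor
      · rintro ⟨Q', hQ', h⟩
        obtain ⟨A', hA', h2⟩ := mem_image.1 h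
        simp only [Prod.mk.injEq] at h2
        obtain ⟨rfl, rfl⟩ := h2
        exact ⟨hQ', (mem_filter.1 hA').2⟩
      · rintro ⟨hQ, hS⟩
        exact ⟨Q, hQ, mem_image.2 ⟨A, mem_filter.2 ⟨mem_powerset.2 hS.1, hS⟩, rfl⟩⟩
    have hCne : C.Nonempty := by
      obtain ⟨Q, hQ⟩ := hne
      obtain ⟨h1, h2, h3, h4⟩ := hall Q hQ
      obtain ⟨A, hA⟩ := exists_side hF h2 (by omega)
      exact ⟨(Q, A), (memC Q A).2 ⟨hQ, hA⟩⟩
    obtain ⟨⟨Q₀, A₀⟩, hmem₀, hmin₀⟩ := Finset.exists_min_image C (fun p => p.2.card) hCne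
    set i := A₀.card with hi
    have hmin : ∀ Q ∈ F, ∀ A, SideP ω Q A → i ≤ A.card := by
      intro Q hQ A hA
      exact hmin₀ (Q, A) ((memC Q A).2 ⟨hQ, hA⟩)
    obtain ⟨hQ₀, hS₀⟩ := (memC Q₀ A₀).1 hmem₀
    have hi1 : 1 ≤ i := by
      rw [hi, Nat.one_le_iff_ne_zero, Ne, card_eq_zero]
      rintro h
      have := hS₀.2.1
      rw [h, kk_empty] at this
      exact absurd this (by norm_num)
    -- the new family
    set F' : Finset (Finset P) := (C.filter (fun p => p.2.card = i)).image (fun p => p.1 \ p.2)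
      with hF'
    have hF'ne : F'.Nonempty :=
      ⟨Q₀ \ A₀, mem_image.2 ⟨(Q₀, A₀), mem_filter.2 ⟨hmem₀, rfl⟩, rfl⟩⟩
    have hprop : ∀ R ∈ F', Cvx R ∧ kk ω R = 1 ∧ (csrc ω R).card = m + 1 ∧ R.card = n - i := by
      intro R hR
      obtain ⟨⟨Q, A⟩, hp, rfl⟩ := mem_image.1 hR
      rw [mem_filter, memC] at hp
      obtain ⟨⟨hQ, hS⟩, hcard⟩ := hp
      obtain ⟨h1, h2, h3, h4⟩ := hall Q hQ
      simp only at hcard
      have hs1 : (csrc ω A).card = 1 := side_min_src hF h2 hS (fun A' hA' => by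
        rw [hcard]; exact hmin Q hQ A' hA')
      refine ⟨?_, hS.2.2.1, side_src h2 h3 hS hs1, ?_⟩
      · rcases side_low hω h1 h2 hS with ⟨hl, _⟩ | ⟨hl, _⟩
        · exact h1.low_compl hl
        · exact h1.low hl
      · have := card_sdiff_add_card_eq_card hS.1
        show (Q \ A).card = n - i
        omega
    obtain ⟨l, hl1, hl2, hl3, R₁, hR₁, hR₁pos⟩ := ih F' (n - i) hF'ne hprop
    refine ⟨i :: l, by rw [List.length_cons, hl1], ?_, ?_⟩
    · intro j hj
      rw [List.mem_cons] at hj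
      rcases hj with rfl | hj
      · exact hi1
      · exact hl2 j hj
    -- expand the bracket
    have hexp : ∀ Q, BB ω (i :: l) Q = (∑ I ∈ lows Q, Psi ω i I * BB ω l (Q \ I))
          - ∑ I ∈ lows Q, BB ω l I * Psi ω i (Q \ I) := by
      intro Q
      cases l with
      | nil => simp at hl1
      | cons a l' =>
        show (Psi ω i * BB ω (a :: l') - BB ω (a :: l') * Psi ω i) Q = _
        rw [sub_apply, mul_apply, mul_apply]
    have hexp2 : ∀ Q, sg ω Q * BB ω (i :: l) Q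
        = (∑ I ∈ lows Q, sg ω Q * (Psi ω i I * BB ω l (Q \ I)))
          + ∑ I ∈ lows Q, - (sg ω Q * (BB ω l I * Psi ω i (Q \ I))) := by
      intro Q
      rw [hexp, mul_sub, Finset.mul_sum, Finset.mul_sum, Finset.sum_neg_distrib]
      ring
    -- nonzero terms come from good sides
    have hterm : ∀ Q ∈ F, ∀ A ⊆ Q, Cvx A → Cvx (Q \ A) → Psi ω i A ≠ 0 → BB ω l (Q \ A) ≠ 0 →
        SideP ω Q A ∧ A.card = i ∧ Psi ω i A = sg ω A := by
      intro Q hQ A hA hcA hcR hn1 hn2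
      obtain ⟨h1, h2, h3, h4⟩ := hall Q hQ
      obtain ⟨a1, a2, a3, a4⟩ := Psi_ne_zero hω hF hcA hi1 hn1
      obtain ⟨b1, b2, b3⟩ := BB_support hω hF l hl2 (Q \ A) hcR hn2
      refine ⟨?_, a1, a4⟩
      apply side_of_term hF h2 h3 hA a3 b2 a2 (by rw [hl1] at b3; exact b3)
      intro A' hA'
      rw [a1]
      exact hmin Q hQ A' hA'
    have hnn1 : ∀ Q ∈ F, ∀ I ∈ lows Q, 0 ≤ sg ω Q * (Psi ω i I * BB ω l (Q \ I)) := by
      intro Q hQ I hI
      by_cases hz : Psi ω i I * BB ω l (Q \ I) = 0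
      · rw [hz, mul_zero]
      · obtain ⟨h1, h2, h3, h4⟩ := hall Q hQ
        obtain ⟨hS, hcard, hval⟩ := hterm Q hQ I (mem_lows.1 hI).1 (h1.low hI) (h1.low_compl hI)
          (left_ne_zero_of_mul hz) (right_ne_zero_of_mul hz)
        have hR : Q \ I ∈ F' :=
          mem_image.2 ⟨(Q, I), mem_filter.2 ⟨(memC Q I).2 ⟨hQ, hS⟩, hcard⟩, rfl⟩
        have hnn := hl3 _ hR
        rcases side_low hω h1 h2 hS with ⟨_, hs⟩ | ⟨hl, _⟩
        · rw [hs, hval]
          have : sg ω I * sg ω (Q \ I) * (sg ω I * BB ω l (Q \ I))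
              = (sg ω I * sg ω I) * (sg ω (Q \ I) * BB ω l (Q \ I)) := by ring
          rw [this, sg_mul_self, one_mul]
          exact hnn
        · exfalso
          obtain ⟨hA, k1, k2, u, hu, v, hv, huv, _⟩ := hS
          have hI' := mem_lows.1 hI
          have hl' := mem_lows.1 hl
          rcases huv.1 with h | h
          · exact (mem_sdiff.1 (hl'.2 v hv u (hA hu) h.lt)).2 hu
          · exact (mem_sdiff.1 hv).2 (hI'.2 u hu v (sdiff_subset hv) h.lt)
    have hnn2 : ∀ Q ∈ F, ∀ I ∈ lows Q, 0 ≤ - (sg ω Q * (BB ω l I * Psi ω i (Q \ I))) := by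
      intro Q hQ I hI
      by_cases hz : BB ω l I * Psi ω i (Q \ I) = 0
      · rw [hz, mul_zero, neg_zero]
      · obtain ⟨h1, h2, h3, h4⟩ := hall Q hQ
        have hI' := mem_lows.1 hI
        have e : Q \ (Q \ I) = I := Finset.sdiff_sdiff_eq_self hI'.1
        obtain ⟨hS, hcard, hval⟩ := hterm Q hQ (Q \ I) sdiff_subset (h1.low_compl hI)
          (by rw [e]; exact h1.low hI)
          (right_ne_zero_of_mul hz) (by rw [e]; exact left_ne_zero_of_mul hz)
        have hR : Q \ (Q \ I) ∈ F' :=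
          mem_image.2 ⟨(Q, Q \ I), mem_filter.2 ⟨(memC Q (Q \ I)).2 ⟨hQ, hS⟩, hcard⟩, rfl⟩
        have hnn := hl3 _ hR
        rw [e] at hnn
        rcases side_low hω h1 h2 hS with ⟨hl, _⟩ | ⟨_, hs⟩
        · exfalso
          obtain ⟨hA, k1, k2, u, hu, v, hv, huv, _⟩ := hS
          rw [e] at hv
          have hl' := mem_lows.1 hl
          rcases huv.1 with h | h
          · exact (mem_sdiff.1 hu).2 (hI'.2 v hv u (hA hu) h.lt)
          · exact (mem_sdiff.1 (hl'.2 u hu v (hI'.1 hv) h.lt)).2 hv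
        · rw [e] at hs
          rw [hs, hval]
          have : -(-(sg ω (Q \ I) * sg ω I) * (BB ω l I * sg ω (Q \ I)))
              = (sg ω (Q \ I) * sg ω (Q \ I)) * (sg ω I * BB ω l I) := by ring
          rw [this, sg_mul_self, one_mul]
          exact hnn
    constructor
    · intro Q hQ
      rw [hexp2]
      exact add_nonneg (Finset.sum_nonneg (hnn1 Q hQ)) (Finset.sum_nonneg (hnn2 Q hQ))
    · obtain ⟨⟨Q, A⟩, hp, hR⟩ := mem_image.1 hR₁
      rw [mem_filter, memC] at hp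
      obtain ⟨⟨hQ, hS⟩, hcard⟩ := hp
      simp only at hcard hR
      subst hR
      obtain ⟨h1, h2, h3, h4⟩ := hall Q hQ
      refine ⟨Q, hQ, ?_⟩
      rw [hexp2]
      have hs1 : (csrc ω A).card = 1 := side_min_src hF h2 hS (fun A' hA' => by
        rw [hcard]; exact hmin Q hQ A' hA')
      rcases side_low hω h1 h2 hS with ⟨hl, hs⟩ | ⟨hl, hs⟩
      · have hcA := h1.low hl
        have hval : Psi ω i A = sg ω A := by
          rw [Psi_forest hω hF hcA i hi1, if_pos ⟨hcard, hs1⟩]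
        have hpos : 0 < sg ω Q * (Psi ω i A * BB ω l (Q \ A)) := by
          rw [hs, hval]
          have : sg ω A * sg ω (Q \ A) * (sg ω A * BB ω l (Q \ A))
              = (sg ω A * sg ω A) * (sg ω (Q \ A) * BB ω l (Q \ A)) := by ring
          rw [this, sg_mul_self, one_mul]
          exact hR₁pos
        have := Finset.single_le_sum (hnn1 Q hQ) hl
        exact add_pos_of_pos_of_nonneg (lt_of_lt_of_le hpos this) (Finset.sum_nonneg (hnn2 Q hQ))
      · have e : Q \ (Q \ A) = A := Finset.sdiff_sdiff_eq_self hS.1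
        have hcA : Cvx A := by
          have := h1.low_compl hl
          rwa [e] at this
        have hval : Psi ω i A = sg ω A := by
          rw [Psi_forest hω hF hcA i hi1, if_pos ⟨hcard, hs1⟩]
        have hpos : 0 < - (sg ω Q * (BB ω l (Q \ A) * Psi ω i (Q \ (Q \ A)))) := by
          rw [e, hs, hval]
          have : -(-(sg ω A * sg ω (Q \ A)) * (BB ω l (Q \ A) * sg ω A))
              = (sg ω A * sg ω A) * (sg ω (Q \ A) * BB ω l (Q \ A)) := by ring
          rw [this, sg_mul_self, one_mul]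
          exact hR₁pos
        have := Finset.single_le_sum (hnn2 Q hQ) hl
        exact add_pos_of_nonneg_of_pos (Finset.sum_nonneg (hnn1 Q hQ)) (lt_of_lt_of_le hpos this)

end Pool.SP91
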